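import Pool.Agent.QA61.Defs

/-!
# Basic facts on reflections and isometries
-/

namespace QA61

open Matrix MeasureTheory

/-! ### Bilinearity -/

theorem B_comm (x y : V) : B x y = B y x := by unfold B; ring
theorem B_add_left (x y z : V) : B (x + y) z = B x z + B y z := by simp [B]; ring
theorem B_add_right (x y z : V) : B x (y + z) = B x y + B x z := by simp [B]; ring
theorem B_sub_left (x y z : V) : B (x - y) z = B x z - B y z := by simp [B]; ring
theorem B_sub_right (x y z : V) : B x (y - z) = B x y - B x z := by simp [B]; ring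
theorem B_smul_left (a : ℝ) (x y : V) : B (a • x) y = a * B x y := by simp [B]; ring
theorem B_smul_right (a : ℝ) (x y : V) : B x (a • y) = a * B x y := by simp [B]; ring
theorem B_neg_left (x y : V) : B (-x) y = -B x y := by simp [B]; ring
theorem B_neg_right (x y : V) : B x (-y) = -B x y := by simp [B]; ring
@[simp] theorem B_zero_left (x : V) : B 0 x = 0 := by simp [B]
@[simp] theorem B_zero_right (x : V) : B x 0 = 0 := by simp [B]

theorem act_add (g : G) (x y : V) : act g (x + y) = act g x + act g y := by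
  simp [act, Matrix.mulVec_add]
theorem act_sub (g : G) (x y : V) : act g (x - y) = act g x - act g y := by
  simp [act, Matrix.mulVec_sub]
theorem act_smul (g : G) (a : ℝ) (x : V) : act g (a • x) = a • act g x := by
  simp [act, Matrix.mulVec_smul]
@[simp] theorem act_zero (g : G) : act g 0 = 0 := by
  simp [act]

theorem act_single (g : G) (i j : Fin 4) :
    act g (Pi.single j 1) i = (g : Matrix (Fin 4) (Fin 4) ℝ) i j := by
  simp [act]

theorem act_ext {g h : G} (H : ∀ x, act g x = act h x) : g = h := by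
  apply Units.ext
  ext i j
  rw [← act_single, ← act_single, H]

/-- The form is nondegenerate. -/
theorem eq_of_B_eq {x y : V} (h : ∀ z, B x z = B y z) : x = y := by
  have h0 := h (Pi.single 0 1)
  have h1 := h (Pi.single 1 1)
  have h2 := h (Pi.single 2 1)
  have h3 := h (Pi.single 3 1)
  simp [B] at h0 h1 h2 h3
  ext i
  fin_cases i <;> simp_all

/-! ### Reflections -/

/-- The matrix of the reflection `x ↦ x - (2 B(x,e)/B(e,e)) e` (the identity if `B(e,e) = 0`). -/
noncomputable def reflMat (e : V) : Matrix (Fin 4) (Fin 4) ℝ :=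
  Matrix.of fun i j => (if i = j then 1 else 0) - 2 / B e e * e i * (![-e 0, e 1, e 2, e 3] j)

theorem reflMat_mulVec (e x : V) : reflMat e *ᵥ x = x - (2 * B x e / B e e) • e := by
  ext i
  fin_cases i <;>
  simp [reflMat, Matrix.mulVec, dotProduct, Fin.sum_univ_four] <;>
  simp only [B] <;> ring

theorem mat_ext {M N : Matrix (Fin 4) (Fin 4) ℝ} (H : ∀ x, M *ᵥ x = N *ᵥ x) : M = N := by
  ext i j
  have := congrFun (H (Pi.single j 1)) i
  simpa using this

theorem reflMat_mul_self (e : V) : reflMat e * reflMat e = 1 := by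
  apply mat_ext
  intro x
  rw [← Matrix.mulVec_mulVec, reflMat_mulVec, reflMat_mulVec, Matrix.one_mulVec, B_sub_left,
    B_smul_left]
  rcases eq_or_ne (B e e) 0 with h | h
  · simp [h]
  · have : 2 * (B x e - 2 * B x e / B e e * B e e) / B e e = - (2 * B x e / B e e) := by
      field_simp; ring
    rw [this]; simp

/-- The reflection as an element of `GL₄(ℝ)`. -/
noncomputable def R (e : V) : G := ⟨reflMat e, reflMat e, reflMat_mul_self e, reflMat_mul_self e⟩

theorem act_R (e x : V) : act (R e) x = x - (2 * B x e / B e e) • e := reflMat_mulVec e x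

@[simp] theorem R_mul_self (e : V) : R e * R e = 1 := Units.ext (reflMat_mul_self e)

@[simp] theorem R_inv (e : V) : (R e)⁻¹ = R e := by
  rw [inv_eq_iff_mul_eq_one, R_mul_self]

theorem B_R (e x y : V) : B (act (R e) x) (act (R e) y) = B x y := by
  rw [act_R, act_R, B_sub_left, B_sub_right, B_sub_right, B_smul_left, B_smul_right,
    B_smul_left, B_smul_right, B_comm e y]
  rcases eq_or_ne (B e e) 0 with h | h
  · simp [h]
  · field_simp; ring

/-- Sheet criterion: if `x ∈ ℍ³`, `B y y < 0` and `B x y < 0` then `0 < y 0`. -/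
theorem pos_of_B_neg {x y : V} (hx : B x x < 0) (hx0 : 0 < x 0) (hy : B y y < 0)
    (hxy : B x y < 0) : 0 < y 0 := by
  by_contra h
  push Not at h
  unfold B at hx hy hxy
  have h1 : (x 1 * y 1 + x 2 * y 2 + x 3 * y 3) ^ 2 ≤
      (x 1 ^ 2 + x 2 ^ 2 + x 3 ^ 2) * (y 1 ^ 2 + y 2 ^ 2 + y 3 ^ 2) := by
    nlinarith [sq_nonneg (x 1 * y 2 - x 2 * y 1), sq_nonneg (x 1 * y 3 - x 3 * y 1),
      sq_nonneg (x 2 * y 3 - x 3 * y 2)]
  have h2 : (x 1 ^ 2 + x 2 ^ 2 + x 3 ^ 2) * (y 1 ^ 2 + y 2 ^ 2 + y 3 ^ 2) ≤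
      x 0 ^ 2 * y 0 ^ 2 := by
    apply mul_le_mul <;> nlinarith [sq_nonneg (x 0), sq_nonneg (y 1), sq_nonneg (y 2),
      sq_nonneg (y 3)]
  have h3 : |x 1 * y 1 + x 2 * y 2 + x 3 * y 3| ≤ |x 0 * y 0| := by
    apply sq_le_sq.mp
    calc _ ≤ _ := h1
      _ ≤ _ := h2
      _ = _ := by ring
  have h4 : |x 0 * y 0| = -(x 0 * y 0) := abs_of_nonpos (by nlinarith)
  have h5 := neg_abs_le (x 1 * y 1 + x 2 * y 2 + x 3 * y 3)
  nlinarith

/-- Conversely, two vectors in the future cone have negative product. -/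
theorem B_neg_of_pos {x y : V} (hx : B x x < 0) (hx0 : 0 < x 0) (hy : B y y < 0)
    (hy0 : 0 < y 0) : B x y < 0 := by
  have := @pos_of_B_neg x (-y) hx hx0 (by rw [B_neg_neg]; exact hy)
  rw [B_neg_right] at this
  by_contra h
  push Not at h
  rcases h.lt_or_eq with h | h
  · have h2 := this (by linarith)
    simp at h2; linarith
  · -- B x y = 0: impossible
    have h1 : (x 1 * y 1 + x 2 * y 2 + x 3 * y 3) ^ 2 ≤
        (x 1 ^ 2 + x 2 ^ 2 + x 3 ^ 2) * (y 1 ^ 2 + y 2 ^ 2 + y 3 ^ 2) := by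
      nlinarith [sq_nonneg (x 1 * y 2 - x 2 * y 1), sq_nonneg (x 1 * y 3 - x 3 * y 1),
        sq_nonneg (x 2 * y 3 - x 3 * y 2)]
    have h2 : (x 1 ^ 2 + x 2 ^ 2 + x 3 ^ 2) * (y 1 ^ 2 + y 2 ^ 2 + y 3 ^ 2) <
        x 0 ^ 2 * y 0 ^ 2 := by
      unfold B at hx hy
      apply mul_lt_mul'' <;> nlinarith [sq_nonneg (x 1), sq_nonneg (x 2), sq_nonneg (x 3),
        sq_nonneg (y 1), sq_nonneg (y 2), sq_nonneg (y 3)]
    unfold B at h
    have h3 : x 0 * y 0 = x 1 * y 1 + x 2 * y 2 + x 3 * y 3 := by linarith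
    have h4 : (x 0 * y 0) ^ 2 = (x 1 * y 1 + x 2 * y 2 + x 3 * y 3) ^ 2 := by rw [h3]
    nlinarith

/-- A linear automorphism preserving the form is in `IsomH3` if it moves one point of the
future cone to a point having negative product with it. -/
theorem mem_IsomH3_of {g : G} (hg : ∀ x y, B (act g x) (act g y) = B x y) {p : V}
    (hp : B p p < 0) (hp0 : 0 < p 0) (h : B (act g p) p < 0) : g ∈ IsomH3 := by
  have hgp : 0 < act g p 0 := pos_of_B_neg hp hp0 (by rw [hg]; exact hp) (by rw [B_comm]; exact h)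
  refine ⟨hg, fun x hx => ⟨by rw [hg]; exact hx.1, ?_⟩⟩
  have h1 : B x p < 0 := B_neg_of_pos (by rw [hx.1]; norm_num) hx.2 hp hp0
  refine pos_of_B_neg (x := act g p) (by rw [hg]; exact hp) hgp (by rw [hg, hx.1]; norm_num) ?_
  rw [hg, B_comm]; exact h1

theorem e0_mem : (![1, 0, 0, 0] : V) ∈ H3 := by
  constructor <;> simp [B]

theorem R_mem {e : V} (he : 0 < B e e) : R e ∈ IsomH3 := by
  refine mem_IsomH3_of (B_R e) (p := ![1, 0, 0, 0]) ?_ ?_ ?_
  · rw [e0_mem.1]; norm_num
  · exact e0_mem.2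
  · rw [act_R, B_sub_left, B_smul_left, e0_mem.1, B_comm e ![1, 0, 0, 0]]
    have : 0 ≤ 2 * B ![1, 0, 0, 0] e / B e e * B ![1, 0, 0, 0] e := by
      have : 2 * B ![1, 0, 0, 0] e / B e e * B ![1, 0, 0, 0] e =
        2 * (B ![1, 0, 0, 0] e) ^ 2 / B e e := by ring
      rw [this]; positivity
    linarith

theorem isReflection_R {e : V} (he : 0 < B e e) : IsReflection (R e) := ⟨e, he, act_R e⟩

theorem IsReflection.exists_R {g : G} (hg : IsReflection g) : ∃ e, 0 < B e e ∧ g = R e := by
  obtain ⟨e, he, h⟩ := hg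
  exact ⟨e, he, act_ext fun x => by rw [h, act_R]⟩

theorem conj_R {g : G} (hg : ∀ x y, B (act g x) (act g y) = B x y) (e : V) :
    g * R e * g⁻¹ = R (act g e) := by
  apply act_ext
  intro x
  rw [act_mul, act_mul, act_R, act_R, act_sub, act_smul, act_act_inv, hg]
  congr 3
  conv_rhs => rw [← act_act_inv g x]
  rw [hg]

theorem sq_eq_one_iff_of_side_cond {k : ℝ} (h : k ^ 2 = 1) : k = 1 ∨ k = -1 := by
  have : (k - 1) * (k + 1) = 0 := by linarith
  rcases mul_eq_zero.mp this with h | h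
  · left; linarith
  · right; linarith

/-- Equal reflections have proportional roots. -/
theorem R_eq_R {e f : V} (he : 0 < B e e) (hf : B f f = B e e) (h : R e = R f) :
    f = e ∨ f = -e := by
  have h1 : act (R f) f = act (R e) f := by rw [h]
  rw [act_R, act_R, hf] at h1
  have h2 : (2 * B e e / B e e) = 2 := by field_simp
  rw [h2] at h1
  have h3 : (2 : ℝ) • f = (2 * B f e / B e e) • e := by
    have : f - (2 : ℝ) • f + (2 : ℝ) • f = f - (2 * B f e / B e e) • e + (2 : ℝ) • f := by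
      rw [h1]
    have h4 : (2 * B f e / B e e) • e + (f - (2 : ℝ) • f + (2 : ℝ) • f) =
      (2 * B f e / B e e) • e + (f - (2 * B f e / B e e) • e + (2 : ℝ) • f) := by rw [this]
    have h5 : (2 * B f e / B e e) • e + (f - (2 : ℝ) • f + (2 : ℝ) • f) =
      f + (2 * B f e / B e e) • e := by abel
    have h6 : (2 * B f e / B e e) • e + (f - (2 * B f e / B e e) • e + (2 : ℝ) • f) =
      f + (2 : ℝ) • f := by abel
    rw [h5, h6] at h4
    exact (add_left_cancel h4).symm
  have h4 : f = (B f e / B e e) • e := by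
    have : (1 / 2 : ℝ) • ((2 : ℝ) • f) = (1 / 2 : ℝ) • ((2 * B f e / B e e) • e) := by rw [h3]
    rw [smul_smul, smul_smul] at this
    norm_num at this
    have h7 : (1 / 2 * (2 * B f e / B e e)) = B f e / B e e := by ring
    rw [h7] at this
    exact this
  set k := B f e / B e e with hk
  have h5 : k ^ 2 = 1 := by
    have : B f f = k ^ 2 * B e e := by
      conv_lhs => rw [h4]
      rw [B_smul_left, B_smul_right]; ring
    rw [hf] at this
    have h6 : (k ^ 2 - 1) * B e e = 0 := by linarith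
    rcases mul_eq_zero.mp h6 with h7 | h7
    · linarith
    · linarith
  rcases sq_eq_one_iff_of_side_cond h5 with h6 | h6
  · left; rw [h4, h6, one_smul]
  · right; rw [h4, h6, neg_one_smul]

end QA61
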