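import Pool.Agent.QA61.Basic

/-!
# Discreteness, finiteness, cocompactness in elementary form
-/

namespace QA61

open Matrix MeasureTheory

/-- Entrywise form of discreteness. -/
def Disc (Γ : Subgroup G) : Prop :=
  ∃ ε > 0, ∀ γ ∈ Γ, (∀ i j, |(γ : Matrix (Fin 4) (Fin 4) ℝ) i j -
    (1 : Matrix (Fin 4) (Fin 4) ℝ) i j| < ε) → γ = 1

/-- Elementary form of cocompactness: every point of `ℍ³` can be moved to height at most `r`. -/
def Cobdd (Γ : Subgroup G) : Prop := ∃ r : ℝ, ∀ x ∈ H3, ∃ γ ∈ Γ, act γ x 0 ≤ r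

theorem J_mul_J : J * J = 1 := by
  ext i j
  fin_cases i <;> fin_cases j <;> simp [J, Matrix.mul_apply, Matrix.diagonal, Fin.sum_univ_four]

theorem B_eq_J (x y : V) : B x y = x ⬝ᵥ (J *ᵥ y) := by
  simp [B, J, dotProduct, Matrix.mulVec_diagonal, Fin.sum_univ_four]

/-- The matrix of the inverse of an isometry. -/
theorem inv_eq {g : G} (hg : ∀ x y, B (act g x) (act g y) = B x y) :
    ((g⁻¹ : G) : Matrix (Fin 4) (Fin 4) ℝ) = J * (g : Matrix (Fin 4) (Fin 4) ℝ)ᵀ * J := by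
  have h1 : (g : Matrix (Fin 4) (Fin 4) ℝ)ᵀ * J * (g : Matrix (Fin 4) (Fin 4) ℝ) = J := by
    apply mat_ext
    intro y
    have h2 : ∀ x : V, x ⬝ᵥ (((g : Matrix (Fin 4) (Fin 4) ℝ)ᵀ * J *
        (g : Matrix (Fin 4) (Fin 4) ℝ)) *ᵥ y) = x ⬝ᵥ (J *ᵥ y) := by
      intro x
      rw [← B_eq_J, ← hg x y, B_eq_J, ← Matrix.mulVec_mulVec, ← Matrix.mulVec_mulVec,
        Matrix.dotProduct_mulVec, Matrix.vecMul_transpose]
      rfl
    ext i
    have := h2 (Pi.single i 1)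
    simpa using this
  have h3 : J * (g : Matrix (Fin 4) (Fin 4) ℝ)ᵀ * J * (g : Matrix (Fin 4) (Fin 4) ℝ) = 1 := by
    rw [Matrix.mul_assoc, Matrix.mul_assoc, ← Matrix.mul_assoc _ J, h1, J_mul_J]
  have h4 := congrArg (· * ((g⁻¹ : G) : Matrix (Fin 4) (Fin 4) ℝ)) h3
  simp only [Matrix.mul_assoc, one_mul] at h4
  rw [← Units.val_mul, mul_inv_cancel, Units.val_one, mul_one] at h4
  rw [← h4, Matrix.mul_assoc]

theorem inv_entry {g : G} (hg : ∀ x y, B (act g x) (act g y) = B x y) (i j : Fin 4) :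
    |((g⁻¹ : G) : Matrix (Fin 4) (Fin 4) ℝ) i j| = |(g : Matrix (Fin 4) (Fin 4) ℝ) j i| := by
  rw [inv_eq hg]
  fin_cases i <;> fin_cases j <;>
    simp [J, Matrix.mul_apply, Matrix.diagonal, Fin.sum_univ_four]

theorem disc_of_discreteTopology {Γ : Subgroup G} (hΓ : Γ ≤ IsomH3) (h : DiscreteTopology Γ) :
    Disc Γ := by
  obtain ⟨U, hU, hU1⟩ := isOpen_induced_iff.mp (isOpen_discrete ({1} : Set Γ))
  have h1U : (1 : G) ∈ U := by
    have : (1 : Γ) ∈ Subtype.val ⁻¹' U := by rw [hU1]; rfl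
    exact this
  have hU2 : U ∈ nhds (1 : G) := hU.mem_nhds h1U
  rw [Units.isInducing_embedProduct.nhds_eq_comap] at hU2
  obtain ⟨W, hW, hWU⟩ := hU2
  let φ : Matrix (Fin 4) (Fin 4) ℝ → Matrix (Fin 4) (Fin 4) ℝ × (Matrix (Fin 4) (Fin 4) ℝ)ᵐᵒᵖ :=
    fun m => (m, MulOpposite.op (J * mᵀ * J))
  have hφ : Continuous φ := by
    refine Continuous.prodMk continuous_id ?_
    refine MulOpposite.continuous_op.comp ?_
    fun_prop
  have hφ1 : φ 1 = Units.embedProduct _ (1 : G) := by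
    refine Prod.ext rfl (congrArg MulOpposite.op ?_)
    simp [J_mul_J]
  have hφg : ∀ g ∈ IsomH3, φ (g : Matrix (Fin 4) (Fin 4) ℝ) = Units.embedProduct _ g := by
    intro g hg
    exact Prod.ext rfl (congrArg MulOpposite.op (inv_eq hg.1).symm)
  have h2 : φ ⁻¹' W ∈ nhds (1 : Matrix (Fin 4) (Fin 4) ℝ) :=
    hφ.continuousAt.preimage_mem_nhds (by rw [hφ1]; exact hW)
  have h3 : ∃ ε > 0, @Metric.ball (Fin 4 → Fin 4 → ℝ) _
      (1 : Matrix (Fin 4) (Fin 4) ℝ) ε ⊆ φ ⁻¹' W := by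
    exact (@Metric.mem_nhds_iff (Fin 4 → Fin 4 → ℝ) _ (1 : Matrix (Fin 4) (Fin 4) ℝ)
      (φ ⁻¹' W)).mp h2
  obtain ⟨ε, hε, hε2⟩ := h3
  refine ⟨ε, hε, fun γ hγ hγε => ?_⟩
  have h4 : ∀ m : Fin 4 → Fin 4 → ℝ, (∀ i j, |m i j - (1 : Matrix (Fin 4) (Fin 4) ℝ) i j| < ε) →
      m ∈ @Metric.ball (Fin 4 → Fin 4 → ℝ) _ (1 : Matrix (Fin 4) (Fin 4) ℝ) ε := by
    intro m hm
    rw [Metric.mem_ball, dist_pi_lt_iff hε]
    intro i
    rw [dist_pi_lt_iff hε]
    intro j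
    rw [Real.dist_eq]
    exact hm i j
  have h5 : φ (γ : Matrix (Fin 4) (Fin 4) ℝ) ∈ W := hε2 (h4 _ hγε)
  rw [hφg γ (hΓ hγ)] at h5
  have h6 : γ ∈ U := hWU h5
  have h7 : (⟨γ, hγ⟩ : Γ) ∈ ({1} : Set Γ) := by rw [← hU1]; exact h6
  exact congrArg Subtype.val h7

theorem discreteTopology_of_disc {Γ : Subgroup G} (h : Disc Γ) : DiscreteTopology Γ := by
  obtain ⟨ε, hε, h⟩ := h
  apply discreteTopology_of_isOpen_singleton_one
  have h1 : ({1} : Set Γ) = (fun γ : Γ => ((γ : G) : Matrix (Fin 4) (Fin 4) ℝ)) ⁻¹'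
      (⋂ i, ⋂ j, {m : Matrix (Fin 4) (Fin 4) ℝ | |m i j -
        (1 : Matrix (Fin 4) (Fin 4) ℝ) i j| < ε}) := by
    ext γ
    constructor
    · intro hγ
      have : γ = 1 := hγ
      subst this
      simp [hε]
    · intro hγ
      simp only [Set.mem_preimage, Set.mem_iInter, Set.mem_ofPred_eq] at hγ
      exact Subtype.ext (h γ γ.2 hγ)
  rw [h1]
  apply IsOpen.preimage
  · exact Units.continuous_val.comp continuous_subtype_val
  · refine isOpen_iInter_of_finite fun i => isOpen_iInter_of_finite fun j => ?_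
    refine isOpen_lt ?_ continuous_const
    have : Continuous fun m : Matrix (Fin 4) (Fin 4) ℝ => m i j :=
      (continuous_apply_apply i j)
    fun_prop

theorem finiteCovolume_of_cobdd {Γ : Subgroup G} (hΓ : Γ ≤ IsomH3) (h : Cobdd Γ) :
    FiniteCovolume Γ := by
  obtain ⟨r, hr⟩ := h
  refine ⟨{x | x ∈ H3 ∧ x 0 ≤ r}, fun x hx => hx.1, ?_, ?_, fun x hx => ?_⟩
  · have h1 : Measurable fun x : V => B x x := by unfold B; fun_prop
    have h0 : Measurable fun x : V => x 0 := by fun_prop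
    have e : {x : V | x ∈ H3 ∧ x 0 ≤ r} = ((fun x : V => B x x) ⁻¹' {-1}) ∩
        ((fun x : V => x 0) ⁻¹' (Set.Ioc 0 r)) := by
      ext x; simp [H3, and_assoc]
    rw [e]
    exact (h1 (measurableSet_singleton _)).inter (h0 measurableSet_Ioc)
  · unfold hvol
    calc _ ≤ ∫⁻ y in lift ⁻¹' {x | x ∈ H3 ∧ x 0 ≤ r}, 1 := by
          apply lintegral_mono
          intro y
          simp only
          rw [ENNReal.ofReal_le_one]
          rw [div_le_one (by positivity)]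
          rw [Real.one_le_sqrt]
          nlinarith [sq_nonneg (y 0), sq_nonneg (y 1), sq_nonneg (y 2)]
      _ = volume (lift ⁻¹' {x | x ∈ H3 ∧ x 0 ≤ r}) := by simp
      _ ≤ volume (Metric.closedBall (0 : Fin 3 → ℝ) |r|) := by
          apply measure_mono
          intro y hy
          have h1 : √(1 + y 0 ^ 2 + y 1 ^ 2 + y 2 ^ 2) ≤ r := hy.2
          have h2 : 0 ≤ r := (Real.sqrt_nonneg _).trans h1
          rw [Real.sqrt_le_left h2] at h1
          rw [Metric.mem_closedBall, dist_pi_le_iff (abs_nonneg r)]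
          intro i
          rw [Real.dist_eq]
          apply sq_le_sq.mp
          fin_cases i <;> simp <;> nlinarith [sq_nonneg (y 0), sq_nonneg (y 1), sq_nonneg (y 2)]
      _ < ⊤ := measure_closedBall_lt_top
  · obtain ⟨γ, hγ, h⟩ := hr x hx
    exact ⟨γ, hγ, (hΓ hγ).2 x hx, h⟩

theorem B_single (i j : Fin 4) : B (Pi.single i 1) (Pi.single j 1) =
    if i = j then (if i = 0 then -1 else 1) else 0 := by
  fin_cases i <;> fin_cases j <;> simp [B]

theorem col_eq {g : G} (hg : g ∈ IsomH3) (j : Fin 4) :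
    -(g : Matrix (Fin 4) (Fin 4) ℝ) 0 j ^ 2 + (g : Matrix (Fin 4) (Fin 4) ℝ) 1 j ^ 2
      + (g : Matrix (Fin 4) (Fin 4) ℝ) 2 j ^ 2 + (g : Matrix (Fin 4) (Fin 4) ℝ) 3 j ^ 2 =
      if j = 0 then -1 else 1 := by
  have h := hg.1 (Pi.single j 1) (Pi.single j 1)
  rw [B_single, if_pos rfl] at h
  unfold B at h
  simp only [act_single] at h
  rw [← h]; ring

theorem entry_zero_zero_pos {g : G} (hg : g ∈ IsomH3) :
    0 < (g : Matrix (Fin 4) (Fin 4) ℝ) 0 0 := by
  have h := (hg.2 _ e0_mem).2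
  have e : (![1, 0, 0, 0] : V) = Pi.single 0 1 := by
    ext i; fin_cases i <;> simp
  rw [e, act_single] at h
  exact h

theorem abs_entry_le_zero_zero {g : G} (hg : g ∈ IsomH3) (i j : Fin 4) :
    |(g : Matrix (Fin 4) (Fin 4) ℝ) i j| ≤ (g : Matrix (Fin 4) (Fin 4) ℝ) 0 0 := by
  have hpos := entry_zero_zero_pos hg
  have hrow : ∀ j, (g : Matrix (Fin 4) (Fin 4) ℝ) 0 j ^ 2 ≤
      (g : Matrix (Fin 4) (Fin 4) ℝ) 0 0 ^ 2 - (if j = 0 then 0 else 1) := by
    have hi := col_eq (IsomH3.inv_mem hg) 0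
    have e : ∀ k, ((g⁻¹ : G) : Matrix (Fin 4) (Fin 4) ℝ) k 0 ^ 2 =
        (g : Matrix (Fin 4) (Fin 4) ℝ) 0 k ^ 2 := by
      intro k
      rw [← sq_abs, inv_entry hg.1, sq_abs]
    rw [e, e, e, e, if_pos rfl] at hi
    intro j
    have q0 := sq_nonneg ((g : Matrix (Fin 4) (Fin 4) ℝ) 0 1)
    have q1 := sq_nonneg ((g : Matrix (Fin 4) (Fin 4) ℝ) 0 2)
    have q2 := sq_nonneg ((g : Matrix (Fin 4) (Fin 4) ℝ) 0 3)
    fin_cases j <;> simp <;> linarith
  have hc := col_eq hg j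
  have hr := hrow j
  have hsq : (g : Matrix (Fin 4) (Fin 4) ℝ) i j ^ 2 ≤
      (g : Matrix (Fin 4) (Fin 4) ℝ) 0 0 ^ 2 := by
    have q1 := sq_nonneg ((g : Matrix (Fin 4) (Fin 4) ℝ) 1 j)
    have q2 := sq_nonneg ((g : Matrix (Fin 4) (Fin 4) ℝ) 2 j)
    have q3 := sq_nonneg ((g : Matrix (Fin 4) (Fin 4) ℝ) 3 j)
    split_ifs at hc hr with h0
    · fin_cases i <;> simp <;> linarith
    · fin_cases i <;> simp <;> linarith
  have := sq_le_sq.mp hsq
  rwa [abs_of_pos hpos] at this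

/-- The entries of an isometry are bounded in terms of the heights of a point and its image. -/
theorem entry_le {g : G} (hg : g ∈ IsomH3) {x : V} (hx : x ∈ H3) (i j : Fin 4) :
    |(g : Matrix (Fin 4) (Fin 4) ℝ) i j| ≤ 4 * x 0 * act g x 0 := by
  have h0 : (2 * x 0) • x - ![1, 0, 0, 0] ∈ H3 := by
    have hB := hx.1
    have hp := hx.2
    constructor
    · rw [B_sub_left, B_sub_right, B_sub_right, B_smul_left, B_smul_left, B_smul_right,
        B_smul_right, hB, e0_mem.1]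
      have h1 : B x ![1, 0, 0, 0] = - x 0 := by simp [B]
      have h2 : B ![1, 0, 0, 0] x = - x 0 := by simp [B]
      rw [h1, h2]; ring
    · have h1 : 1 ≤ x 0 ^ 2 := by
        unfold B at hB
        nlinarith [sq_nonneg (x 1), sq_nonneg (x 2), sq_nonneg (x 3)]
      simp
      nlinarith
  have h1 := (hg.2 _ h0).2
  rw [act_sub, act_smul] at h1
  have e : (![1, 0, 0, 0] : V) = Pi.single 0 1 := by
    ext i; fin_cases i <;> simp
  rw [e] at h1
  simp only [Pi.sub_apply, act_single, Pi.smul_apply, smul_eq_mul] at h1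
  have h2 := abs_entry_le_zero_zero hg i j
  have h3 : 0 < 2 * x 0 * act g x 0 := by
    have := hx.2
    have := (hg.2 x hx).2
    positivity
  linarith

/-- A discrete group has only finitely many elements with bounded entries. -/
theorem finite_of_entries {Γ : Subgroup G} (hΓ : Γ ≤ IsomH3) (h : Disc Γ) (r : ℝ) :
    {γ : G | γ ∈ Γ ∧ ∀ i j, |(γ : Matrix (Fin 4) (Fin 4) ℝ) i j| ≤ r}.Finite := by
  obtain ⟨ε, hε, h⟩ := h
  set η : ℝ := ε / (8 * (|r| + 1)) with hη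
  have hr0 : 0 ≤ |r| := abs_nonneg r
  have hηpos : 0 < η := by positivity
  let f : G → Fin 4 → Fin 4 → ℤ := fun γ i j => ⌊(γ : Matrix (Fin 4) (Fin 4) ℝ) i j / η⌋
  refine Set.Finite.of_injOn (f := f)
    (t := Set.Icc (fun _ _ => ⌊-r / η⌋) (fun _ _ => ⌊r / η⌋)) ?_ ?_ (Set.finite_Icc _ _)
  · rintro γ ⟨hγ, hγr⟩
    constructor
    · intro i j
      apply Int.floor_le_floor
      have := (abs_le.mp (hγr i j)).1
      gcongr
    · intro i j
      apply Int.floor_le_floor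
      have := (abs_le.mp (hγr i j)).2
      gcongr
  · rintro γ ⟨hγ, hγr⟩ γ' ⟨hγ', hγr'⟩ hff
    have hclose : ∀ i j, |(γ' : Matrix (Fin 4) (Fin 4) ℝ) i j -
        (γ : Matrix (Fin 4) (Fin 4) ℝ) i j| < η := by
      intro i j
      have h1 : ⌊(γ' : Matrix (Fin 4) (Fin 4) ℝ) i j / η⌋ =
          ⌊(γ : Matrix (Fin 4) (Fin 4) ℝ) i j / η⌋ := (congrFun (congrFun hff i) j).symm
      have h2 := Int.abs_sub_lt_one_of_floor_eq_floor h1
      rw [← sub_div, abs_div, abs_of_pos hηpos, div_lt_one hηpos] at h2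
      exact h2
    have h1 : γ⁻¹ * γ' = 1 := by
      apply h _ (Γ.mul_mem (Γ.inv_mem hγ) hγ')
      intro i j
      have e : ((γ⁻¹ * γ' : G) : Matrix (Fin 4) (Fin 4) ℝ) i j -
          (1 : Matrix (Fin 4) (Fin 4) ℝ) i j = ∑ k, ((γ⁻¹ : G) : Matrix (Fin 4) (Fin 4) ℝ) i k *
            ((γ' : Matrix (Fin 4) (Fin 4) ℝ) k j - (γ : Matrix (Fin 4) (Fin 4) ℝ) k j) := by
        have e1 : (1 : Matrix (Fin 4) (Fin 4) ℝ) =
            ((γ⁻¹ : G) : Matrix (Fin 4) (Fin 4) ℝ) * (γ : Matrix (Fin 4) (Fin 4) ℝ) := by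
          rw [← Units.val_mul]; simp
        rw [e1, Units.val_mul, Matrix.mul_apply, Matrix.mul_apply, ← Finset.sum_sub_distrib]
        refine Finset.sum_congr rfl fun k _ => ?_
        ring
      rw [e]
      calc |∑ k, ((γ⁻¹ : G) : Matrix (Fin 4) (Fin 4) ℝ) i k *
            ((γ' : Matrix (Fin 4) (Fin 4) ℝ) k j - (γ : Matrix (Fin 4) (Fin 4) ℝ) k j)|
          ≤ ∑ k : Fin 4, |((γ⁻¹ : G) : Matrix (Fin 4) (Fin 4) ℝ) i k *
            ((γ' : Matrix (Fin 4) (Fin 4) ℝ) k j - (γ : Matrix (Fin 4) (Fin 4) ℝ) k j)| :=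
            Finset.abs_sum_le_sum_abs _ _
        _ ≤ ∑ _k : Fin 4, |r| * η := by
            refine Finset.sum_le_sum fun k _ => ?_
            rw [abs_mul, inv_entry (hΓ hγ).1]
            have h3 := (hγr k i).trans (le_abs_self r)
            have h4 := (hclose k j).le
            exact mul_le_mul h3 h4 (abs_nonneg _) hr0
        _ = 4 * |r| * η := by simp; ring
        _ < ε := by
            rw [hη]
            have : 4 * |r| * (ε / (8 * (|r| + 1))) = ε * (4 * |r| / (8 * (|r| + 1))) := by ring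
            rw [this]
            have h5 : 4 * |r| / (8 * (|r| + 1)) < 1 := by
              rw [div_lt_one (by positivity)]; linarith
            nlinarith
    exact (inv_mul_eq_one.mp h1)

/-- Only finitely many elements of a discrete group move `x` to height at most `r`. -/
theorem finite_of_height {Γ : Subgroup G} (hΓ : Γ ≤ IsomH3) (h : Disc Γ) {x : V} (hx : x ∈ H3)
    (r : ℝ) : {γ : G | γ ∈ Γ ∧ act γ x 0 ≤ r}.Finite := by
  apply (finite_of_entries hΓ h (4 * x 0 * r)).subset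
  rintro γ ⟨hγ, hγr⟩
  refine ⟨hγ, fun i j => (entry_le (hΓ hγ) hx i j).trans ?_⟩
  have := hx.2
  gcongr

/-- An element of a discrete group which fixes a timelike vector has finite order. -/
theorem finite_order {Γ : Subgroup G} (hΓ : Γ ≤ IsomH3) (h : Disc Γ) {p : G} (hp : p ∈ Γ)
    {x : V} (hx : B x x < 0) (hpx : act p x = x) : ∃ k : ℕ, 0 < k ∧ p ^ k = 1 := by
  obtain ⟨c, hc⟩ : ∃ c : ℝ, c • x ∈ H3 := by
    have hx0 : x 0 ≠ 0 := by
      intro h0
      unfold B at hx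
      rw [h0] at hx
      nlinarith [sq_nonneg (x 1), sq_nonneg (x 2), sq_nonneg (x 3)]
    set s := √(-B x x) with hs
    have hs2 : s ^ 2 = - B x x := Real.sq_sqrt (by linarith)
    have hspos : 0 < s := Real.sqrt_pos.mpr (by linarith)
    rcases lt_or_gt_of_ne hx0 with h0 | h0
    · refine ⟨-1 / s, ?_, ?_⟩
      · rw [B_smul_left, B_smul_right]
        have : B x x = - s ^ 2 := by linarith
        rw [this]; field_simp
      · simp only [Pi.smul_apply, smul_eq_mul]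
        have : -1 / s * x 0 = (-x 0) / s := by ring
        rw [this]
        exact div_pos (by linarith) hspos
    · refine ⟨1 / s, ?_, ?_⟩
      · rw [B_smul_left, B_smul_right]
        have : B x x = - s ^ 2 := by linarith
        rw [this]; field_simp
      · simp only [Pi.smul_apply, smul_eq_mul]
        positivity
  have hpc : ∀ k : ℕ, act (p ^ k) (c • x) = c • x := by
    intro k
    induction k with
    | zero => simp
    | succ k ih => rw [pow_succ, act_mul, act_smul, hpx, ih]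
  have hfin := finite_of_height hΓ h hc ((c • x) 0)
  have hmem : ∀ k : ℕ, p ^ k ∈ {γ : G | γ ∈ Γ ∧ act γ (c • x) 0 ≤ (c • x) 0} := by
    intro k
    exact ⟨Γ.pow_mem hp k, by rw [hpc]⟩
  have := hfin.to_subtype
  obtain ⟨i, j, hij, he'⟩ := Finite.exists_ne_map_eq_of_infinite
    (fun k : ℕ => (⟨p ^ k, hmem k⟩ : {γ : G | γ ∈ Γ ∧ act γ (c • x) 0 ≤ (c • x) 0}))
  have he : p ^ i = p ^ j := congrArg Subtype.val he'
  clear he'
  wlog hlt : i < j generalizing i j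
  · exact this j i hij.symm he.symm (by omega)
  refine ⟨j - i, by omega, ?_⟩
  rw [pow_sub p hlt.le, he]; simp

/-- Conjugate form of `Cobdd`: a group containing a cobounded one is cobounded. -/
theorem Cobdd.mono {Γ Δ : Subgroup G} (h : Cobdd Γ) (hle : Γ ≤ Δ) : Cobdd Δ := by
  obtain ⟨r, hr⟩ := h
  exact ⟨r, fun x hx => by obtain ⟨γ, hγ, h⟩ := hr x hx; exact ⟨γ, hle hγ, h⟩⟩

/-- In a cobounded subgroup `Γ` of a discrete group `M`, every element of `M` has, for every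
`h ∈ M`, a power `h ^ k`, `k ≥ 1`, with `g h^k g⁻¹ ∈ Γ`. -/
theorem exists_pow_conj_mem {Γ M : Subgroup G} (hΓM : Γ ≤ M) (hM : M ≤ IsomH3) (hd : Disc M)
    (hc : Cobdd Γ) {g h : G} (hg : g ∈ M) (hh : h ∈ M) :
    ∃ k : ℕ, 0 < k ∧ g * h ^ k * g⁻¹ ∈ Γ := by
  obtain ⟨r, hr⟩ := hc
  have hch : ∀ j : ℕ, ∃ γ ∈ Γ, act γ (act (g * h ^ j) ![1, 0, 0, 0]) 0 ≤ r := by
    intro j
    exact hr _ ((hM (M.mul_mem hg (M.pow_mem hh j))).2 _ e0_mem)
  choose γ hγ hγr using hch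
  have hfin := finite_of_height hM hd e0_mem r
  have hmem : ∀ j : ℕ, γ j * (g * h ^ j) ∈ {γ : G | γ ∈ M ∧ act γ ![1, 0, 0, 0] 0 ≤ r} := by
    intro j
    refine ⟨M.mul_mem (hΓM (hγ j)) (M.mul_mem hg (M.pow_mem hh j)), ?_⟩
    rw [act_mul]; exact hγr j
  have := hfin.to_subtype
  obtain ⟨i, j, hij, he'⟩ := Finite.exists_ne_map_eq_of_infinite
    (fun k : ℕ => (⟨γ k * (g * h ^ k), hmem k⟩ : {γ : G | γ ∈ M ∧ act γ ![1, 0, 0, 0] 0 ≤ r}))
  have he : γ i * (g * h ^ i) = γ j * (g * h ^ j) := congrArg Subtype.val he'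
  clear he'
  wlog hlt : i < j generalizing i j
  · exact this j i hij.symm he.symm (by omega)
  refine ⟨j - i, by omega, ?_⟩
  have e : g * h ^ (j - i) * g⁻¹ = (γ j)⁻¹ * γ i := by
    have e1 : γ i * g = γ j * g * h ^ (j - i) := by
      have : γ i * g * h ^ i = γ j * g * h ^ (j - i) * h ^ i := by
        rw [mul_assoc, he, mul_assoc (γ j * g), ← pow_add, Nat.sub_add_cancel hlt.le, mul_assoc]
      exact mul_right_cancel this
    have e2 : (γ j)⁻¹ * γ i = (γ j)⁻¹ * (γ i * g) * g⁻¹ := by group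
    rw [e2, e1]; group
  rw [e]
  exact Γ.mul_mem (Γ.inv_mem (hγ j)) (hγ i)

end QA61
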