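import Pool.Agent.QA61.Basic

/-!
# Tits' theorem for a group generated by reflections (Coxeter exponents 2, 3, 6, ∞)
-/

namespace QA61

open Matrix

/-! ### Alternating products -/

/-- The alternating product `a * b * a * ⋯` with `k` factors. -/
def alt (a b : G) : ℕ → G
  | 0 => 1
  | k + 1 => a * alt b a k

theorem alt_zero (a b : G) : alt a b 0 = 1 := rfl

theorem alt_succ (a b : G) (k : ℕ) : alt a b (k + 1) = a * alt b a k := by
  rw [alt]

/-- Splitting an alternating product. -/
theorem alt_add (a b : G) (k l : ℕ) :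
    alt a b (k + l) = alt a b k * alt a b l ∨ alt a b (k + l) = alt a b k * alt b a l := by
  induction k generalizing a b with
  | zero => left; simp [alt_zero]
  | succ k ih =>
    have e : k + 1 + l = (k + l) + 1 := by ring
    rw [e, alt_succ, alt_succ]
    rcases ih b a with h | h
    · right; rw [h, mul_assoc]
    · left; rw [h, mul_assoc]

/-- The last letter of an alternating product: `alt a b (k+1) = alt a b k * r`, and
`alt a b (k+2) = alt a b (k+1) * r'` with `{r, r'} = {a, b}`. -/
theorem alt_last (a b : G) (k : ℕ) :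
    (alt a b (k + 1) = alt a b k * a ∧ alt a b (k + 2) = alt a b (k + 1) * b) ∨
    (alt a b (k + 1) = alt a b k * b ∧ alt a b (k + 2) = alt a b (k + 1) * a) := by
  induction k generalizing a b with
  | zero => left; simp [alt_succ, alt_zero]
  | succ k ih =>
    rcases ih b a with ⟨h1, h2⟩ | ⟨h1, h2⟩
    · right
      constructor
      · rw [alt_succ a b (k + 1), h1, alt_succ a b k, mul_assoc]
      · rw [alt_succ a b (k + 2), h2, alt_succ a b (k + 1), mul_assoc]
    · left
      constructor
      · rw [alt_succ a b (k + 1), h1, alt_succ a b k, mul_assoc]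
      · rw [alt_succ a b (k + 2), h2, alt_succ a b (k + 1), mul_assoc]

/-! ### The length function -/

variable {ι : Type*}

/-- The product of the reflections in the roots of a list of indices. -/
noncomputable def wprod (e : ι → V) (l : List ι) : G := (l.map fun i => R (e i)).prod

/-- The least length of a word with product `g` (`0` if there is none). -/
noncomputable def len (e : ι → V) (g : G) : ℕ := sInf {n | ∃ l : List ι, l.length = n ∧ wprod e l = g}

/-- `g` is the product of a word. -/
def IsWord (e : ι → V) (g : G) : Prop := ∃ l : List ι, wprod e l = g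

theorem IsWord.exists_len {e : ι → V} {g : G} (h : IsWord e g) :
    ∃ l : List ι, l.length = len e g ∧ wprod e l = g := by
  obtain ⟨l, hl⟩ := h
  have : {n | ∃ l : List ι, l.length = n ∧ wprod e l = g}.Nonempty := ⟨l.length, l, rfl, hl⟩
  exact Nat.sInf_mem this

theorem len_le {e : ι → V} (l : List ι) : len e (wprod e l) ≤ l.length :=
  Nat.sInf_le ⟨l, rfl, rfl⟩

theorem isWord_one (e : ι → V) : IsWord e 1 := ⟨[], rfl⟩

theorem IsWord.mul {e : ι → V} {g : G} (h : IsWord e g) (i : ι) : IsWord e (R (e i) * g) := by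
  obtain ⟨l, hl⟩ := h
  exact ⟨i :: l, by rw [← hl]; simp [wprod]⟩

theorem IsWord.len_mul_le {e : ι → V} {g : G} (h : IsWord e g) (i : ι) :
    len e (R (e i) * g) ≤ len e g + 1 := by
  obtain ⟨l, hl, hlg⟩ := h.exists_len
  have := len_le (e := e) (i :: l)
  rw [List.length_cons, hl] at this
  have e1 : wprod e (i :: l) = R (e i) * g := by rw [← hlg]; simp [wprod]
  rwa [e1] at this

theorem IsWord.alt_mul {e : ι → V} {g : G} (h : IsWord e g) (i j : ι) (k : ℕ) :
    IsWord e (alt (R (e i)) (R (e j)) k * g) ∧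
      len e (alt (R (e i)) (R (e j)) k * g) ≤ k + len e g := by
  induction k generalizing i j with
  | zero => simpa [alt_zero] using h
  | succ k ih =>
    obtain ⟨h1, h2⟩ := ih j i
    rw [alt_succ, mul_assoc]
    refine ⟨h1.mul i, (h1.len_mul_le i).trans (by omega)⟩

theorem isWord_of_mem {e : ι → V} {g : G}
    (hg : g ∈ Subgroup.closure (Set.range fun i => R (e i))) : IsWord e g := by
  induction hg using Subgroup.closure_induction'' with
  | one => exact isWord_one e
  | mem x hx =>
    obtain ⟨i, rfl⟩ := hx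
    simpa using (isWord_one e).mul i
  | inv_mem x hx =>
    obtain ⟨i, rfl⟩ := hx
    simpa using (isWord_one e).mul i
  | mul x y hx hy hx' hy' =>
    obtain ⟨l, rfl⟩ := hx'
    obtain ⟨l', rfl⟩ := hy'
    exact ⟨l ++ l', by simp [wprod]⟩

/-! ### Rank two -/

theorem act_R2 {e : V} (he : B e e = 2) (x : V) : act (R e) x = x - B x e • e := by
  rw [act_R, he]; congr 2; ring

theorem B_R_self {e : V} (he : B e e = 2) (x : V) : B (act (R e) x) e = - B x e := by
  rw [act_R2 he, B_sub_left, B_smul_left, he]; ring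

theorem B_R_other {e f : V} (he : B e e = 2) (x : V) :
    B (act (R e) x) f = B x f - B x e * B e f := by
  rw [act_R2 he, B_sub_left, B_smul_left]

/-- The recurrence for the products of an alternating translate. -/
theorem B_alt_succ_succ {s t : V} (hs : B s s = 2) (ht : B t t = 2) (y : V) (k : ℕ) :
    B (act (alt (R t) (R s) (k + 2)) y) s =
      - B s t * B (act (alt (R s) (R t) (k + 1)) y) t - B (act (alt (R t) (R s) k) y) s := by
  rw [alt_succ, act_mul, B_R_other ht, B_comm t s]
  have : B (act (alt (R s) (R t) (k + 1)) y) s = - B (act (alt (R t) (R s) k) y) s := by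
    rw [alt_succ, act_mul, B_R_self hs]
  rw [this]; ring

theorem B_alt_one {s t : V} (ht : B t t = 2) (y : V) :
    B (act (alt (R t) (R s) 1) y) s = B y s - B s t * B y t := by
  rw [alt_succ, alt_zero, mul_one, B_R_other ht, B_comm t s]; ring

theorem B_alt_zero (s t y : V) : B (act (alt (R t) (R s) 0) y) s = B y s := by
  rw [alt_zero, act_one]

/-- The case of exponent `∞`. -/
theorem alt_neg_inf {s t : V} (hs : B s s = 2) (ht : B t t = 2) (hst : B s t ≤ -2) (y : V)
    (ha : B y s < 0) (hb : B y t < 0) (k : ℕ) :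
    (B (act (alt (R t) (R s) (k + 1)) y) s ≤ B (act (alt (R s) (R t) k) y) t ∧
      B (act (alt (R s) (R t) (k + 1)) y) t ≤ B (act (alt (R t) (R s) k) y) s) ∧
    (B (act (alt (R t) (R s) k) y) s < 0 ∧ B (act (alt (R s) (R t) k) y) t < 0) := by
  induction k with
  | zero =>
    rw [B_alt_one ht, B_alt_one hs, B_alt_zero, B_alt_zero, B_comm t s]
    refine ⟨⟨?_, ?_⟩, ha, hb⟩ <;> nlinarith
  | succ k ih =>
    obtain ⟨⟨h1, h2⟩, h3, h4⟩ := ih
    rw [B_alt_succ_succ hs ht, B_alt_succ_succ ht hs, B_comm t s]
    refine ⟨⟨?_, ?_⟩, by linarith, by linarith⟩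
    · nlinarith
    · nlinarith

/-- A reflection applied to `x + λ s + μ t`. -/
theorem act_comb_left {s t : V} (hs : B s s = 2) (x : V) (l m : ℝ) :
    act (R s) (x + l • s + m • t) = x + (- l - m * B s t - B x s) • s + m • t := by
  rw [act_R2 hs, B_add_left, B_add_left, B_smul_left, B_smul_left, hs, B_comm t s]
  module

theorem act_comb_right {s t : V} (ht : B t t = 2) (x : V) (l m : ℝ) :
    act (R t) (x + l • s + m • t) = x + l • s + (- m - l * B s t - B x t) • t := by
  rw [act_R2 ht, B_add_left, B_add_left, B_smul_left, B_smul_left, ht]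
  module

theorem braid_two {s t : V} (hs : B s s = 2) (ht : B t t = 2) (hst : B s t = 0) :
    alt (R t) (R s) 2 = alt (R s) (R t) 2 := by
  apply act_ext
  intro x
  have e0 : x = x + (0 : ℝ) • s + (0 : ℝ) • t := by module
  simp only [alt_succ, alt_zero, act_mul, act_one]
  rw [e0]
  simp only [act_comb_left hs, act_comb_right ht, hst]
  module

theorem braid_three {s t : V} (hs : B s s = 2) (ht : B t t = 2) (hst : B s t = -1) :
    alt (R t) (R s) 3 = alt (R s) (R t) 3 := by
  apply act_ext
  intro x
  have e0 : x = x + (0 : ℝ) • s + (0 : ℝ) • t := by module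
  simp only [alt_succ, alt_zero, act_mul, act_one]
  rw [e0]
  simp only [act_comb_left hs, act_comb_right ht, hst]
  module

theorem braid_six {s t : V} (hs : B s s = 2) (ht : B t t = 2) (hst : B s t = -√3) :
    alt (R t) (R s) 6 = alt (R s) (R t) 6 := by
  have h3 : √3 * √3 = (3 : ℝ) := Real.mul_self_sqrt (by norm_num)
  apply act_ext
  intro x
  have e0 : x = x + (0 : ℝ) • s + (0 : ℝ) • t := by module
  simp only [alt_succ, alt_zero, act_mul, act_one]
  rw [e0]
  simp only [act_comb_left hs, act_comb_right ht, hst]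
  congr 1
  · congr 2
    generalize √3 = r at h3
    linear_combination (r * (r ^ 2 - 1) * B x t) * h3
  · congr 1
    generalize √3 = r at h3
    linear_combination (-(r * (r ^ 2 - 1) * B x s)) * h3

/-- The dihedral alternative. -/
theorem dihedral {s t : V} (hs : B s s = 2) (ht : B t t = 2)
    (hp : B s t = 0 ∨ B s t = -1 ∨ B s t = -√3 ∨ B s t ≤ -2) (y : V)
    (ha : B y s < 0) (hb : B y t < 0) :
    (∀ k, B (act (alt (R t) (R s) k) y) s < 0) ∨
    ∃ m, 1 ≤ m ∧ (∀ k < m, B (act (alt (R t) (R s) k) y) s < 0) ∧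
      0 < B (act (alt (R t) (R s) m) y) s ∧ alt (R t) (R s) m = alt (R s) (R t) m := by
  have h3 : √3 * √3 = (3 : ℝ) := Real.mul_self_sqrt (by norm_num)
  have h30 : 0 < √3 := Real.sqrt_pos.mpr (by norm_num)
  have A0 := B_alt_zero s t y
  have A0' := B_alt_zero t s y
  have A1 := B_alt_one (s := s) ht y
  have A1' := B_alt_one (s := t) hs y
  have A2 := B_alt_succ_succ hs ht y 0
  have A2' := B_alt_succ_succ ht hs y 0
  have A3 := B_alt_succ_succ hs ht y 1
  have A3' := B_alt_succ_succ ht hs y 1
  have A4 := B_alt_succ_succ hs ht y 2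
  have A4' := B_alt_succ_succ ht hs y 2
  have A5 := B_alt_succ_succ hs ht y 3
  have A5' := B_alt_succ_succ ht hs y 3
  have A6 := B_alt_succ_succ hs ht y 4
  norm_num at A2 A2' A3 A3' A4 A4' A5 A5' A6
  rw [B_comm t s] at A1' A2' A3' A4' A5'
  rcases hp with h | h | h | h
  · right
    refine ⟨2, by norm_num, ?_, ?_, braid_two hs ht h⟩
    · intro k hk
      interval_cases k
      · rw [A0]; exact ha
      · rw [A1, h]; linarith
    · rw [A2, h, A0]; linarith
  · right
    refine ⟨3, by norm_num, ?_, ?_, braid_three hs ht h⟩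
    · intro k hk
      interval_cases k
      · rw [A0]; exact ha
      · rw [A1, h]; linarith
      · rw [A2, A1', A0, h]; linarith
    · rw [A3, A2', A1, A0', h]; linarith
  · right
    have hbraid := braid_six hs ht h
    rw [h] at A1 A1' A2 A2' A3 A3' A4 A4' A5 A5' A6
    generalize √3 = r at *
    have e1 : B (act (alt (R t) (R s) 2) y) s = 2 * B y s + r * B y t := by
      rw [A2, A1', A0]; linear_combination B y s * h3
    have e1' : B (act (alt (R s) (R t) 2) y) t = 2 * B y t + r * B y s := by
      rw [A2', A1, A0']; linear_combination B y t * h3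
    have e2 : B (act (alt (R t) (R s) 3) y) s = 2 * B y s + r * B y t := by
      rw [A3, e1', A1]; linear_combination B y s * h3
    have e2' : B (act (alt (R s) (R t) 3) y) t = 2 * B y t + r * B y s := by
      rw [A3', e1, A1']; linear_combination B y t * h3
    have e3 : B (act (alt (R t) (R s) 4) y) s = B y s + r * B y t := by
      rw [A4, e2', e1]; linear_combination B y s * h3
    have e3' : B (act (alt (R s) (R t) 4) y) t = B y t + r * B y s := by
      rw [A4', e2, e1']; linear_combination B y t * h3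
    have e4 : B (act (alt (R t) (R s) 5) y) s = B y s := by
      rw [A5, e3', e2]; linear_combination B y s * h3
    have e4' : B (act (alt (R s) (R t) 5) y) t = B y t := by
      rw [A5', e3, e2']; linear_combination B y t * h3
    have e5 : B (act (alt (R t) (R s) 6) y) s = - B y s := by
      rw [A6, e4', e3]; ring
    refine ⟨6, by norm_num, ?_, ?_, ?_⟩
    · intro k hk
      have hrb : r * B y t < 0 := mul_neg_of_pos_of_neg h30 hb
      interval_cases k
      · rw [A0]; exact ha
      · rw [A1]; linarith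
      · rw [e1]; linarith
      · rw [e2]; linarith
      · rw [e3]; linarith
      · rw [e4]; exact ha
    · rw [e5]; linarith
    · exact hbraid
  · left
    intro k
    exact (alt_neg_inf hs ht h y ha hb k).2.1

/-! ### The main induction -/

/-- **Tits.** The product `B (g x0) (e s)` is never zero, and it is positive only if the
reflection in `e s` shortens `g`. -/
theorem tits_aux (e : ι → V) (x0 : V)
    (hn : ∀ i, B (e i) (e i) = 2)
    (hp : ∀ i j, i ≠ j →
      B (e i) (e j) = 0 ∨ B (e i) (e j) = -1 ∨ B (e i) (e j) = -√3 ∨ B (e i) (e j) ≤ -2)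
    (hx : ∀ i, B x0 (e i) < 0) (n : ℕ) :
    ∀ g : G, IsWord e g → len e g = n → ∀ s, B (act g x0) (e s) < 0 ∨
      (0 < B (act g x0) (e s) ∧ len e (R (e s) * g) < len e g) := by
  induction n using Nat.strong_induction_on with
  | _ n ih =>
  intro g hg hgn s
  obtain ⟨l, hl, hlg⟩ := hg.exists_len
  rcases l with _ | ⟨t, l'⟩
  · -- g = 1
    left
    have : g = 1 := by rw [← hlg]; simp [wprod]
    rw [this, act_one]; exact hx s
  -- g = R t * g'
  set g' := wprod e l' with hg'
  have hgg' : g = R (e t) * g' := by rw [← hlg, hg']; simp [wprod]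
  have hw' : IsWord e g' := ⟨l', rfl⟩
  have hlen1 : len e g = len e g' + 1 := by
    apply le_antisymm
    · rw [hgg']; exact hw'.len_mul_le t
    · rw [← hl, List.length_cons]
      have : len e g' ≤ l'.length := len_le (e := e) l'
      omega
  have hRg : R (e t) * g = g' := by
    rw [hgg', ← mul_assoc, R_mul_self, one_mul]
  rcases eq_or_ne s t with hst | hst
  · subst hst
    rcases ih (len e g') (by omega) g' hw' rfl s with h | ⟨h, h'⟩
    · right
      refine ⟨?_, ?_⟩
      · rw [hgg', act_mul, B_R_self (hn s)]; linarith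
      · rw [hRg]; omega
    · rw [← hgg'] at h'; omega
  -- s ≠ t
  let K : ℕ → Prop := fun k => ∃ g'' : G, IsWord e g'' ∧
    g = alt (R (e t)) (R (e s)) k * g'' ∧ len e g = k + len e g''
  have hK1 : K 1 := ⟨g', hw', by rw [hgg', alt_succ, alt_zero, mul_one], by omega⟩
  have hKb : ∀ k, K k → k ≤ n := by
    rintro k ⟨g'', -, -, h⟩
    omega
  obtain ⟨k, hKk, hk1, hmax⟩ : ∃ k, K k ∧ 1 ≤ k ∧ ¬ K (k + 1) := by
    classical
    have hn1 : 1 ≤ n := hKb 1 hK1
    refine ⟨Nat.findGreatest K n, Nat.findGreatest_spec hn1 hK1,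
      Nat.le_findGreatest hn1 hK1, ?_⟩
    intro h
    have := Nat.le_findGreatest (hKb _ h) h
    omega
  obtain ⟨g'', hw'', hg'', hlen⟩ := hKk
  -- neither reflection shortens g''
  have hnext : ∀ r : ι, alt (R (e t)) (R (e s)) (k + 1) = alt (R (e t)) (R (e s)) k * R (e r) →
      ¬ len e (R (e r) * g'') < len e g'' := by
    intro r hr hlt
    apply hmax
    refine ⟨R (e r) * g'', hw''.mul r, ?_, ?_⟩
    · rw [hr, hg'']
      rw [mul_assoc, ← mul_assoc (R (e r)), R_mul_self, one_mul]
    · have h1 := (hw''.mul r).len_mul_le r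
      rw [← mul_assoc, R_mul_self, one_mul] at h1
      omega
  have hprev : ∀ r : ι, alt (R (e t)) (R (e s)) k = alt (R (e t)) (R (e s)) (k - 1) * R (e r) →
      ¬ len e (R (e r) * g'') < len e g'' := by
    intro r hr hlt
    have h1 := ((hw''.mul r).alt_mul t s (k - 1)).2
    rw [← mul_assoc, ← hr, ← hg''] at h1
    omega
  have hboth : ¬ len e (R (e s) * g'') < len e g'' ∧ ¬ len e (R (e t) * g'') < len e g'' := by
    obtain ⟨j, rfl⟩ : ∃ j, k = j + 1 := ⟨k - 1, by omega⟩
    rcases alt_last (R (e t)) (R (e s)) j with ⟨h1, h2⟩ | ⟨h1, h2⟩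
    · exact ⟨hnext s h2, hprev t (by simpa using h1)⟩
    · exact ⟨hprev s (by simpa using h1), hnext t h2⟩
  have hys : B (act g'' x0) (e s) < 0 := by
    rcases ih (len e g'') (by omega) g'' hw'' rfl s with h | ⟨-, h⟩
    · exact h
    · exact absurd h hboth.1
  have hyt : B (act g'' x0) (e t) < 0 := by
    rcases ih (len e g'') (by omega) g'' hw'' rfl t with h | ⟨-, h⟩
    · exact h
    · exact absurd h hboth.2
  have hgact : act g x0 = act (alt (R (e t)) (R (e s)) k) (act g'' x0) := by
    rw [← act_mul, ← hg'']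
  rcases dihedral (hn s) (hn t) (hp s t hst) (act g'' x0) hys hyt with h | ⟨m, hm1, hm, hm0, hbr⟩
  · left; rw [hgact]; exact h k
  · rcases lt_trichotomy k m with hkm | hkm | hkm
    · left; rw [hgact]; exact hm k hkm
    · right
      rw [hkm] at hg'' hgact hlen
      refine ⟨by rw [hgact]; exact hm0, ?_⟩
      obtain ⟨j, rfl⟩ : ∃ j, m = j + 1 := ⟨m - 1, by omega⟩
      have e1 : R (e s) * g = alt (R (e t)) (R (e s)) j * g'' := by
        rw [hg'', hbr, alt_succ, ← mul_assoc, ← mul_assoc, R_mul_self, one_mul]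
      rw [e1]
      have := (hw''.alt_mul t s j).2
      omega
    · exfalso
      -- k > m: the word is not reduced
      obtain ⟨j, rfl⟩ : ∃ j, m = j + 1 := ⟨m - 1, by omega⟩
      obtain ⟨i, hi⟩ : ∃ i, k = i + (j + 2) := ⟨k - (j + 2), by omega⟩
      have e1 : alt (R (e t)) (R (e s)) (j + 2) = alt (R (e s)) (R (e t)) j := by
        rw [alt_succ, ← hbr, alt_succ, ← mul_assoc, R_mul_self, one_mul]
      have e2 : alt (R (e s)) (R (e t)) (j + 2) = alt (R (e t)) (R (e s)) j := by
        rw [alt_succ, hbr, alt_succ, ← mul_assoc, R_mul_self, one_mul]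
      have e3 : ∃ r r' : ι, alt (R (e t)) (R (e s)) k =
          alt (R (e t)) (R (e s)) i * alt (R (e r)) (R (e r')) j := by
        rw [hi]
        rcases alt_add (R (e t)) (R (e s)) i (j + 2) with h | h
        · exact ⟨s, t, by rw [h, e1]⟩
        · exact ⟨t, s, by rw [h, e2]⟩
      obtain ⟨r, r', h⟩ := e3
      rw [h, mul_assoc] at hg''
      obtain ⟨h1, h2⟩ := hw''.alt_mul r r' j
      have h3 := (h1.alt_mul t s i).2
      rw [← hg''] at h3
      omega

/-- **Tits.** Let `e i` be vectors of norm `2` whose pairwise products are `0, -1, -√3` or `≤ -2`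
and `x0` a vector with `B x0 (e i) < 0` for all `i`. If `g ≠ 1` is in the group generated by the
reflections `R (e i)`, then `0 < B (g x0) (e i)` for some `i`. -/
theorem tits {ι : Type*} (e : ι → V) (x0 : V)
    (hn : ∀ i, B (e i) (e i) = 2)
    (hp : ∀ i j, i ≠ j →
      B (e i) (e j) = 0 ∨ B (e i) (e j) = -1 ∨ B (e i) (e j) = -√3 ∨ B (e i) (e j) ≤ -2)
    (hx : ∀ i, B x0 (e i) < 0)
    {g : G} (hg : g ∈ Subgroup.closure (Set.range fun i => R (e i))) (hg1 : g ≠ 1) :
    ∃ i, 0 < B (act g x0) (e i) := by
  have hw := isWord_of_mem hg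
  obtain ⟨l, hl, hlg⟩ := hw.exists_len
  rcases l with _ | ⟨t, l'⟩
  · exact absurd (by rw [← hlg]; simp [wprod]) hg1
  refine ⟨t, ?_⟩
  have hgg' : g = R (e t) * wprod e l' := by rw [← hlg]; simp [wprod]
  have hw' : IsWord e (wprod e l') := ⟨l', rfl⟩
  have hlen1 : l'.length + 1 = len e g := by rw [← hl, List.length_cons]
  have h1 : len e (wprod e l') ≤ l'.length := len_le (e := e) l'
  rcases tits_aux e x0 hn hp hx _ _ hw' rfl t with h | ⟨-, h'⟩
  · rw [hgg', act_mul, B_R_self (hn t)]; linarith
  · rw [← hgg'] at h'; omega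

end QA61
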