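import Pool.Agent.QA61.Faces
import Pool.Agent.QA61.Tits

/-!
# The groups `Gam n`: discreteness, covering, cocompactness
-/

namespace QA61

open Matrix

/-- The group generated by the reflections in the faces of `P_{n+1}`. -/
noncomputable def Gam (n : ℕ) : Subgroup G := Subgroup.closure (Set.range fun i => R (face n i))

theorem R_face_mem (n : ℕ) (i : Fin 3 ⊕ Fin (n + 3) ⊕ Fin (n + 1)) : R (face n i) ∈ Gam n :=
  Subgroup.subset_closure ⟨i, rfl⟩

theorem Gam_le (n : ℕ) : Gam n ≤ IsomH3 := by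
  rw [Gam, Subgroup.closure_le]
  rintro _ ⟨i, rfl⟩
  exact R_mem (face_pos n i)

theorem R_smul {c : ℝ} (hc : c ≠ 0) (e : V) : R (c • e) = R e := by
  apply act_ext
  intro x
  rw [act_R, act_R, B_smul_right, B_smul_right, B_smul_left, smul_smul]
  congr 2
  rcases eq_or_ne (B e e) 0 with h | h
  · simp [h]
  · field_simp

/-- Normalised roots satisfy Tits' conditions. -/
theorem norm_pair {x y : V} (hx : 0 < B x x) (hy : 0 < B y y) (h : Good x y) :
    B (√(2 / B x x) • x) (√(2 / B y y) • y) = 0 ∨ B (√(2 / B x x) • x) (√(2 / B y y) • y) = -1 ∨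
    B (√(2 / B x x) • x) (√(2 / B y y) • y) = -√3 ∨
    B (√(2 / B x x) • x) (√(2 / B y y) • y) ≤ -2 := by
  rw [B_smul_left, B_smul_right]
  set p := √(2 / B x x) with hp
  set q := √(2 / B y y) with hq
  have hp2 : p ^ 2 = 2 / B x x := Real.sq_sqrt (by positivity)
  have hq2 : q ^ 2 = 2 / B y y := Real.sq_sqrt (by positivity)
  have hp0 : 0 ≤ p := Real.sqrt_nonneg _
  have hq0 : 0 ≤ q := Real.sqrt_nonneg _
  obtain ⟨h0, h⟩ := h
  set t := p * (q * B x y) with ht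
  have ht0 : t ≤ 0 := by
    rw [ht]
    have : 0 ≤ p * q * (-B x y) := by
      apply mul_nonneg (mul_nonneg hp0 hq0); linarith
    linarith
  have ht2 : t ^ 2 * (B x x * B y y) = 4 * B x y ^ 2 := by
    rw [ht]
    have : (p * (q * B x y)) ^ 2 = p ^ 2 * q ^ 2 * B x y ^ 2 := by ring
    rw [this, hp2, hq2]
    field_simp; ring
  have hpos : 0 < B x x * B y y := mul_pos hx hy
  rcases h with h | h | h | h
  · left; rw [ht, h]; ring
  · right; left
    have : t ^ 2 = 1 := by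
      have : (t ^ 2 - 1) * (B x x * B y y) = 0 := by linarith
      rcases mul_eq_zero.mp this with h' | h'
      · linarith
      · linarith
    nlinarith
  · right; right; left
    have : t ^ 2 = 3 := by
      have : (t ^ 2 - 3) * (B x x * B y y) = 0 := by linarith
      rcases mul_eq_zero.mp this with h' | h'
      · linarith
      · linarith
    have h3 : √3 = -t := by
      rw [← this, Real.sqrt_sq_eq_abs, abs_of_nonpos ht0]
    rw [h3]; ring
  · right; right; right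
    have : 4 ≤ t ^ 2 := by
      by_contra hlt
      push Not at hlt
      nlinarith
    nlinarith

/-- Tits' theorem for `Gam n`. -/
theorem tits_Gam (n : ℕ) {g : G} (hg : g ∈ Gam n) (hg1 : g ≠ 1) :
    ∃ i, 0 < B (act g x0) (face n i) := by
  have hc : ∀ i, 0 < √(2 / B (face n i) (face n i)) := fun i =>
    Real.sqrt_pos.mpr (div_pos two_pos (face_pos n i))
  have hR : ∀ i, R (√(2 / B (face n i) (face n i)) • face n i) = R (face n i) := fun i =>
    R_smul (hc i).ne' _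
  have hg' : g ∈ Subgroup.closure (Set.range fun i =>
      R (√(2 / B (face n i) (face n i)) • face n i)) := by
    simp only [hR]; exact hg
  have H1 : ∀ i, B (√(2 / B (face n i) (face n i)) • face n i)
      (√(2 / B (face n i) (face n i)) • face n i) = 2 := by
    intro i
    rw [B_smul_left, B_smul_right, ← mul_assoc, Real.mul_self_sqrt
      (div_nonneg zero_le_two (face_pos n i).le)]
    have := face_pos n i
    field_simp
  have H3 : ∀ i, B x0 (√(2 / B (face n i) (face n i)) • face n i) < 0 := by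
    intro i
    rw [B_smul_right]
    exact mul_neg_of_pos_of_neg (hc i) (x0_face n i)
  obtain ⟨i, hi⟩ := tits (fun i => √(2 / B (face n i) (face n i)) • face n i) x0 H1
    (fun i j hij => norm_pair (face_pos n i) (face_pos n j) (good_face n i j hij)) H3 hg' hg1
  refine ⟨i, ?_⟩
  rw [B_smul_right] at hi
  exact (mul_pos_iff_of_pos_left (hc i)).mp hi

/-- A neighbourhood of `1` contains an entrywise ball. -/
theorem exists_eps {S : Set (Matrix (Fin 4) (Fin 4) ℝ)} (hS : S ∈ nhds 1) :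
    ∃ ε > 0, ∀ m : Matrix (Fin 4) (Fin 4) ℝ,
      (∀ i j, |m i j - (1 : Matrix (Fin 4) (Fin 4) ℝ) i j| < ε) → m ∈ S := by
  have h3 : ∃ ε > 0, @Metric.ball (Fin 4 → Fin 4 → ℝ) _
      (1 : Matrix (Fin 4) (Fin 4) ℝ) ε ⊆ S := by
    exact (@Metric.mem_nhds_iff (Fin 4 → Fin 4 → ℝ) _ (1 : Matrix (Fin 4) (Fin 4) ℝ) S).mp hS
  obtain ⟨ε, hε, hε2⟩ := h3
  refine ⟨ε, hε, fun m hm => ?_⟩
  have h4 : ∀ m : Fin 4 → Fin 4 → ℝ, (∀ i j, |m i j - (1 : Matrix (Fin 4) (Fin 4) ℝ) i j| < ε) →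
      m ∈ @Metric.ball (Fin 4 → Fin 4 → ℝ) _ (1 : Matrix (Fin 4) (Fin 4) ℝ) ε := by
    intro m hm
    rw [Metric.mem_ball, dist_pi_lt_iff hε]
    intro i
    rw [dist_pi_lt_iff hε]
    intro j
    rw [Real.dist_eq]
    exact hm i j
  exact hε2 (h4 m hm)

theorem Gam_disc (n : ℕ) : Disc (Gam n) := by
  have hS : (⋂ i, {m : Matrix (Fin 4) (Fin 4) ℝ | B (m *ᵥ x0) (face n i) < 0}) ∈
      nhds (1 : Matrix (Fin 4) (Fin 4) ℝ) := by
    refine (isOpen_iInter_of_finite fun i => ?_).mem_nhds ?_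
    · refine isOpen_lt ?_ continuous_const
      unfold B
      have h1 : ∀ j, Continuous fun m : Matrix (Fin 4) (Fin 4) ℝ => (m *ᵥ x0) j := by
        intro j
        have : Continuous fun m : Matrix (Fin 4) (Fin 4) ℝ => m *ᵥ x0 :=
          Continuous.matrix_mulVec continuous_id continuous_const
        exact (continuous_apply j).comp this
      have h10 := h1 0
      have h11 := h1 1
      have h12 := h1 2
      have h13 := h1 3
      fun_prop
    · simp only [Set.mem_iInter, Set.mem_ofPred_eq, Matrix.one_mulVec]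
      exact x0_face n
  obtain ⟨ε, hε, h⟩ := exists_eps hS
  refine ⟨ε, hε, fun γ hγ hγε => ?_⟩
  by_contra hne
  obtain ⟨i, hi⟩ := tits_Gam n hγ hne
  have := h _ hγε
  simp only [Set.mem_iInter, Set.mem_ofPred_eq] at this
  exact absurd (this i) (not_lt.mpr hi.le)

/-- Comparison of the height with the product with a timelike vector. -/
theorem height_le {x p : V} (hx : x ∈ H3) (hp : B p p < 0) (hp0 : 0 < p 0) :
    x 0 ≤ 2 * p 0 / (-B p p) * (-B x p) := by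
  have hN : 0 < -B p p := by linarith
  set N := -B p p with hNdef
  have hB : B p p = -N := by linarith
  have e0 := e0_mem
  have he : ∀ y : V, B y ![1, 0, 0, 0] = - y 0 := by intro y; simp [B]
  have h1 : B ((2 * p 0 / N) • p - ![1, 0, 0, 0]) ((2 * p 0 / N) • p - ![1, 0, 0, 0]) = -1 := by
    rw [B_sub_left, B_sub_right, B_sub_right, B_smul_left, B_smul_left, B_smul_right, hB,
      B_comm ![1, 0, 0, 0], B_smul_left, he, e0.1]
    field_simp; ring
  have hp2 : N ≤ p 0 ^ 2 := by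
    rw [hNdef]; unfold B
    nlinarith [sq_nonneg (p 1), sq_nonneg (p 2), sq_nonneg (p 3)]
  have h2 : 0 < ((2 * p 0 / N) • p - ![1, 0, 0, 0] : V) 0 := by
    simp only [Pi.sub_apply, Pi.smul_apply, smul_eq_mul]
    simp
    have : 2 * p 0 / N * p 0 = 2 * (p 0 ^ 2 / N) := by ring
    rw [this]
    have : 1 ≤ p 0 ^ 2 / N := by rw [le_div_iff₀ hN]; linarith
    linarith
  have h3 := B_neg_of_pos (x := x) (by rw [hx.1]; norm_num) hx.2 (by rw [h1]; norm_num) h2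
  rw [B_sub_right, he, B_smul_right] at h3
  have : 2 * p 0 / N * (-B x p) = -(2 * p 0 / N * B x p) := by ring
  rw [this]; linarith

/-- The translates of the polytope cover `ℍ³`. -/
theorem cover (n : ℕ) {x : V} (hx : x ∈ H3) :
    ∃ γ ∈ Gam n, ∀ i, B (act γ x) (face n i) ≤ 0 := by
  set S := {γ : G | γ ∈ Gam n ∧ -B (act γ x) x0 ≤ -B x x0} with hS
  have hfin : S.Finite := by
    apply (finite_of_height (Gam_le n) (Gam_disc n) hx
      (2 * x0 0 / (-B x0 x0) * (-B x x0))).subset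
    rintro γ ⟨hγ, hγx⟩
    refine ⟨hγ, (height_le ((Gam_le n hγ).2 x hx) (by rw [x0_neg]; norm_num) x0_pos).trans ?_⟩
    have h1 : 0 ≤ 2 * x0 0 / (-B x0 x0) := by
      rw [x0_neg]
      have := x0_pos
      positivity
    exact mul_le_mul_of_nonneg_left hγx h1
  have hne : S.Nonempty := ⟨1, (Gam n).one_mem, by simp⟩
  obtain ⟨γ, ⟨hγ, hγx⟩, hmin⟩ := Set.exists_min_image S (fun γ => -B (act γ x) x0) hfin hne
  refine ⟨γ, hγ, fun i => ?_⟩
  by_contra hpos
  push Not at hpos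
  have h1 : -B (act (R (face n i) * γ) x) x0 < -B (act γ x) x0 := by
    rw [act_mul, act_R, B_sub_left, B_smul_left]
    have h2 : 2 * B (act γ x) (face n i) / B (face n i) (face n i) * B (face n i) x0 < 0 := by
      apply mul_neg_of_pos_of_neg
      · exact div_pos (by linarith) (face_pos n i)
      · rw [B_comm]; exact x0_face n i
    linarith
  have h2 : R (face n i) * γ ∈ S := ⟨(Gam n).mul_mem (R_face_mem n i) hγ, by linarith⟩
  have := hmin _ h2
  linarith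

/-- The compactness certificate of the truncated simplex `P_1`. -/
theorem cert {y : V} (hy : y ∈ H3) (h1 : B y (b 2) ≤ 0) (h2 : B y (b 0) ≤ 0)
    (h3 : B y a3 ≤ 0) (h4 : B y (b 1) ≤ 0) (h5 : B y (u 0) ≤ 0) (h6 : 0 ≤ B y (u 1))
    (h7 : B y (w 0) ≤ 0) : -B y x0 ≤ 9 := by
  have h0 : B y x0 < 0 := B_neg_of_pos (by rw [hy.1]; norm_num) hy.2 (by rw [x0_neg]; norm_num)
    x0_pos
  have hyy := hy.1
  have hu1 : u 1 = L ![-7, 6, -3, -5] := by
    have h : u 1 = act (T ^ 1) (u 0) := (act_T_u 1 0).symm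
    rw [h, u0, pow_one, act_T_L]
    simp
    norm_num
  obtain ⟨z, rfl⟩ := exists_L y
  rw [b2, B_L] at h1
  rw [b0, B_L] at h2
  rw [a3, B_L] at h3
  rw [b1, B_L] at h4
  rw [u0, B_L] at h5
  rw [hu1, B_L] at h6
  rw [w0, B_L] at h7
  rw [x0, B_L] at h0 ⊢
  rw [B_L] at hyy
  simp only [Q] at h0 h1 h2 h3 h4 h5 h6 h7 hyy ⊢
  simp at h0 h1 h2 h3 h4 h5 h6 h7 ⊢
  obtain ⟨l0, hl0⟩ : ∃ l0, l0 = (2) * z 0 + (2) * z 1 + (3) * z 2 + (3) * z 3 := ⟨_, rfl⟩
  obtain ⟨l1, hl1⟩ : ∃ l1, l1 = (-2) * z 0 + (3) * z 2 + (1) * z 3 := ⟨_, rfl⟩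
  obtain ⟨l2, hl2⟩ : ∃ l2, l2 = (-2) * z 1 + (3) * z 2 + (1) * z 3 := ⟨_, rfl⟩
  obtain ⟨l3, hl3⟩ : ∃ l3, l3 = (3) * z 0 + (3) * z 1 + (-6) * z 2 + (3) * z 3 := ⟨_, rfl⟩
  obtain ⟨l4, hl4⟩ : ∃ l4, l4 = (1) * z 0 + (1) * z 1 + (3) * z 2 + (-2) * z 3 := ⟨_, rfl⟩
  obtain ⟨m1, hm1⟩ : ∃ m1, m1 = (26) * z 0 := ⟨_, rfl⟩
  obtain ⟨m2, hm2⟩ : ∃ m2, m2 = (26) * z 1 := ⟨_, rfl⟩
  obtain ⟨m4, hm4⟩ : ∃ m4, m4 = (26) * z 3 := ⟨_, rfl⟩
  have p0 : 0 < l0 := by rw [hl0]; linarith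
  have p1 : 0 ≤ l1 := by rw [hl1]; linarith
  have p2 : 0 ≤ l2 := by rw [hl2]; linarith
  have p3 : 0 ≤ l3 := by rw [hl3]; linarith
  have p4 : 0 ≤ l4 := by rw [hl4]; linarith
  have q1 : 0 ≤ m1 := by rw [hm1]; linarith
  have q2 : 0 ≤ m2 := by rw [hm2]; linarith
  have q4 : 0 ≤ m4 := by rw [hm4]; linarith
  have key : l0 * (-(2 * z 0 * z 0 + 2 * z 1 * z 1 + 6 * z 2 * z 2 + 2 * z 3 * z 3
      - 3 * (z 0 * z 2 + z 2 * z 0) - (z 0 * z 3 + z 3 * z 0) - 3 * (z 1 * z 2 + z 2 * z 1)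
      - (z 1 * z 3 + z 3 * z 1) - 3 * (z 2 * z 3 + z 3 * z 2))) = 1 / 81 * l0 ^ 3 +
      (37/1458 * (l1 * l1 * m1) + 476/729 * (l1 * l2 * l3) + 841/729 * (l1 * l2 * l4) + 164/15795 * (l1 * l2 * m2) + 1/6 * (l1 * l3 * l3) + 2227/3159 * (l1 * l3 * l4) + 7/729 * (l1 * l3 * m1) + 82/9477 * (l1 * l4 * m1) + 1/3159 * (l1 * m1 * m2) + 419/31590 * (l2 * l2 * m2) + 1/6 * (l2 * l3 * l3) + 2227/3159 * (l2 * l3 * l4) + 209/47385 * (l2 * l3 * m2) + 97/47385 * (l2 * m1 * m2) + 817/3159 * (l3 * l3 * l4) + 118/3159 * (l3 * l4 * l4) + 671/18954 * (l4 * l4 * m4) + 7/18954 * (m1 * m2 * m4)) := by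
    rw [hl0, hl1, hl2, hl3, hl4, hm1, hm2, hm4]; ring
  rw [hyy] at key
  have hnn : 0 ≤ 37/1458 * (l1 * l1 * m1) + 476/729 * (l1 * l2 * l3) + 841/729 * (l1 * l2 * l4) + 164/15795 * (l1 * l2 * m2) + 1/6 * (l1 * l3 * l3) + 2227/3159 * (l1 * l3 * l4) + 7/729 * (l1 * l3 * m1) + 82/9477 * (l1 * l4 * m1) + 1/3159 * (l1 * m1 * m2) + 419/31590 * (l2 * l2 * m2) + 1/6 * (l2 * l3 * l3) + 2227/3159 * (l2 * l3 * l4) + 209/47385 * (l2 * l3 * m2) + 97/47385 * (l2 * m1 * m2) + 817/3159 * (l3 * l3 * l4) + 118/3159 * (l3 * l4 * l4) + 671/18954 * (l4 * l4 * m4) + 7/18954 * (m1 * m2 * m4) := by positivity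
  have h81 : l0 ^ 2 ≤ 81 := by
    have h8 : l0 * (81 - l0 ^ 2) ≥ 0 := by linarith
    by_contra hlt
    push Not at hlt
    have : l0 * (81 - l0 ^ 2) < 0 := mul_neg_of_pos_of_neg p0 (by linarith)
    linarith
  have h9 : l0 ≤ 9 := by
    by_contra hlt
    push Not at hlt
    have : (9:ℝ) ^ 2 < l0 ^ 2 := by gcongr
    linarith
  rw [hl0] at h9
  linarith

/-- The polytope `P_{n+1}` is bounded. -/
theorem bounded (n : ℕ) : ∃ r : ℝ, ∀ x ∈ H3, (∀ i, B x (face n i) ≤ 0) → x 0 ≤ r := by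
  -- bound for the `k`-th copy
  have hk : ∀ k : ℕ, ∃ r : ℝ, ∀ x ∈ H3, B x (b k) ≤ 0 → B x (b (k + 1)) ≤ 0 →
      B x (b (k + 2)) ≤ 0 → B x a3 ≤ 0 → B x (w k) ≤ 0 → B x (u k) ≤ 0 → 0 ≤ B x (u (k + 1)) →
      x 0 ≤ r := by
    intro k
    refine ⟨2 * (act (T ^ k) x0) 0 / (-B (act (T ^ k) x0) (act (T ^ k) x0)) * 9, ?_⟩
    intro x hx h1 h2 h3 h4 h5 h6 h7
    have hT := Tpow_mem k
    have hTi : (T ^ k)⁻¹ ∈ IsomH3 := IsomH3.inv_mem hT
    obtain ⟨y, hy, hxy⟩ : ∃ y ∈ H3, x = act (T ^ k) y :=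
      ⟨act (T ^ k)⁻¹ x, hTi.2 x hx, by rw [act_act_inv]⟩
    subst hxy
    rw [← Nat.add_zero k, ← act_T_b k 0, Nat.add_zero, B_Tpow] at h1
    rw [← act_T_b k 1, B_Tpow] at h2
    rw [← act_T_b k 2, B_Tpow] at h3
    rw [← act_T_a3 k, B_Tpow] at h4
    rw [← Nat.add_zero k, ← act_T_w k 0, Nat.add_zero, B_Tpow] at h5
    rw [← Nat.add_zero k, ← act_T_u k 0, Nat.add_zero, B_Tpow] at h6
    rw [← act_T_u k 1, B_Tpow] at h7
    have hc := cert hy h3 h1 h4 h2 h6 h7 h5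
    have hneg : B (act (T ^ k) x0) (act (T ^ k) x0) < 0 := by rw [B_Tpow, x0_neg]; norm_num
    have hpos : 0 < act (T ^ k) x0 0 := by
      refine pos_of_B_neg (x := act (T ^ k) y) (by rw [hx.1]; norm_num) hx.2 hneg ?_
      rw [B_Tpow]
      exact B_neg_of_pos (by rw [hy.1]; norm_num) hy.2 (by rw [x0_neg]; norm_num) x0_pos
    refine (height_le hx hneg hpos).trans ?_
    rw [B_Tpow k y x0]
    apply mul_le_mul_of_nonneg_left hc
    exact div_nonneg (by linarith) (by linarith)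
  choose r hr using hk
  refine ⟨∑ k ∈ Finset.range (n + 1), |r k|, fun x hx hface => ?_⟩
  have hb : ∀ k, k < n + 3 → B x (b k) ≤ 0 := fun k hk => hface (.inr (.inl ⟨k, hk⟩))
  have hw : ∀ k, k < n + 1 → B x (w k) ≤ 0 := fun k hk => hface (.inr (.inr ⟨k, hk⟩))
  have ha : B x a3 ≤ 0 := hface (.inl 0)
  have hu : B x (u 0) ≤ 0 := hface (.inl 1)
  have hv : 0 ≤ B x (u (n + 1)) := by
    have : B x (-u (n + 1)) ≤ 0 := hface (.inl 2)
    rw [B_neg_right] at this; linarith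
  -- find the copy
  have hfind : ∃ k, k < n + 1 ∧ B x (u k) ≤ 0 ∧ 0 ≤ B x (u (k + 1)) := by
    by_contra hcon
    push Not at hcon
    have hall : ∀ k, k ≤ n + 1 → B x (u k) ≤ 0 := by
      intro k
      induction k with
      | zero => intro _; exact hu
      | succ k ih => intro hk; exact (hcon k (by omega) (ih (by omega))).le
    have h1 := hcon n (by omega) (hall n (by omega))
    linarith
  obtain ⟨k, hk, hk1, hk2⟩ := hfind
  have h1 := hr k x hx (hb k (by omega)) (hb (k + 1) (by omega)) (hb (k + 2) (by omega)) ha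
    (hw k hk) hk1 hk2
  refine h1.trans ((le_abs_self _).trans ?_)
  exact Finset.single_le_sum (f := fun k => |r k|) (fun i _ => abs_nonneg _)
    (Finset.mem_range.mpr hk)

theorem Gam_cobdd (n : ℕ) : Cobdd (Gam n) := by
  obtain ⟨r, hr⟩ := bounded n
  refine ⟨r, fun x hx => ?_⟩
  obtain ⟨γ, hγ, h⟩ := cover n hx
  exact ⟨γ, hγ, hr _ ((Gam_le n hγ).2 x hx) h⟩

theorem Gam_refl (n : ℕ) : IsReflectionGroup (Gam n) where
  isom := Gam_le n
  discrete := discreteTopology_of_disc (Gam_disc n)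
  covol := finiteCovolume_of_cobdd (Gam_le n) (Gam_cobdd n)
  gen := by
    apply le_antisymm
    · rw [Subgroup.closure_le]; exact fun g hg => hg.1
    · conv_lhs => rw [Gam]
      rw [Subgroup.closure_le]
      rintro _ ⟨i, rfl⟩
      exact Subgroup.subset_closure ⟨R_face_mem n i, isReflection_R (face_pos n i)⟩

end QA61
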