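import Mathlib

/-!
# Hyperbolic 3-space, its isometry group, reflection groups, quasi-arithmeticity

Definitions for problem MP_61642b_gt.
-/

namespace QA61

open Matrix MeasureTheory

/-- The vector space `ℝ⁴`. -/
abbrev V := Fin 4 → ℝ

/-- The group `GL₄(ℝ)` (with its usual topology). -/
abbrev G := GL (Fin 4) ℝ

/-- The Lorentzian form `-x₀y₀ + x₁y₁ + x₂y₂ + x₃y₃` on `ℝ⁴`. -/
def B (x y : V) : ℝ := -(x 0 * y 0) + x 1 * y 1 + x 2 * y 2 + x 3 * y 3

/-- Hyperbolic 3-space: the upper sheet of the hyperboloid `B x x = -1`. -/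
def H3 : Set V := {x | B x x = -1 ∧ 0 < x 0}

/-- The linear action of `GL₄(ℝ)` on `ℝ⁴`. -/
def act (g : G) (x : V) : V := (g : Matrix (Fin 4) (Fin 4) ℝ) *ᵥ x

/-- The reflection in the hyperplane `e^⊥` of `ℍ³`, `e` a vector with `B e e > 0`. -/
def IsReflection (g : G) : Prop :=
  ∃ e : V, 0 < B e e ∧ ∀ x, act g x = x - (2 * B x e / B e e) • e

theorem act_mul (g h : G) (x : V) : act (g * h) x = act g (act h x) := by
  simp [act, Matrix.mulVec_mulVec]

@[simp] theorem act_one (x : V) : act 1 x = x := by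
  simp [act]

theorem act_inv_act (g : G) (x : V) : act g⁻¹ (act g x) = x := by
  rw [← act_mul]; simp

theorem act_act_inv (g : G) (x : V) : act g (act g⁻¹ x) = x := by
  rw [← act_mul]; simp

theorem act_neg (g : G) (x : V) : act g (-x) = - act g x := by
  simp [act, Matrix.mulVec_neg]

theorem B_neg_neg (x y : V) : B (-x) (-y) = B x y := by
  simp [B]

/-- `g` preserves the Lorentzian form and the upper sheet `ℍ³`. -/
def PreservesH3 (g : G) : Prop :=
  (∀ x y, B (act g x) (act g y) = B x y) ∧ ∀ x ∈ H3, act g x ∈ H3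

theorem PreservesH3.mul {g h : G} (hg : PreservesH3 g) (hh : PreservesH3 h) :
    PreservesH3 (g * h) := by
  obtain ⟨hg1, hg2⟩ := hg
  obtain ⟨hh1, hh2⟩ := hh
  refine ⟨fun x y => ?_, fun x hx => ?_⟩
  · rw [act_mul, act_mul, hg1, hh1]
  · rw [act_mul]; exact hg2 _ (hh2 _ hx)

theorem PreservesH3.one : PreservesH3 1 := ⟨fun x y => by simp, fun x hx => by simpa using hx⟩

theorem PreservesH3.inv {g : G} (hg : PreservesH3 g) : PreservesH3 g⁻¹ := by
  obtain ⟨hg1, hg2⟩ := hg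
  refine ⟨fun x y => ?_, fun x hx => ?_⟩
  · conv_rhs => rw [← act_act_inv g x, ← act_act_inv g y]
    rw [hg1]
  · have hB : B (act g⁻¹ x) (act g⁻¹ x) = -1 := by
      rw [← hg1, act_act_inv]; exact hx.1
    refine ⟨hB, ?_⟩
    by_contra hneg
    push Not at hneg
    have hne : act g⁻¹ x 0 ≠ 0 := by
      intro h0
      have : B (act g⁻¹ x) (act g⁻¹ x) ≥ 0 := by
        unfold B
        rw [h0]
        nlinarith [sq_nonneg (act g⁻¹ x 1), sq_nonneg (act g⁻¹ x 2), sq_nonneg (act g⁻¹ x 3)]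
      linarith
    have hlt : act g⁻¹ x 0 < 0 := lt_of_le_of_ne hneg hne
    have hmem : -(act g⁻¹ x) ∈ H3 := by
      refine ⟨by rw [B_neg_neg]; exact hB, by simpa using hlt⟩
    have := (hg2 _ hmem).2
    rw [act_neg, act_act_inv] at this
    have hx0 := hx.2
    simp at this
    linarith

/-- `Isom(ℍ³)`: the group `O⁺(3,1)` of the linear automorphisms of `ℝ⁴` which preserve the
Lorentzian form and the upper sheet `ℍ³`. -/
def IsomH3 : Subgroup G where
  carrier := {g | PreservesH3 g}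
  mul_mem' := PreservesH3.mul
  one_mem' := PreservesH3.one
  inv_mem' := PreservesH3.inv

/-- The point of `ℍ³` above `y ∈ ℝ³`. -/
noncomputable def lift (y : Fin 3 → ℝ) : V :=
  ![√(1 + y 0 ^ 2 + y 1 ^ 2 + y 2 ^ 2), y 0, y 1, y 2]

/-- The hyperbolic volume of a subset of `ℍ³`: the volume element of the hyperboloid in the
coordinates `(x₁,x₂,x₃)` is `dx₁dx₂dx₃ / √(1 + |x|²)`. -/
noncomputable def hvol (D : Set V) : ENNReal :=
  ∫⁻ y in lift ⁻¹' D, ENNReal.ofReal (1 / √(1 + y 0 ^ 2 + y 1 ^ 2 + y 2 ^ 2))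

/-- `Γ` has finite covolume: the translates of some set of finite hyperbolic volume cover
`ℍ³`. -/
def FiniteCovolume (Γ : Subgroup G) : Prop :=
  ∃ D ⊆ H3, MeasurableSet D ∧ hvol D < ⊤ ∧ ∀ x ∈ H3, ∃ γ ∈ Γ, act γ x ∈ D

/-- A reflection group: a discrete subgroup of `Isom(ℍ³)` of finite covolume which is
generated by reflections in hyperplanes. -/
structure IsReflectionGroup (Γ : Subgroup G) : Prop where
  isom : Γ ≤ IsomH3
  discrete : DiscreteTopology Γ
  covol : FiniteCovolume Γ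
  gen : Subgroup.closure {g | g ∈ Γ ∧ IsReflection g} = Γ

/-- A maximal reflection group: one which is not properly contained in another one. -/
def IsMaximalReflectionGroup (Γ : Subgroup G) : Prop :=
  IsReflectionGroup Γ ∧ ∀ Δ : Subgroup G, IsReflectionGroup Δ → Γ ≤ Δ → Δ = Γ

/-- `Γ` is cocompact: the translates of some compact set cover `ℍ³`. -/
def IsCocompact (Γ : Subgroup G) : Prop :=
  ∃ D ⊆ H3, IsCompact D ∧ ∀ x ∈ H3, ∃ γ ∈ Γ, act γ x ∈ D

/-- The matrix `diag(-1,1,1,1)` of the Lorentzian form. -/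
def J : Matrix (Fin 4) (Fin 4) ℝ := Matrix.diagonal ![-1, 1, 1, 1]

/-- Quasi-arithmetic (Vinberg): there are a totally real number field `K ⊂ ℝ` and a quadratic
form `f` in four variables over `K`, of signature `(3,1)` and with `f^σ` positive definite for
every embedding `σ ≠ id` of `K` into `ℝ`, such that under an identification `P` of the two
quadratic spaces `(ℝ⁴, B)` and `(ℝ⁴, f)` the group `Γ` goes into the group `O(f, K)`. -/
def IsQuasiArithmetic (Γ : Subgroup G) : Prop :=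
  ∃ (K : IntermediateField ℚ ℝ) (_ : FiniteDimensional ℚ K)
    (f : Matrix (Fin 4) (Fin 4) K) (P : G),
    (∀ (σ : K →+* ℂ) (x : K), (σ x).im = 0) ∧
    f.IsSymm ∧
    (P : Matrix (Fin 4) (Fin 4) ℝ)ᵀ * f.map (algebraMap K ℝ) * (P : Matrix (Fin 4) (Fin 4) ℝ) = J ∧
    (∀ σ : K →+* ℝ, σ ≠ algebraMap K ℝ → (f.map σ).PosDef) ∧
    ∀ γ ∈ Γ, ∃ M : Matrix (Fin 4) (Fin 4) K,
      ((P * γ * P⁻¹ : G) : Matrix (Fin 4) (Fin 4) ℝ) = M.map (algebraMap K ℝ)

/-- Conjugacy of subgroups in `Isom(ℍ³)`. -/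
def AreConjugate (Γ Δ : Subgroup G) : Prop :=
  ∃ g ∈ IsomH3, ∀ γ : G, γ ∈ Γ ↔ g * γ * g⁻¹ ∈ Δ

end QA61
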