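import Pool.Agent.QA61.Lattice

/-!
# The faces of the polytopes `P_n` and their Gram matrix
-/

namespace QA61

open Matrix

/-- The pair condition (exponents 2, 3, 6, ∞). -/
def Good (x y : V) : Prop := B x y ≤ 0 ∧ (B x y = 0 ∨ 4 * B x y ^ 2 = B x x * B y y ∨
  4 * B x y ^ 2 = 3 * (B x x * B y y) ∨ B x x * B y y ≤ B x y ^ 2)

theorem Good.symm {x y : V} (h : Good x y) : Good y x := by
  unfold Good at *
  rw [B_comm y x, mul_comm (B y y)]
  exact h

theorem a3a3 : B a3 a3 = 6 := by rw [a3, B_L]; simp [Q]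
theorem bb (k : ℕ) : B (b k) (b k) = 2 := by
  rw [b, B_Tpow, B_L]; simp [Q]
theorem ww (k : ℕ) : B (w k) (w k) = 52 := by
  rw [← Nat.add_zero k, ← act_T_w, B_Tpow]; exact rho_vals.2.2.2.2.2.2
theorem uu (k : ℕ) : B (u k) (u k) = 156 := by
  rw [← Nat.add_zero k, ← act_T_u, B_Tpow]; exact ups_vals.2.2.2.2.2
theorem ba (k : ℕ) : B (b k) a3 = -3 := by
  rw [← act_T_a3 k, ← Nat.add_zero k, ← act_T_b, Nat.add_zero, B_Tpow]
  exact beta_vals.2.2.2.2.2
theorem wa (k : ℕ) : B (w k) a3 = 0 := by
  rw [← act_T_a3 k, ← Nat.add_zero k, ← act_T_w, Nat.add_zero, B_Tpow]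
  exact rho_vals.2.2.2.2.2.1
theorem ua (k : ℕ) : B (u k) a3 = 0 := by
  rw [← act_T_a3 k, ← Nat.add_zero k, ← act_T_u, Nat.add_zero, B_Tpow]
  exact ups_vals.2.2.2.2.1

theorem good_ab (k : ℕ) : Good a3 (b k) := by
  unfold Good
  rw [B_comm, ba, a3a3, bb]; norm_num

theorem good_aw (k : ℕ) : Good a3 (w k) := by
  unfold Good
  rw [B_comm, wa]; norm_num

theorem good_au (k : ℕ) : Good a3 (u k) := by
  unfold Good
  rw [B_comm, ua]; norm_num

theorem good_av (k : ℕ) : Good a3 (-u k) := by
  unfold Good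
  rw [B_neg_right, B_comm a3 (u k), ua]; norm_num

theorem good_bb (i m : ℕ) : Good (b i) (b (i + (m + 1))) := by
  unfold Good
  have e : B (b i) (b (i + (m + 1))) = B (b 0) (b (m + 1)) := by
    rw [← act_T_b i (m + 1), ← Nat.add_zero i, ← act_T_b i 0, Nat.add_zero, B_Tpow]
  rw [e, bb, bb]
  match m with
  | 0 => rw [beta_vals.2.1]; norm_num
  | 1 => rw [beta_vals.2.2.1]; norm_num
  | m + 2 =>
    have := beta_le m
    refine ⟨by linarith, ?_⟩
    right; right; right
    nlinarith

theorem good_bw (i j : ℕ) : Good (b i) (w j) := by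
  unfold Good
  rcases le_or_gt j i with h | h
  · obtain ⟨m, rfl⟩ := Nat.exists_eq_add_of_le h
    have e : B (b (j + m)) (w j) = B (w 0) (b m) := by
      rw [← act_T_b j m, ← Nat.add_zero j, ← act_T_w j 0, Nat.add_zero, B_Tpow, B_comm]
    rw [e, bb, ww]
    match m with
    | 0 => rw [rho_vals.1]; norm_num
    | 1 => rw [rho_vals.2.1]; norm_num
    | 2 => rw [rho_vals.2.2.1]; norm_num
    | m + 3 =>
      have := rho_le m
      refine ⟨by linarith, ?_⟩
      right; right; right
      nlinarith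
  · obtain ⟨m, rfl⟩ := Nat.exists_eq_add_of_lt h
    have e : B (b i) (w (i + m + 1)) = 5 * B (b 0) (b (m + 3)) - 2 * B (b 0) (b (m + 2))
        + 5 * B (b 0) (b (m + 1)) - 12 := by
      rw [show i + m + 1 = i + (m + 1) by ring, ← act_T_w i (m + 1), ← Nat.add_zero i,
        ← act_T_b i 0, Nat.add_zero, B_Tpow, w_eq, B_add_right, B_add_right, B_sub_right,
        B_smul_right, B_smul_right, B_smul_right, B_smul_right, beta_vals.2.2.2.2.2]
      rw [show m + 1 + 2 = m + 3 by ring, show m + 1 + 1 = m + 2 by ring]; ring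
    have h1 : B (b i) (w (i + m + 1)) ≤ -33 := by
      rw [e]
      have h3 := beta_le m
      have h4 := (beta_anti m).2.1
      have h5 : B (b 0) (b (m + 1)) ≤ 0 := by
        match m with
        | 0 => rw [beta_vals.2.1]; norm_num
        | m + 1 => exact (beta_anti m).1
      linarith
    rw [bb, ww]
    refine ⟨by linarith, ?_⟩
    right; right; right
    nlinarith

theorem good_ww (i m : ℕ) : Good (w i) (w (i + (m + 1))) := by
  unfold Good
  have e : B (w i) (w (i + (m + 1))) = 5 * B (w 0) (b (m + 3)) - 2 * B (w 0) (b (m + 2))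
        + 5 * B (w 0) (b (m + 1)) := by
    rw [← act_T_w i (m + 1), ← Nat.add_zero i,
      ← act_T_w i 0, Nat.add_zero, B_Tpow, w_eq (m + 1), B_add_right, B_add_right, B_sub_right,
      B_smul_right, B_smul_right, B_smul_right, B_smul_right, wa]
    rw [show m + 1 + 2 = m + 3 by ring, show m + 1 + 1 = m + 2 by ring]; ring
  have h1 : B (w i) (w (i + (m + 1))) ≤ -150 := by
    rw [e]
    have h3 := rho_le m
    have h4 := (rho_anti m).2.1
    have h5 : B (w 0) (b (m + 1)) ≤ 0 := by
      match m with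
      | 0 => rw [rho_vals.2.1]; norm_num
      | m + 1 => exact (rho_anti m).1
    linarith
  rw [ww, ww]
  refine ⟨by linarith, ?_⟩
  right; right; right
  nlinarith

theorem good_ub (k : ℕ) : Good (u 0) (b k) := by
  unfold Good
  rw [uu, bb]
  match k with
  | 0 => rw [ups_vals.1]; norm_num
  | 1 => rw [ups_vals.2.1]; norm_num
  | k + 2 =>
    have := ups_le k
    refine ⟨by linarith, ?_⟩
    right; right; right
    nlinarith

theorem good_uw (k : ℕ) : Good (u 0) (w k) := by
  unfold Good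
  have e : B (u 0) (w k) = 5 * B (u 0) (b (k + 2)) - 2 * B (u 0) (b (k + 1))
        + 5 * B (u 0) (b k) := by
    rw [w_eq, B_add_right, B_add_right, B_sub_right,
      B_smul_right, B_smul_right, B_smul_right, B_smul_right, ua]
    ring
  have h1 : B (u 0) (w k) ≤ -130 := by
    rw [e]
    match k with
    | 0 => rw [ups_vals.2.2.1, ups_vals.1, ups_vals.2.1]; norm_num
    | k + 1 =>
      have h3 := (ups_anti (k + 1)).2.2
      have h4 := (ups_anti (k + 1)).1
      have h5 : B (u 0) (b (k + 3)) ≤ -52 := by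
        clear h3 h4 e
        induction k with
        | zero => rw [ups_vals.2.2.2.1]
        | succ k ih => exact ((ups_anti (k + 2)).2.2).trans ih
      have h6 : k + 1 + 2 = k + 3 := by ring
      rw [h6] at h3 ⊢
      linarith
  rw [uu, ww]
  refine ⟨by linarith, ?_⟩
  right; right; right
  nlinarith

theorem B_u_b (m : ℕ) : B (b 0) (u m) = -(6 * B (b 0) (b (m + 2))) + 5 * B (b 0) (b (m + 1))
    + 7 * B (b 0) (b m) - 9 := by
  rw [u_eq, B_add_right, B_add_right, B_add_right, B_smul_right, B_smul_right, B_smul_right,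
    B_smul_right, ba]; ring

theorem good_vb (m k : ℕ) : Good (-u (k + m)) (b k) := by
  unfold Good
  have e : B (-u (k + m)) (b k) = 6 * B (b 0) (b (m + 2)) - 5 * B (b 0) (b (m + 1))
    - 7 * B (b 0) (b m) + 9 := by
    rw [B_neg_left, ← act_T_u k m, ← Nat.add_zero k, ← act_T_b k 0, Nat.add_zero, B_Tpow, B_comm,
      B_u_b]; ring
  rw [e, B_neg_neg, uu, bb]
  match m with
  | 0 => rw [beta_vals.2.2.1, beta_vals.2.1, beta_vals.1]; norm_num
  | 1 => rw [beta_vals.2.2.2.1, beta_vals.2.2.1, beta_vals.2.1]; norm_num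
  | 2 => rw [beta_vals.2.2.2.2.1, beta_vals.2.2.2.1, beta_vals.2.2.1]; norm_num
  | m + 3 =>
    have h1 := seq_rec (b 0) (m + 2)
    have h2 := (beta_anti m).2.1
    have h3 := (beta_anti m).2.2
    have h4 := beta_le m
    have h5 := beta_le (m + 1)
    have h6 := ba 0
    rw [h6] at h1
    rw [show m + 3 + 2 = m + 2 + 3 by ring, show m + 3 + 1 = m + 4 by ring]
    rw [show m + 2 + 2 = m + 4 by ring, show m + 2 + 1 = m + 3 by ring] at h1
    rw [show m + 1 + 3 = m + 4 by ring] at h5
    have h7 : 6 * B (b 0) (b (m + 2 + 3)) - 5 * B (b 0) (b (m + 4))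
      - 7 * B (b 0) (b (m + 3)) + 9 ≤ -42 := by linarith
    refine ⟨by linarith, ?_⟩
    right; right; right
    nlinarith

theorem good_vb' (k : ℕ) : Good (-u k) (b (k + 1)) := by
  unfold Good
  have e : B (-u k) (b (k + 1)) = 0 := by
    rw [B_neg_left, ← act_T_b k 1, ← Nat.add_zero k, ← act_T_u k 0, Nat.add_zero, B_Tpow,
      ups_vals.2.1]; ring
  rw [e]; norm_num

theorem good_vw (m k : ℕ) : Good (-u (k + (m + 1))) (w k) := by
  unfold Good
  have e : B (-u (k + (m + 1))) (w k) = 6 * B (w 0) (b (m + 3)) - 5 * B (w 0) (b (m + 2))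
    - 7 * B (w 0) (b (m + 1)) := by
    rw [B_neg_left, ← act_T_u k (m + 1), ← Nat.add_zero k, ← act_T_w k 0, Nat.add_zero, B_Tpow,
      B_comm, u_eq, B_add_right, B_add_right, B_add_right, B_smul_right, B_smul_right,
      B_smul_right, B_smul_right, wa]
    rw [show m + 1 + 2 = m + 3 by ring, show m + 1 + 1 = m + 2 by ring]; ring
  have h1 : B (-u (k + (m + 1))) (w k) ≤ -130 := by
    rw [e]
    match m with
    | 0 => rw [rho_vals.2.2.2.1, rho_vals.2.2.1, rho_vals.2.1]; norm_num
    | 1 => rw [rho_vals.2.2.2.2.1, rho_vals.2.2.2.1, rho_vals.2.2.1]; norm_num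
    | m + 2 =>
      have h1 := seq_rec (w 0) (m + 2)
      have h2 := (rho_anti m).2.1
      have h3 := (rho_anti m).2.2
      have h4 := rho_le m
      have h5 := rho_le (m + 1)
      rw [wa 0] at h1
      rw [show m + 2 + 2 = m + 4 by ring, show m + 2 + 1 = m + 3 by ring]
      rw [show m + 2 + 2 = m + 4 by ring, show m + 2 + 1 = m + 3 by ring] at h1
      rw [show m + 1 + 3 = m + 4 by ring] at h5
      linarith
  rw [B_neg_neg, uu, ww]
  refine ⟨by linarith, ?_⟩
  right; right; right
  nlinarith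

theorem good_uv (n : ℕ) : Good (u 0) (-u (n + 1)) := by
  unfold Good
  have e : B (u 0) (-u (n + 1)) = 6 * B (u 0) (b (n + 3)) - 5 * B (u 0) (b (n + 2))
    - 7 * B (u 0) (b (n + 1)) := by
    rw [B_neg_right, u_eq (n + 1), B_add_right, B_add_right, B_add_right, B_smul_right,
      B_smul_right, B_smul_right, B_smul_right, ua]
    rw [show n + 1 + 2 = n + 3 by ring, show n + 1 + 1 = n + 2 by ring]; ring
  have h1 : B (u 0) (-u (n + 1)) ≤ -156 := by
    rw [e]
    have h1 := seq_rec (u 0) n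
    have h2 := (ups_anti n).2.1
    have h3 := (ups_anti n).2.2
    have h4 := ups_le n
    rw [ua 0] at h1
    linarith
  rw [B_neg_neg, uu, uu]
  refine ⟨by linarith, ?_⟩
  right; right; right
  nlinarith

/-- The outer normals of the faces of the polytope `P_{n+1}`. -/
noncomputable def face (n : ℕ) : Fin 3 ⊕ Fin (n + 3) ⊕ Fin (n + 1) → V
  | .inl 0 => a3
  | .inl 1 => u 0
  | .inl 2 => -u (n + 1)
  | .inr (.inl k) => b k
  | .inr (.inr k) => w k

theorem good_vb_all {n k : ℕ} (hk : k < n + 3) : Good (-u (n + 1)) (b k) := by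
  rcases Nat.lt_or_ge k (n + 2) with h | h
  · obtain ⟨m, hm⟩ := Nat.exists_eq_add_of_le (show k ≤ n + 1 by omega)
    rw [hm]; exact good_vb m k
  · obtain rfl : k = n + 2 := by omega
    exact good_vb' (n + 1)

theorem good_vw_all {n k : ℕ} (hk : k < n + 1) : Good (-u (n + 1)) (w k) := by
  obtain ⟨m, hm⟩ := Nat.exists_eq_add_of_le (show k + 1 ≤ n + 1 by omega)
  rw [hm, show k + 1 + m = k + (m + 1) by ring]; exact good_vw m k

theorem good_bb_all {i j : ℕ} (h : i ≠ j) : Good (b i) (b j) := by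
  rcases lt_or_gt_of_ne h with h | h
  · obtain ⟨m, hm⟩ := Nat.exists_eq_add_of_lt h
    rw [hm, show i + m + 1 = i + (m + 1) by ring]; exact good_bb i m
  · obtain ⟨m, hm⟩ := Nat.exists_eq_add_of_lt h
    rw [hm, show j + m + 1 = j + (m + 1) by ring]; exact (good_bb j m).symm

theorem good_ww_all {i j : ℕ} (h : i ≠ j) : Good (w i) (w j) := by
  rcases lt_or_gt_of_ne h with h | h
  · obtain ⟨m, hm⟩ := Nat.exists_eq_add_of_lt h
    rw [hm, show i + m + 1 = i + (m + 1) by ring]; exact good_ww i m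
  · obtain ⟨m, hm⟩ := Nat.exists_eq_add_of_lt h
    rw [hm, show j + m + 1 = j + (m + 1) by ring]; exact (good_ww j m).symm

theorem good_face (n : ℕ) (i j : Fin 3 ⊕ Fin (n + 3) ⊕ Fin (n + 1)) (hij : i ≠ j) :
    Good (face n i) (face n j) := by
  rcases i with i | i | i <;> rcases j with j | j | j
  · fin_cases i <;> fin_cases j <;> first | exact absurd rfl hij | skip
    · exact good_au 0
    · exact good_av _
    · exact (good_au 0).symm
    · exact good_uv n
    · exact (good_av _).symm
    · exact (good_uv n).symm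
  · fin_cases i
    · exact good_ab j
    · exact good_ub j
    · exact good_vb_all j.2
  · fin_cases i
    · exact good_aw j
    · exact good_uw j
    · exact good_vw_all j.2
  · fin_cases j
    · exact (good_ab i).symm
    · exact (good_ub i).symm
    · exact (good_vb_all i.2).symm
  · apply good_bb_all
    intro h
    apply hij
    have : i = j := Fin.ext h
    rw [this]
  · exact good_bw i j
  · fin_cases j
    · exact (good_aw i).symm
    · exact (good_uw i).symm
    · exact (good_vw_all i.2).symm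
  · exact (good_bw j i).symm
  · apply good_ww_all
    intro h
    apply hij
    have : i = j := Fin.ext h
    rw [this]

theorem face_pos (n : ℕ) (i : Fin 3 ⊕ Fin (n + 3) ⊕ Fin (n + 1)) :
    0 < B (face n i) (face n i) := by
  rcases i with i | i | i
  · fin_cases i
    · show 0 < B a3 a3; rw [a3a3]; norm_num
    · show 0 < B (u 0) (u 0); rw [uu]; norm_num
    · show 0 < B (-u (n + 1)) (-u (n + 1)); rw [B_neg_neg, uu]; norm_num
  · show 0 < B (b i) (b i); rw [bb]; norm_num
  · show 0 < B (w i) (w i); rw [ww]; norm_num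

theorem x0_w (k : ℕ) : B x0 (w k) < 0 := by
  rw [w_eq, B_add_right, B_add_right, B_sub_right, B_smul_right, B_smul_right, B_smul_right,
    B_smul_right, x0_vals.2.2.2.2.2]
  have h := x0b_le k
  match k with
  | 0 => rw [x0_vals.2.2.1, x0_vals.2.1, x0_vals.1]; norm_num
  | k + 1 =>
    have h2 := (x0b_anti k).2.1
    have h3 := x0b_le (k + 3)
    rw [show k + 1 + 2 = k + 3 by ring, show k + 1 + 1 = k + 2 by ring]
    linarith

theorem x0_u (k : ℕ) : 0 < B x0 (u (k + 1)) := by
  rw [u_eq, B_add_right, B_add_right, B_add_right, B_smul_right, B_smul_right, B_smul_right,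
    B_smul_right, x0_vals.2.2.2.2.2]
  rw [show k + 1 + 2 = k + 3 by ring, show k + 1 + 1 = k + 2 by ring]
  match k with
  | 0 => rw [x0_vals.2.2.2.1, x0_vals.2.2.1, x0_vals.2.1]; norm_num
  | 1 => rw [x0_vals.2.2.2.2.1, x0_vals.2.2.2.1, x0_vals.2.2.1]; norm_num
  | k + 2 =>
    have h1 := seq_rec x0 (k + 2)
    have h2 := (x0b_anti k).2.1
    have h3 := (x0b_anti k).2.2
    have h4 := x0b_le (k + 3)
    have h5 := x0b_le (k + 2)
    have h6 : B x0 (b (k + 4)) ≤ -22 := by
      clear h1 h2 h3 h4 h5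
      induction k with
      | zero => rw [x0_vals.2.2.2.2.1]; norm_num
      | succ k ih =>
        have := (x0b_anti (k + 1)).2.2
        rw [show k + 1 + 4 = k + 5 by ring, show k + 1 + 3 = k + 4 by ring] at this
        rw [show k + 1 + 4 = k + 5 by ring]
        linarith
    rw [x0_vals.2.2.2.2.2] at h1
    rw [show k + 2 + 3 = k + 5 by ring, show k + 2 + 2 = k + 4 by ring,
      show k + 2 + 1 = k + 3 by ring] at *
    linarith

theorem x0_face (n : ℕ) (i : Fin 3 ⊕ Fin (n + 3) ⊕ Fin (n + 1)) : B x0 (face n i) < 0 := by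
  rcases i with i | i | i
  · fin_cases i
    · show B x0 a3 < 0; rw [x0_vals.2.2.2.2.2]; norm_num
    · show B x0 (u 0) < 0; rw [x0, u0, B_L]; simp [Q]; norm_num
    · show B x0 (-u (n + 1)) < 0; rw [B_neg_right]; linarith [x0_u n]
  · show B x0 (b i) < 0
    linarith [x0b_le i]
  · exact x0_w i

end QA61
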