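import Pool.Agent.QA61.Basic2

/-!
# Rationality of discrete groups containing a rational cobounded group
-/

namespace QA61

open Matrix

/-- The matrix `X` is rational in the basis given by the columns of `P`. -/
def RatIn (P : G) (X : Matrix (Fin 4) (Fin 4) ℝ) : Prop :=
  ∃ M : Matrix (Fin 4) (Fin 4) ℚ,
    ((P⁻¹ : G) : Matrix (Fin 4) (Fin 4) ℝ) * X * (P : Matrix (Fin 4) (Fin 4) ℝ) =
      M.map (fun q : ℚ => (q : ℝ))

/-- The vector `x` is rational in the basis given by the columns of `P`. -/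
def RatVec (P : G) (x : V) : Prop := ∃ q : Fin 4 → ℚ, x = act P (fun i => (q i : ℝ))

/-! ### Rank one operators -/

/-- The operator `z ↦ B(z,y) x`. -/
def Trk (x y : V) : Matrix (Fin 4) (Fin 4) ℝ := Matrix.vecMulVec x (J *ᵥ y)

theorem Trk_mulVec (x y z : V) : Trk x y *ᵥ z = (B z y) • x := by
  unfold Trk
  rw [B_eq_J, dotProduct_comm]
  ext i
  simp [Matrix.mulVec, dotProduct, Matrix.vecMulVec_apply, Fin.sum_univ_four]
  ring

theorem T_mul_T (x y z w : V) : Trk x y * Trk z w = (B z y) • Trk x w := by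
  apply mat_ext
  intro t
  rw [← Matrix.mulVec_mulVec, Trk_mulVec, Trk_mulVec, Matrix.smul_mulVec, Trk_mulVec, B_smul_left,
    smul_smul, mul_comm]

theorem mul_T (A : Matrix (Fin 4) (Fin 4) ℝ) (x y : V) : A * Trk x y = Trk (A *ᵥ x) y := by
  apply mat_ext
  intro t
  rw [← Matrix.mulVec_mulVec, Trk_mulVec, Trk_mulVec, Matrix.mulVec_smul]

theorem T_mul_inv {g : G} (hg : ∀ x y, B (act g x) (act g y) = B x y) (x y : V) :
    Trk x y * ((g⁻¹ : G) : Matrix (Fin 4) (Fin 4) ℝ) = Trk x (act g y) := by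
  apply mat_ext
  intro t
  rw [← Matrix.mulVec_mulVec, Trk_mulVec, Trk_mulVec]
  congr 1
  have : t = act g (act g⁻¹ t) := (act_act_inv g t).symm
  conv_rhs => rw [this, hg]
  rfl

theorem T_add_left (x x' y : V) : Trk (x + x') y = Trk x y + Trk x' y := by
  apply mat_ext
  intro t
  rw [Matrix.add_mulVec, Trk_mulVec, Trk_mulVec, Trk_mulVec, smul_add]

theorem T_smul_left (a : ℝ) (x y : V) : Trk (a • x) y = a • Trk x y := by
  apply mat_ext
  intro t
  rw [Matrix.smul_mulVec, Trk_mulVec, Trk_mulVec, smul_comm]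

/-! ### The rational matrices form a `ℚ`-algebra -/

theorem RatIn.one (P : G) : RatIn P 1 := by
  refine ⟨1, ?_⟩
  rw [mul_one, ← Units.val_mul, inv_mul_cancel, Units.val_one]
  ext i j
  simp [Matrix.map_apply, Matrix.one_apply]
  split_ifs <;> simp

theorem RatIn.add {P : G} {X Y : Matrix (Fin 4) (Fin 4) ℝ} (hX : RatIn P X) (hY : RatIn P Y) :
    RatIn P (X + Y) := by
  obtain ⟨M, hM⟩ := hX
  obtain ⟨N, hN⟩ := hY
  refine ⟨M + N, ?_⟩
  rw [mul_add, add_mul, hM, hN]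
  ext i j
  simp

theorem RatIn.smul {P : G} {X : Matrix (Fin 4) (Fin 4) ℝ} (hX : RatIn P X) (q : ℚ) :
    RatIn P ((q : ℝ) • X) := by
  obtain ⟨M, hM⟩ := hX
  refine ⟨q • M, ?_⟩
  rw [Matrix.mul_smul, Matrix.smul_mul, hM]
  ext i j
  simp

theorem RatIn.sub {P : G} {X Y : Matrix (Fin 4) (Fin 4) ℝ} (hX : RatIn P X) (hY : RatIn P Y) :
    RatIn P (X - Y) := by
  have := hX.add (hY.smul (-1))
  convert this using 1
  simp [sub_eq_add_neg]

theorem RatIn.mul {P : G} {X Y : Matrix (Fin 4) (Fin 4) ℝ} (hX : RatIn P X) (hY : RatIn P Y) :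
    RatIn P (X * Y) := by
  obtain ⟨M, hM⟩ := hX
  obtain ⟨N, hN⟩ := hY
  refine ⟨M * N, ?_⟩
  have h1 : (M * N).map (fun q : ℚ => (q : ℝ)) =
      M.map (fun q : ℚ => (q : ℝ)) * N.map (fun q : ℚ => (q : ℝ)) := by
    ext i j
    simp [Matrix.mul_apply]
  rw [h1, ← hM, ← hN]
  have h2 : (P : Matrix (Fin 4) (Fin 4) ℝ) * ((P⁻¹ : G) : Matrix (Fin 4) (Fin 4) ℝ) = 1 := by
    rw [← Units.val_mul, mul_inv_cancel, Units.val_one]
  calc ((P⁻¹ : G) : Matrix (Fin 4) (Fin 4) ℝ) * (X * Y) * (P : Matrix (Fin 4) (Fin 4) ℝ)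
      = ((P⁻¹ : G) : Matrix (Fin 4) (Fin 4) ℝ) * X * ((P : Matrix (Fin 4) (Fin 4) ℝ) *
        ((P⁻¹ : G) : Matrix (Fin 4) (Fin 4) ℝ)) * Y * (P : Matrix (Fin 4) (Fin 4) ℝ) := by
        rw [h2, mul_one]; simp only [Matrix.mul_assoc]
    _ = _ := by simp only [Matrix.mul_assoc]

theorem RatIn.of_smul {P : G} {X : Matrix (Fin 4) (Fin 4) ℝ} {r : ℝ} (h : RatIn P (r • X))
    {q : ℚ} (hq : (q : ℝ) = r) (hr : r ≠ 0) : RatIn P X := by
  have := h.smul q⁻¹
  rw [smul_smul] at this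
  have h2 : ((q⁻¹ : ℚ) : ℝ) * r = 1 := by
    rw [← hq] at hr ⊢
    push_cast
    field_simp
  rwa [h2, one_smul] at this

theorem ratIn_sum {P : G} {ι : Type*} (s : Finset ι) (X : ι → Matrix (Fin 4) (Fin 4) ℝ)
    (h : ∀ i ∈ s, RatIn P (X i)) : RatIn P (∑ i ∈ s, X i) := by
  classical
  induction s using Finset.induction_on with
  | empty =>
    have := (RatIn.one P).smul 0
    simpa using this
  | insert a s ha ih =>
    rw [Finset.sum_insert ha]
    exact (h a (Finset.mem_insert_self _ _)).add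
      (ih fun i hi => h i (Finset.mem_insert_of_mem hi))

theorem ratIn_conj {P g : G} {X : Matrix (Fin 4) (Fin 4) ℝ} :
    RatIn (g⁻¹ * P) X ↔ RatIn P ((g : Matrix (Fin 4) (Fin 4) ℝ) * X *
      ((g⁻¹ : G) : Matrix (Fin 4) (Fin 4) ℝ)) := by
  have e : (((g⁻¹ * P)⁻¹ : G) : Matrix (Fin 4) (Fin 4) ℝ) * X *
      ((g⁻¹ * P : G) : Matrix (Fin 4) (Fin 4) ℝ) =
      ((P⁻¹ : G) : Matrix (Fin 4) (Fin 4) ℝ) * ((g : Matrix (Fin 4) (Fin 4) ℝ) * X *
      ((g⁻¹ : G) : Matrix (Fin 4) (Fin 4) ℝ)) * (P : Matrix (Fin 4) (Fin 4) ℝ) := by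
    have : ((g⁻¹ * P)⁻¹ : G) = P⁻¹ * g := by group
    rw [this, Units.val_mul, Units.val_mul]
    simp only [Matrix.mul_assoc]
  constructor
  · rintro ⟨M, hM⟩
    exact ⟨M, by rw [← e, hM]⟩
  · rintro ⟨M, hM⟩
    exact ⟨M, by rw [e, hM]⟩

theorem RatIn.trace {P : G} {X : Matrix (Fin 4) (Fin 4) ℝ} (hX : RatIn P X) :
    ∃ q : ℚ, (q : ℝ) = X.trace := by
  obtain ⟨M, hM⟩ := hX
  refine ⟨M.trace, ?_⟩
  have h1 : (M.map (fun q : ℚ => (q : ℝ))).trace = ((M.trace : ℚ) : ℝ) := by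
    simp [Matrix.trace]
  rw [← h1, ← hM, Matrix.trace_mul_comm, ← Matrix.mul_assoc, ← Units.val_mul, mul_inv_cancel,
    Units.val_one, one_mul]

/-! ### Rational vectors -/

theorem RatIn.T_of_ratVec {P : G}
    (hP : ∃ A : Matrix (Fin 4) (Fin 4) ℚ, (P : Matrix (Fin 4) (Fin 4) ℝ)ᵀ * J *
      (P : Matrix (Fin 4) (Fin 4) ℝ) = A.map (fun q : ℚ => (q : ℝ)))
    {x y : V} (hx : RatVec P x) (hy : RatVec P y) : RatIn P (Trk x y) := by
  obtain ⟨A, hA⟩ := hP
  obtain ⟨q, rfl⟩ := hx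
  obtain ⟨r, rfl⟩ := hy
  have hA' : ∀ i j, ((P : Matrix (Fin 4) (Fin 4) ℝ)ᵀ * J *
      (P : Matrix (Fin 4) (Fin 4) ℝ)) i j = (A i j : ℝ) := fun i j => by
    rw [hA]; rfl
  refine ⟨Matrix.vecMulVec q (A *ᵥ r), ?_⟩
  have h2 : ((P⁻¹ : G) : Matrix (Fin 4) (Fin 4) ℝ) * (P : Matrix (Fin 4) (Fin 4) ℝ) = 1 := by
    rw [← Units.val_mul, inv_mul_cancel, Units.val_one]
  have hJs : J.transpose = J := by simp [J]
  have hPJ : (P : Matrix (Fin 4) (Fin 4) ℝ)ᵀ * J * (P : Matrix (Fin 4) (Fin 4) ℝ) =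
      ((P : Matrix (Fin 4) (Fin 4) ℝ)ᵀ * J * (P : Matrix (Fin 4) (Fin 4) ℝ))ᵀ := by
    rw [Matrix.transpose_mul, Matrix.transpose_mul, Matrix.transpose_transpose, hJs,
      Matrix.mul_assoc]
  apply mat_ext
  intro z
  rw [← Matrix.mulVec_mulVec, ← Matrix.mulVec_mulVec, Trk_mulVec, Matrix.mulVec_smul]
  unfold act
  rw [Matrix.mulVec_mulVec, h2, Matrix.one_mulVec, B_comm, B_eq_J]
  have h3 : (P : Matrix (Fin 4) (Fin 4) ℝ) *ᵥ (fun i => (r i : ℝ)) ⬝ᵥ
      J *ᵥ (P : Matrix (Fin 4) (Fin 4) ℝ) *ᵥ z =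
      (fun i => (r i : ℝ)) ⬝ᵥ (A.map (fun q : ℚ => (q : ℝ))) *ᵥ z := by
    rw [← hA, ← Matrix.mulVec_mulVec, ← Matrix.mulVec_mulVec, Matrix.dotProduct_mulVec _ _ (J *ᵥ _),
      Matrix.vecMul_transpose]
  rw [h3, Matrix.dotProduct_mulVec]
  have hAs : ∀ i j, (A i j : ℝ) = (A j i : ℝ) := by
    intro i j
    rw [← hA', ← hA']
    conv_lhs => rw [hPJ]
    rfl
  ext i
  simp only [Pi.smul_apply, smul_eq_mul, Matrix.mulVec, dotProduct, Matrix.vecMul,
    Matrix.map_apply, Matrix.vecMulVec_apply]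
  push_cast
  rw [Finset.sum_mul]
  refine Finset.sum_congr rfl fun j _ => ?_
  have : ∑ k, (r k : ℝ) * (A k j : ℝ) = ∑ k, (A j k : ℝ) * (r k : ℝ) := by
    refine Finset.sum_congr rfl fun k _ => ?_
    rw [hAs k j, mul_comm]
  rw [this]; ring

theorem RatVec.add {P : G} {x y : V} (hx : RatVec P x) (hy : RatVec P y) : RatVec P (x + y) := by
  obtain ⟨q, rfl⟩ := hx
  obtain ⟨r, rfl⟩ := hy
  refine ⟨q + r, ?_⟩
  rw [← act_add]
  congr 1
  ext i
  simp

theorem RatVec.smul {P : G} {x : V} (hx : RatVec P x) (c : ℚ) : RatVec P ((c : ℝ) • x) := by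
  obtain ⟨q, rfl⟩ := hx
  refine ⟨c • q, ?_⟩
  rw [← act_smul]
  congr 1
  ext i
  simp

/-! ### The projection onto a hyperbolic plane is a polynomial in a hyperbolic element -/

/-- The orthogonal projection onto the plane spanned by `c` and `d`. -/
noncomputable def E (c d : V) : Matrix (Fin 4) (Fin 4) ℝ :=
  (1 / (B c c * B d d - B c d ^ 2)) •
    (B d d • Trk c c - B c d • (Trk c d + Trk d c) + B c c • Trk d d)

theorem E_mulVec (c d x : V) : E c d *ᵥ x =
    (1 / (B c c * B d d - B c d ^ 2)) •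
      ((B d d * B x c - B c d * B x d) • c + (B c c * B x d - B c d * B x c) • d) := by
  unfold E
  rw [Matrix.smul_mulVec, Matrix.add_mulVec, Matrix.sub_mulVec, Matrix.smul_mulVec,
    Matrix.smul_mulVec, Matrix.smul_mulVec, Matrix.add_mulVec, Trk_mulVec, Trk_mulVec, Trk_mulVec,
    Trk_mulVec]
  congr 1
  module

theorem E_mul_E {c d : V} (h : B c c * B d d - B c d ^ 2 ≠ 0) : E c d * E c d = E c d := by
  apply mat_ext
  intro x
  rw [← Matrix.mulVec_mulVec, E_mulVec c d x, E_mulVec]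
  simp only [B_add_left, B_smul_left, B_comm d c]
  set k := 1 / (B c c * B d d - B c d ^ 2) with hk
  have hk1 : k * (B c c * B d d - B c d ^ 2) = 1 := by
    rw [hk]; field_simp
  congr 1
  congr 1
  · congr 1
    linear_combination (B d d * B x c - B c d * B x d) * hk1
  · congr 1
    linear_combination (B c c * B x d - B c d * B x c) * hk1

theorem R_mul_R_add {c d : V} (hc : B c c ≠ 0) (hd : B d d ≠ 0)
    (h : B c c * B d d - B c d ^ 2 ≠ 0) :
    ((R c * R d : G) : Matrix (Fin 4) (Fin 4) ℝ) + ((R d * R c : G) : Matrix (Fin 4) (Fin 4) ℝ) =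
      (2 : ℝ) • 1 + (4 * B c d ^ 2 / (B c c * B d d) - 4) • E c d := by
  apply mat_ext
  intro x
  have e1 : ((R c * R d : G) : Matrix (Fin 4) (Fin 4) ℝ) *ᵥ x = act (R c * R d) x := rfl
  have e2 : ((R d * R c : G) : Matrix (Fin 4) (Fin 4) ℝ) *ᵥ x = act (R d * R c) x := rfl
  rw [Matrix.add_mulVec, Matrix.add_mulVec, Matrix.smul_mulVec, Matrix.smul_mulVec,
    Matrix.one_mulVec, E_mulVec, e1, e2, act_mul, act_mul, act_R, act_R, act_R, act_R]
  simp only [B_sub_left, B_smul_left, B_comm d c]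
  have h1 : (4 * B c d ^ 2 / (B c c * B d d) - 4) * (1 / (B c c * B d d - B c d ^ 2)) =
      - 4 / (B c c * B d d) := by
    field_simp
    ring
  rw [smul_smul, h1]
  match_scalars <;> field_simp <;> ring

theorem pow_add_pow {p q F : Matrix (Fin 4) (Fin 4) ℝ} (hpq : p * q = 1) (hqp : q * p = 1)
    (hF : F * F = F) {s : ℚ} (hs : 0 < s) (h : p + q = (2 : ℝ) • 1 + (s : ℝ) • F) (k : ℕ) :
    ∃ a b : ℚ, 0 ≤ a ∧ a < b ∧ p ^ k + q ^ k = (2 : ℝ) • 1 + (a : ℝ) • F ∧
      p ^ (k + 1) + q ^ (k + 1) = (2 : ℝ) • 1 + (b : ℝ) • F := by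
  induction k with
  | zero =>
    refine ⟨0, s, le_rfl, hs, ?_, ?_⟩
    · simp [two_smul]
    · simpa using h
  | succ k ih =>
    obtain ⟨a, b, ha, hab, h1, h2⟩ := ih
    have hb : 0 < b := ha.trans_lt hab
    refine ⟨b, 2 * s + 2 * b + s * b - a, hb.le, ?_, h2, ?_⟩
    · have : 0 < s * b := mul_pos hs hb
      linarith
    · have h3 : p ^ (k + 1 + 1) + q ^ (k + 1 + 1) =
          (p + q) * (p ^ (k + 1) + q ^ (k + 1)) - (p ^ k + q ^ k) := by
        have e1 : p * q ^ (k + 1) = q ^ k := by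
          rw [pow_succ', ← mul_assoc, hpq, one_mul]
        have e2 : q * p ^ (k + 1) = p ^ k := by
          rw [pow_succ', ← mul_assoc, hqp, one_mul]
        rw [add_mul, mul_add, mul_add, e1, e2, ← pow_succ', ← pow_succ']
        abel
      rw [h3, h, h2, h1]
      simp only [mul_add, add_mul, smul_mul_smul_comm, mul_one, one_mul, hF]
      push_cast
      module

/-- The key step: `E c d` is rational in each basis in which a power of `R c * R d` and its
inverse are rational. -/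
theorem ratIn_E {P : G} {c d : V} {s : ℚ} (hs : 0 < s) (hcc : 0 < B c c) (hdd : 0 < B d d)
    (hss : (s : ℝ) = 4 * B c d ^ 2 / (B c c * B d d) - 4) {k : ℕ} (hk : 0 < k)
    (h1 : RatIn P (((R c * R d) ^ k : G) : Matrix (Fin 4) (Fin 4) ℝ))
    (h2 : RatIn P ((((R c * R d) ^ k)⁻¹ : G) : Matrix (Fin 4) (Fin 4) ℝ)) :
    RatIn P (E c d) := by
  have hpos : 0 < B c c * B d d := mul_pos hcc hdd
  have hne : B c c * B d d - B c d ^ 2 ≠ 0 := by
    intro h0
    have : B c d ^ 2 = B c c * B d d := by linarith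
    rw [this] at hss
    have h3 : (4 * (B c c * B d d) / (B c c * B d d)) = 4 := by field_simp
    rw [h3] at hss
    have : (0 : ℝ) < s := by exact_mod_cast hs
    linarith
  have hp := R_mul_R_add hcc.ne' hdd.ne' hne
  rw [← hss] at hp
  have hinv : (R c * R d)⁻¹ = R d * R c := by rw [_root_.mul_inv_rev, R_inv, R_inv]
  have hpq : ((R c * R d : G) : Matrix (Fin 4) (Fin 4) ℝ) *
      ((R d * R c : G) : Matrix (Fin 4) (Fin 4) ℝ) = 1 := by
    rw [← Units.val_mul, ← hinv, mul_inv_cancel, Units.val_one]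
  have hqp : ((R d * R c : G) : Matrix (Fin 4) (Fin 4) ℝ) *
      ((R c * R d : G) : Matrix (Fin 4) (Fin 4) ℝ) = 1 := by
    rw [← Units.val_mul, ← hinv, inv_mul_cancel, Units.val_one]
  obtain ⟨k, rfl⟩ : ∃ l, k = l + 1 := ⟨k - 1, by omega⟩
  obtain ⟨a, b, ha, hab, -, h3⟩ := pow_add_pow hpq hqp (E_mul_E hne) hs hp k
  have hb : 0 < b := ha.trans_lt hab
  rw [← inv_pow, hinv, Units.val_pow_eq_pow_val] at h2
  rw [Units.val_pow_eq_pow_val] at h1
  have h4 := (h1.add h2).sub ((RatIn.one P).smul 2)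
  rw [h3] at h4
  have h5 : (2 : ℝ) • (1 : Matrix (Fin 4) (Fin 4) ℝ) + (b : ℝ) • E c d -
      ((2 : ℚ) : ℝ) • (1 : Matrix (Fin 4) (Fin 4) ℝ) = (b : ℝ) • E c d := by
    push_cast
    abel
  rw [h5] at h4
  exact h4.of_smul rfl (by exact_mod_cast hb.ne')

theorem EEE_u {u v a : V} (huu : B u u = 156) (hvv : B v v = 52) (haa : B a a = 2)
    (huv : B u v = -130) (hua : B u a = -26) (hva : B v a = 0) :
    E u a * E u v * E u a - (25 / 7 : ℝ) • E u a = (-3 / 182 : ℝ) • Trk u u := by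
  apply mat_ext
  intro x
  rw [Matrix.sub_mulVec, Matrix.smul_mulVec, Matrix.smul_mulVec, ← Matrix.mulVec_mulVec,
    ← Matrix.mulVec_mulVec, E_mulVec u a x, E_mulVec u v, E_mulVec u a, Trk_mulVec]
  simp only [B_add_left, B_smul_left, B_comm v u, B_comm a u, B_comm a v, huu, hvv, haa, huv,
    hua, hva]
  match_scalars <;> ring

theorem EEE_v {u v d : V} (huu : B u u = 156) (hvv : B v v = 52) (hdd : B d d = 2)
    (huv : B u v = -130) (hud : B u d = 0) (hvd : B v d = -26) :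
    E v d * E v u * E v d - (25 / 11 : ℝ) • E v d = (-7 / 286 : ℝ) • Trk v v := by
  apply mat_ext
  intro x
  rw [Matrix.sub_mulVec, Matrix.smul_mulVec, Matrix.smul_mulVec, ← Matrix.mulVec_mulVec,
    ← Matrix.mulVec_mulVec, E_mulVec v d x, E_mulVec v u, E_mulVec v d, Trk_mulVec]
  simp only [B_add_left, B_smul_left, B_comm v u, B_comm d u, B_comm d v, huu, hvv, hdd, huv,
    hud, hvd]
  match_scalars <;> ring

theorem trace_reflection {g : G} (hg : IsReflection g) :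
    (g : Matrix (Fin 4) (Fin 4) ℝ).trace = 2 := by
  obtain ⟨e, he, rfl⟩ := hg.exists_R
  have h : (R e : Matrix (Fin 4) (Fin 4) ℝ).trace = 4 - 2 / B e e * B e e := by
    change (reflMat e).trace = _
    simp only [Matrix.trace, Fin.sum_univ_four, Matrix.diag_apply]
    simp [reflMat, Matrix.of_apply]
    unfold B
    ring
  rw [h, div_mul_cancel₀ _ he.ne']
  norm_num

/-- The identity is a rational combination of the rank one operators of the four vectors. -/
theorem one_eq_sum {u v a d : V} (huu : B u u = 156) (hvv : B v v = 52) (haa : B a a = 2)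
    (hdd : B d d = 2) (huv : B u v = -130) (hua : B u a = -26) (hud : B u d = 0)
    (hva : B v a = 0) (hvd : B v d = -26) (had : B a d = -1) :
    ∃ N : Matrix (Fin 4) (Fin 4) ℚ,
      ∑ i, ∑ j, (N i j : ℝ) • Trk (![u, v, a, d] i) (![u, v, a, d] j) = 1 := by
  let N : Matrix (Fin 4) (Fin 4) ℚ := !![23 / 507, -41 / 1014, 17 / 39, -4 / 13;
    -41 / 1014, 17 / 507, -16 / 39, 3 / 13; 17 / 39, -16 / 39, 14 / 3, -3;
    -4 / 13, 3 / 13, -3, 2]
  let N' : Matrix (Fin 4) (Fin 4) ℝ := N.map (fun q : ℚ => (q : ℝ))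
  let C : Matrix (Fin 4) (Fin 4) ℝ := Matrix.of fun i j => (![u, v, a, d] j) i
  have hG : Cᵀ * J * C = !![156, -130, -26, 0; -130, 52, 0, -26; -26, 0, 2, -1;
      0, -26, -1, 2] := by
    have hB : ∀ i j, (Cᵀ * J * C) i j = B (![u, v, a, d] i) (![u, v, a, d] j) := by
      intro i j
      simp only [Matrix.mul_apply, Fin.sum_univ_four, C, Matrix.transpose_apply, Matrix.of_apply,
        J, Matrix.diagonal_apply, B]
      simp
    ext i j
    rw [hB]
    fin_cases i <;> fin_cases j <;>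
      simp [huu, hvv, haa, hdd, huv, hua, hud, hva, hvd, had, B_comm v u, B_comm a u, B_comm a v,
        B_comm d u, B_comm d v, B_comm d a]
  have hN : N' * (Cᵀ * J * C) = 1 := by
    rw [hG]
    ext i j
    fin_cases i <;> fin_cases j <;>
      simp [N', N, Matrix.mul_apply, Fin.sum_univ_four] <;> norm_num
  have hN2 : C * (N' * Cᵀ * J) = 1 := by
    rw [mul_eq_one_comm]
    simp only [Matrix.mul_assoc] at hN ⊢
    exact hN
  refine ⟨N, ?_⟩
  rw [← hN2]
  apply mat_ext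
  intro x
  have hBx : ∀ j, (Cᵀ *ᵥ (J *ᵥ x)) j = B x (![u, v, a, d] j) := by
    intro j
    rw [B_comm, B_eq_J]
    rfl
  rw [← Matrix.mulVec_mulVec, ← Matrix.mulVec_mulVec, ← Matrix.mulVec_mulVec]
  ext k
  have hC : ∀ y : V, (C *ᵥ y) k = ∑ i, (![u, v, a, d] i) k * y i := by
    intro y
    rfl
  have hNy : ∀ (y : V) (i : Fin 4), (N' *ᵥ y) i = ∑ j, (N i j : ℝ) * y j := by
    intro y i
    rfl
  rw [hC, Matrix.sum_mulVec]
  simp only [Finset.sum_apply]
  refine Finset.sum_congr rfl fun i _ => ?_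
  rw [hNy, Matrix.sum_mulVec, Finset.sum_apply, Finset.mul_sum]
  refine Finset.sum_congr rfl fun j _ => ?_
  rw [hBx, Matrix.smul_mulVec, Trk_mulVec]
  simp only [Pi.smul_apply, smul_eq_mul]
  ring

/-- **Rationality.** `P` is a basis in which the Gram matrix of the form is rational, `Γ ≤ M` are
subgroups of `IsomH3`, `M` discrete, `Γ` cobounded and rational in the basis `P`, and `Γ` contains
the reflections in four vectors `u, v, a, d` with the given products, rational in the basis `P`.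
Then every reflection of `M` is rational in the basis `P`. -/
theorem rational_of_reflection (P : G)
    (hP : ∃ A : Matrix (Fin 4) (Fin 4) ℚ, (P : Matrix (Fin 4) (Fin 4) ℝ)ᵀ * J *
      (P : Matrix (Fin 4) (Fin 4) ℝ) = A.map (fun q : ℚ => (q : ℝ)))
    (Γ M : Subgroup G) (hΓM : Γ ≤ M) (hM : M ≤ IsomH3) (hd : Disc M) (hc : Cobdd Γ)
    (hrat : ∀ γ ∈ Γ, RatIn P (γ : G))
    (u v a d : V) (hu : RatVec P u) (hv : RatVec P v) (ha : RatVec P a) (hd' : RatVec P d)
    (huu : B u u = 156) (hvv : B v v = 52) (haa : B a a = 2) (hdd : B d d = 2)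
    (huv : B u v = -130) (hua : B u a = -26) (hud : B u d = 0) (hva : B v a = 0)
    (hvd : B v d = -26) (had : B a d = -1)
    (hRu : R u ∈ Γ) (hRv : R v ∈ Γ) (hRa : R a ∈ Γ) (hRd : R d ∈ Γ)
    {g : G} (hg : g ∈ M) (hgr : IsReflection g) : RatIn P g := by
  -- Step 1: the projections onto the hyperbolic planes
  have key : ∀ (c e : V) (s : ℚ), 0 < s → 0 < B c c → 0 < B e e →
      (s : ℝ) = 4 * B c e ^ 2 / (B c c * B e e) - 4 → R c ∈ Γ → R e ∈ Γ →
      ∀ γ ∈ M, RatIn (γ⁻¹ * P) (E c e) := by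
    intro c e s hs hcc hee hse hRc hRe γ hγ
    obtain ⟨k, hk, hkm⟩ := exists_pow_conj_mem hΓM hM hd hc hγ (hΓM (Γ.mul_mem hRc hRe))
    apply ratIn_E hs hcc hee hse hk
    · rw [ratIn_conj]
      have := hrat _ hkm
      rwa [Units.val_mul, Units.val_mul] at this
    · rw [ratIn_conj]
      have := hrat _ (Γ.inv_mem hkm)
      have e1 : (γ * (R c * R e) ^ k * γ⁻¹)⁻¹ = γ * ((R c * R e) ^ k)⁻¹ * γ⁻¹ := by
        rw [_root_.mul_inv_rev, _root_.mul_inv_rev, _root_.inv_inv, ← mul_assoc]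
      rw [e1] at this
      rwa [Units.val_mul, Units.val_mul] at this
  -- Step 2: the projections onto the lines `u` and `v`
  have hTu' : ∀ γ ∈ M, RatIn (γ⁻¹ * P) (Trk u u) := by
    intro γ hγ
    have h1 := key u a (14 / 3) (by norm_num) (by rw [huu]; norm_num) (by rw [haa]; norm_num)
      (by rw [huu, haa, hua]; norm_num) hRu hRa γ hγ
    have h2 := key u v (13 / 3) (by norm_num) (by rw [huu]; norm_num) (by rw [hvv]; norm_num)
      (by rw [huu, hvv, huv]; norm_num) hRu hRv γ hγ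
    have h3 := ((h1.mul h2).mul h1).sub (h1.smul (25 / 7))
    have h4 := EEE_u huu hvv haa huv hua hva
    have e : ((25 / 7 : ℚ) : ℝ) = 25 / 7 := by push_cast; ring
    rw [e, h4] at h3
    exact h3.of_smul (q := -3 / 182) (by push_cast; ring) (by norm_num)
  have hTv' : ∀ γ ∈ M, RatIn (γ⁻¹ * P) (Trk v v) := by
    intro γ hγ
    have h1 := key v d 22 (by norm_num) (by rw [hvv]; norm_num) (by rw [hdd]; norm_num)
      (by rw [hvv, hdd, hvd]; norm_num) hRv hRd γ hγ
    have h2 := key v u (13 / 3) (by norm_num) (by rw [hvv]; norm_num) (by rw [huu]; norm_num)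
      (by rw [huu, hvv, B_comm v u, huv]; norm_num) hRv hRu γ hγ
    have h3 := ((h1.mul h2).mul h1).sub (h1.smul (25 / 11))
    have h4 := EEE_v huu hvv hdd huv hud hvd
    have e : ((25 / 11 : ℚ) : ℝ) = 25 / 11 := by push_cast; ring
    rw [e, h4] at h3
    exact h3.of_smul (q := -7 / 286) (by push_cast; ring) (by norm_num)
  have conj : ∀ γ ∈ M, ∀ x : V, RatIn (γ⁻¹ * P) (Trk x x) → RatIn P (Trk (act γ x) (act γ x)) := by
    intro γ hγ x h
    rw [ratIn_conj, mul_T, T_mul_inv (hM hγ).1] at h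
    exact h
  have hTu : ∀ γ ∈ M, RatIn P (Trk (act γ u) (act γ u)) := fun γ hγ => conj γ hγ u (hTu' γ hγ)
  have hTv : ∀ γ ∈ M, RatIn P (Trk (act γ v) (act γ v)) := fun γ hγ => conj γ hγ v (hTv' γ hγ)
  -- Step 3: the four vectors
  have hgB := (hM hg).1
  have hc3 : act (R a) u = u + (26 : ℝ) • a := by
    rw [act_R, hua, haa]
    module
  have hc4 : act (R d) v = v + (26 : ℝ) • d := by
    rw [act_R, hvd, hdd]
    module
  have h1 : RatIn P (Trk (act g u) (act g u)) := hTu g hg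
  have mk : ∀ (x : V) (q : ℚ), RatIn P (Trk (act g x) (act g x)) → (q : ℝ) = B u x → q ≠ 0 →
      RatIn P (Trk (act g x) (act g u)) := by
    intro x q hx hq hq0
    have := hx.mul h1
    rw [T_mul_T, hgB] at this
    exact this.of_smul hq (by rw [← hq]; exact_mod_cast hq0)
  have h2 : RatIn P (Trk (act g v) (act g u)) :=
    mk v (-130) (hTv g hg) (by rw [huv]; norm_num) (by norm_num)
  have h3 : RatIn P (Trk (act g (u + (26 : ℝ) • a)) (act g u)) := by
    apply mk (u + (26 : ℝ) • a) (-520)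
    · rw [← hc3, ← act_mul]
      exact hTu _ (M.mul_mem hg (hΓM hRa))
    · rw [B_add_right, B_smul_right, huu, hua]; norm_num
    · norm_num
  have h4 : RatIn P (Trk (act g (v + (26 : ℝ) • d)) (act g u)) := by
    apply mk (v + (26 : ℝ) • d) (-130)
    · rw [← hc4, ← act_mul]
      exact hTv _ (M.mul_mem hg (hΓM hRd))
    · rw [B_add_right, B_smul_right, huv, hud]; norm_num
    · norm_num
  obtain ⟨N, hN⟩ := one_eq_sum huu hvv haa hdd huv hua hud hva hvd had
  have hb : ∀ i, RatVec P (![u, v, a, d] i) := by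
    intro i
    fin_cases i
    · exact hu
    · exact hv
    · exact ha
    · exact hd'
  -- Step 4: a nonzero product
  obtain ⟨j, hj⟩ : ∃ j, B (![u, v, a, d] j) (act g u) ≠ 0 := by
    by_contra hcon
    push Not at hcon
    have h0 : act g u = 0 := by
      have : (1 : Matrix (Fin 4) (Fin 4) ℝ) *ᵥ act g u = 0 := by
        rw [← hN, Matrix.sum_mulVec]
        refine Finset.sum_eq_zero fun i _ => ?_
        rw [Matrix.sum_mulVec]
        refine Finset.sum_eq_zero fun j _ => ?_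
        rw [Matrix.smul_mulVec, Trk_mulVec, B_comm, hcon j]
        simp
      rwa [Matrix.one_mulVec] at this
    have h5 := hgB u u
    rw [h0, huu] at h5
    simp at h5
  set l := B (![u, v, a, d] j) (act g u) with hl
  have mk2 : ∀ x : V, RatIn P (Trk (act g x) (act g u)) → ∀ y : V, RatVec P y →
      RatIn P (l • Trk (act g x) y) := by
    intro x hx y hy
    have := hx.mul (RatIn.T_of_ratVec hP (hb j) hy)
    rwa [T_mul_T, ← hl] at this
  have q1 := mk2 u h1
  have q2 := mk2 v h2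
  have q3 : ∀ y : V, RatVec P y → RatIn P (l • Trk (act g a) y) := by
    intro y hy
    have := ((mk2 _ h3 y hy).sub (q1 y hy)).smul (1 / 26)
    convert this using 1
    rw [act_add, act_smul, T_add_left, T_smul_left]
    push_cast
    module
  have q4 : ∀ y : V, RatVec P y → RatIn P (l • Trk (act g d) y) := by
    intro y hy
    have := ((mk2 _ h4 y hy).sub (q2 y hy)).smul (1 / 26)
    convert this using 1
    rw [act_add, act_smul, T_add_left, T_smul_left]
    push_cast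
    module
  have hq : ∀ i, ∀ y : V, RatVec P y → RatIn P (l • Trk (act g (![u, v, a, d] i)) y) := by
    intro i
    fin_cases i
    · exact q1
    · exact q2
    · exact q3
    · exact q4
  have hlg : RatIn P (l • (g : Matrix (Fin 4) (Fin 4) ℝ)) := by
    have e : l • (g : Matrix (Fin 4) (Fin 4) ℝ) = ∑ i, ∑ k, (N i k : ℝ) •
        (l • Trk (act g (![u, v, a, d] i)) (![u, v, a, d] k)) := by
      have e1 : l • (g : Matrix (Fin 4) (Fin 4) ℝ) = l • ((g : Matrix (Fin 4) (Fin 4) ℝ) * 1) := by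
        rw [mul_one]
      rw [e1, ← hN, Finset.mul_sum, Finset.smul_sum]
      refine Finset.sum_congr rfl fun i _ => ?_
      rw [Finset.mul_sum, Finset.smul_sum]
      refine Finset.sum_congr rfl fun k _ => ?_
      rw [Matrix.mul_smul, mul_T, smul_comm]
      rfl
    rw [e]
    exact ratIn_sum _ _ fun i _ => ratIn_sum _ _ fun k _ => (hq i _ (hb k)).smul _
  obtain ⟨q, hqq⟩ := hlg.trace
  rw [Matrix.trace_smul, trace_reflection hgr, smul_eq_mul] at hqq
  refine hlg.of_smul (q := q / 2) ?_ hj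
  push_cast
  rw [hqq]
  ring

end QA61
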