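import Pool.Agent.QA61.Basic2

/-!
# Uniform discreteness of the discrete groups containing five given reflections
-/

namespace QA61

open Matrix

/-! ### The entrywise `ℓ¹` norm -/

/-- The sum of the absolute values of the entries. -/
noncomputable def nrm (m : Matrix (Fin 4) (Fin 4) ℝ) : ℝ := ∑ i, ∑ j, |m i j|

theorem nrm_nonneg (m : Matrix (Fin 4) (Fin 4) ℝ) : 0 ≤ nrm m :=
  Finset.sum_nonneg fun _ _ => Finset.sum_nonneg fun _ _ => abs_nonneg _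

theorem entry_le_nrm (m : Matrix (Fin 4) (Fin 4) ℝ) (i j : Fin 4) : |m i j| ≤ nrm m := by
  have h1 : |m i j| ≤ ∑ j, |m i j| :=
    Finset.single_le_sum (f := fun j => |m i j|) (fun _ _ => abs_nonneg _) (Finset.mem_univ j)
  have h2 : ∑ j, |m i j| ≤ nrm m :=
    Finset.single_le_sum (f := fun i => ∑ j, |m i j|)
      (fun _ _ => Finset.sum_nonneg fun _ _ => abs_nonneg _) (Finset.mem_univ i)
  exact h1.trans h2

theorem nrm_mul (a c : Matrix (Fin 4) (Fin 4) ℝ) : nrm (a * c) ≤ nrm a * nrm c := by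
  calc nrm (a * c) ≤ ∑ i, ∑ j, ∑ k, |a i k| * |c k j| := by
        refine Finset.sum_le_sum fun i _ => Finset.sum_le_sum fun j _ => ?_
        rw [Matrix.mul_apply]
        refine (Finset.abs_sum_le_sum_abs _ _).trans (le_of_eq ?_)
        exact Finset.sum_congr rfl fun k _ => abs_mul _ _
    _ = ∑ i, ∑ k, |a i k| * ∑ j, |c k j| := by
        refine Finset.sum_congr rfl fun i _ => ?_
        rw [Finset.sum_comm]
        exact Finset.sum_congr rfl fun k _ => (Finset.mul_sum _ _ _).symm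
    _ ≤ ∑ i, ∑ k, |a i k| * nrm c := by
        refine Finset.sum_le_sum fun i _ => Finset.sum_le_sum fun k _ => ?_
        refine mul_le_mul_of_nonneg_left ?_ (abs_nonneg _)
        exact Finset.single_le_sum (f := fun i => ∑ j, |c i j|)
          (fun _ _ => Finset.sum_nonneg fun _ _ => abs_nonneg _) (Finset.mem_univ k)
    _ = nrm a * nrm c := by
        have e : nrm a = ∑ i, ∑ k, |a i k| := rfl
        rw [e, Finset.sum_mul]
        exact Finset.sum_congr rfl fun i _ => (Finset.sum_mul _ _ _).symm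

theorem nrm_add (a c : Matrix (Fin 4) (Fin 4) ℝ) : nrm (a + c) ≤ nrm a + nrm c := by
  unfold nrm
  rw [← Finset.sum_add_distrib]
  refine Finset.sum_le_sum fun i _ => ?_
  rw [← Finset.sum_add_distrib]
  exact Finset.sum_le_sum fun j _ => abs_add_le _ _

theorem nrm_sub (a c : Matrix (Fin 4) (Fin 4) ℝ) : nrm (a - c) ≤ nrm a + nrm c := by
  unfold nrm
  rw [← Finset.sum_add_distrib]
  refine Finset.sum_le_sum fun i _ => ?_
  rw [← Finset.sum_add_distrib]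
  exact Finset.sum_le_sum fun j _ => abs_sub _ _

theorem nrm_one : nrm 1 = 4 := by
  simp [nrm, Matrix.one_apply, Fin.sum_univ_four]
  norm_num

theorem nrm_eq_zero {m : Matrix (Fin 4) (Fin 4) ℝ} (h : nrm m = 0) : m = 0 := by
  ext i j
  have := entry_le_nrm m i j
  rw [h] at this
  simpa using this

theorem nrm_lt {m : Matrix (Fin 4) (Fin 4) ℝ} {δ : ℝ} (h : ∀ i j, |m i j| < δ) :
    nrm m ≤ 16 * δ := by
  calc nrm m ≤ ∑ _i : Fin 4, ∑ _j : Fin 4, δ :=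
        Finset.sum_le_sum fun i _ => Finset.sum_le_sum fun j _ => (h i j).le
    _ = 16 * δ := by simp; ring

theorem nrm_inv {g : G} (hg : g ∈ IsomH3) :
    nrm ((g⁻¹ : G) : Matrix (Fin 4) (Fin 4) ℝ) = nrm (g : Matrix (Fin 4) (Fin 4) ℝ) := by
  unfold nrm
  rw [Finset.sum_comm]
  exact Finset.sum_congr rfl fun i _ => Finset.sum_congr rfl fun j _ => inv_entry hg.1 j i

/-! ### Scalar isometries -/

theorem z2 (a b c d : ℝ) (h : a ^ 2 = b ^ 2) (h2 : -(a * a) + b * b + c * c + d * d = 0) :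
    c = 0 ∧ d = 0 := by
  have h3 : c ^ 2 + d ^ 2 = 0 := by
    have e1 : a ^ 2 = a * a := sq a
    have e2 : b ^ 2 = b * b := sq b
    have e3 : c ^ 2 = c * c := sq c
    have e4 : d ^ 2 = d * d := sq d
    linarith
  have hc : c ^ 2 = 0 := le_antisymm (by linarith [sq_nonneg d]) (sq_nonneg c)
  have hd : d ^ 2 = 0 := le_antisymm (by linarith [sq_nonneg c]) (sq_nonneg d)
  exact ⟨pow_eq_zero_iff two_ne_zero |>.mp hc, pow_eq_zero_iff two_ne_zero |>.mp hd⟩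

theorem z3 {a : ℝ} (ha : 0 < a) (h : -a ^ 2 + 0 ^ 2 + 0 ^ 2 + 0 ^ 2 = -1) : a = 1 := by
  have h1 : (a - 1) * (a + 1) = 0 := by ring_nf; ring_nf at h; linarith
  rcases mul_eq_zero.mp h1 with h2 | h2 <;> linarith

/-- An isometry for which every null vector is orthogonal to its image is the identity. -/
theorem eq_one_of_null {g : G} (hg : g ∈ IsomH3)
    (h : ∀ v, B v v = 0 → B (act g v) v = 0) : g = 1 := by
  set m : Matrix (Fin 4) (Fin 4) ℝ := (g : Matrix (Fin 4) (Fin 4) ℝ) with hm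
  have hact : ∀ v i, act g v i = m i 0 * v 0 + m i 1 * v 1 + m i 2 * v 2 + m i 3 * v 3 := by
    intro v i
    simp [act, Matrix.mulVec, dotProduct, Fin.sum_univ_four, hm]
  have key : ∀ v, B v v = 0 → B (act g v) v = 0 ∧ B (act g v) (act g v) = 0 := fun v hv =>
    ⟨h v hv, by rw [hg.1]; exact hv⟩
  have k1 := key ![1, 1, 0, 0] (by simp [B])
  have k2 := key ![1, -1, 0, 0] (by simp [B])
  have k3 := key ![1, 0, 1, 0] (by simp [B])
  have k4 := key ![1, 0, -1, 0] (by simp [B])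
  have k5 := key ![1, 0, 0, 1] (by simp [B])
  have k6 := key ![1, 0, 0, -1] (by simp [B])
  simp only [B, hact] at k1 k2 k3 k4 k5 k6
  simp at k1 k2 k3 k4 k5 k6
  obtain ⟨k1a, k1b⟩ := k1
  obtain ⟨k2a, k2b⟩ := k2
  obtain ⟨k3a, k3b⟩ := k3
  obtain ⟨k4a, k4b⟩ := k4
  obtain ⟨k5a, k5b⟩ := k5
  obtain ⟨k6a, k6b⟩ := k6
  obtain ⟨a1, a2⟩ := z2 (m 0 0 + m 0 1) (m 1 0 + m 1 1) (m 2 0 + m 2 1) (m 3 0 + m 3 1)
    (by rw [show m 0 0 + m 0 1 = m 1 0 + m 1 1 by linarith]) (by linarith)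
  obtain ⟨a3, a4⟩ := z2 (m 0 0 + -m 0 1) (m 1 0 + -m 1 1) (m 2 0 + -m 2 1) (m 3 0 + -m 3 1)
    (by rw [show m 0 0 + -m 0 1 = -(m 1 0 + -m 1 1) by linarith]; ring) (by linarith)
  obtain ⟨a5, a6⟩ := z2 (m 0 0 + m 0 2) (m 2 0 + m 2 2) (m 1 0 + m 1 2) (m 3 0 + m 3 2)
    (by rw [show m 0 0 + m 0 2 = m 2 0 + m 2 2 by linarith]) (by linarith)
  obtain ⟨a7, a8⟩ := z2 (m 0 0 + -m 0 2) (m 2 0 + -m 2 2) (m 1 0 + -m 1 2) (m 3 0 + -m 3 2)
    (by rw [show m 0 0 + -m 0 2 = -(m 2 0 + -m 2 2) by linarith]; ring) (by linarith)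
  obtain ⟨a9, a10⟩ := z2 (m 0 0 + m 0 3) (m 3 0 + m 3 3) (m 1 0 + m 1 3) (m 2 0 + m 2 3)
    (by rw [show m 0 0 + m 0 3 = m 3 0 + m 3 3 by linarith]) (by linarith)
  obtain ⟨a11, a12⟩ := z2 (m 0 0 + -m 0 3) (m 3 0 + -m 3 3) (m 1 0 + -m 1 3) (m 2 0 + -m 2 3)
    (by rw [show m 0 0 + -m 0 3 = -(m 3 0 + -m 3 3) by linarith]; ring) (by linarith)
  have hpos : 0 < m 0 0 := entry_zero_zero_pos hg
  have hcol := col_eq hg 0
  rw [if_pos rfl] at hcol
  have c10 : m 1 0 = 0 := by linarith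
  have c20 : m 2 0 = 0 := by linarith
  have c30 : m 3 0 = 0 := by linarith
  have c00 : m 0 0 = 1 := by
    have : -(m 0 0) ^ 2 + m 1 0 ^ 2 + m 2 0 ^ 2 + m 3 0 ^ 2 = -1 := hcol
    rw [c10, c20, c30] at this
    exact z3 hpos this
  have c01 : m 0 1 = 0 := by linarith
  have c02 : m 0 2 = 0 := by linarith
  have c03 : m 0 3 = 0 := by linarith
  have c11 : m 1 1 = 1 := by linarith
  have c22 : m 2 2 = 1 := by linarith
  have c33 : m 3 3 = 1 := by linarith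
  have c21 : m 2 1 = 0 := by linarith
  have c31 : m 3 1 = 0 := by linarith
  have c12 : m 1 2 = 0 := by linarith
  have c32 : m 3 2 = 0 := by linarith
  have c13 : m 1 3 = 0 := by linarith
  have c23 : m 2 3 = 0 := by linarith
  apply Units.ext
  ext i j
  fin_cases i <;> fin_cases j <;> simp [Matrix.one_apply] <;> assumption

/-- The core of the argument: if `g` commutes with `g R_e g⁻¹ R_e` and `B(ge,e) ≠ 0` then
`g e + g⁻¹ e` is a multiple of `e`. -/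
theorem eigen_of_comm {g : G} (hg : g ∈ IsomH3) {e : V} (he : 0 < B e e)
    (hne : B (act g e) e ≠ 0) (hcomm : g * (g * R e * g⁻¹ * R e) = (g * R e * g⁻¹ * R e) * g) :
    ∃ α : ℝ, act g e + act g⁻¹ e = α • e := by
  have h1 : g * R e * g⁻¹ = R (act g e) := conj_R hg.1 e
  have h2 : g * (g * R e * g⁻¹) * g⁻¹ = R (act g (act g e)) := by rw [h1, conj_R hg.1]
  have h3 : R (act g (act g e)) * R (act g e) = R (act g e) * R e := by
    rw [← h2, ← h1]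
    calc g * (g * R e * g⁻¹) * g⁻¹ * (g * R e * g⁻¹)
        = g * (g * R e * g⁻¹ * R e) * g⁻¹ := by group
      _ = (g * R e * g⁻¹ * R e) * g * g⁻¹ := by rw [hcomm]
      _ = _ := by group
  have h4 : R (act g (act g e)) = R (act (R (act g e)) e) := by
    rw [← conj_R (B_R (act g e)) e, ← h3, mul_assoc, R_inv, R_mul_self, mul_one]
  have hB1 : B (act g (act g e)) (act g (act g e)) = B e e := by rw [hg.1, hg.1]
  have hB2 : B (act (R (act g e)) e) (act (R (act g e)) e) = B e e := B_R _ _ _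
  have h5 := R_eq_R (e := act (R (act g e)) e) (f := act g (act g e)) (by rw [hB2]; exact he)
    (by rw [hB1, hB2]) h4.symm
  have hBg : B (act g e) (act g e) = B e e := hg.1 _ _
  set κ := 2 * B e (act g e) / B e e with hκ
  have h6 : act (R (act g e)) e = e - κ • act g e := by rw [act_R, hBg]
  rw [h6] at h5
  rcases h5 with h5 | h5
  · exfalso
    have h7 : B (act g (act g e)) (act g e) = B (act g e) e := hg.1 _ _
    rw [h5, B_sub_left, B_smul_left, hBg, hκ, B_comm e (act g e)] at h7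
    field_simp at h7
    apply hne
    linarith
  · refine ⟨κ, ?_⟩
    have h7 : act g⁻¹ (act g (act g e)) = act g e := act_inv_act _ _
    rw [h5, act_neg, act_sub, act_smul, act_inv_act] at h7
    have h8 : act g e = -(act g⁻¹ e - κ • e) := h7.symm
    rw [h8]
    module

/-- If `g + g⁻¹` has five eigenvectors in general position then `g = 1`. -/
theorem eq_one_of_eigen {g : G} (hg : g ∈ IsomH3) (c : Fin 5 → V)
    (hli : LinearIndependent ℝ (fun i : Fin 4 => c i.castSucc))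
    (x : Fin 4 → ℝ) (hx : ∀ i, x i ≠ 0) (hc4 : c 4 = ∑ i : Fin 4, x i • c i.castSucc)
    (h : ∀ i, ∃ α : ℝ, act g (c i) + act g⁻¹ (c i) = α • c i) : g = 1 := by
  choose α hα using h
  have hsum : ∀ (k : G) (y : Fin 4 → ℝ), act k (∑ i : Fin 4, y i • c i.castSucc) =
      ∑ i : Fin 4, y i • act k (c i.castSucc) := by
    intro k y
    simp only [Fin.sum_univ_four, act_add, act_smul]
  have hall : ∀ i : Fin 4, α i.castSucc = α 4 := by
    have h1 := hα 4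
    rw [hc4, hsum, hsum, ← Finset.sum_add_distrib, Finset.smul_sum] at h1
    have h2 : ∑ i : Fin 4, (x i * (α i.castSucc - α 4)) • c i.castSucc = 0 := by
      rw [← sub_eq_zero, ← Finset.sum_sub_distrib] at h1
      rw [← h1]
      refine Finset.sum_congr rfl fun i _ => ?_
      rw [← smul_add, hα i.castSucc]
      module
    intro i
    have h3 := Fintype.linearIndependent_iff.mp hli _ h2 i
    rcases mul_eq_zero.mp h3 with h4 | h4
    · exact absurd h4 (hx i)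
    · linarith
  have hspan : ∀ v : V, ∃ y : Fin 4 → ℝ, v = ∑ i : Fin 4, y i • c i.castSucc := by
    intro v
    have htop := hli.span_eq_top_of_card_eq_finrank' (by simp)
    have hv : v ∈ Submodule.span ℝ (Set.range fun i : Fin 4 => c i.castSucc) := by
      rw [htop]; trivial
    obtain ⟨y, hy⟩ := (Submodule.mem_span_range_iff_exists_fun ℝ).mp hv
    exact ⟨y, hy.symm⟩
  have hL : ∀ v : V, act g v + act g⁻¹ v = α 4 • v := by
    intro v
    obtain ⟨y, rfl⟩ := hspan v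
    rw [hsum, hsum, ← Finset.sum_add_distrib, Finset.smul_sum]
    refine Finset.sum_congr rfl fun i _ => ?_
    rw [← smul_add, hα i.castSucc, hall i]
    module
  apply eq_one_of_null hg
  intro v hv
  have h1 : B (act g v + act g⁻¹ v) v = 0 := by rw [hL, B_smul_left, hv, mul_zero]
  have h2 : B (act g⁻¹ v) v = B (act g v) v := by
    rw [← hg.1 (act g⁻¹ v) v, act_act_inv, B_comm]
  rw [B_add_left, h2] at h1
  linarith

/-! ### The estimates -/

theorem aux3 {t r x y z p q a c : ℝ} (h1 : t ≤ r * c) (h2 : r ≤ x * a) (h3 : x ≤ y + z)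
    (h4 : y ≤ p * q) (h5 : z ≤ q * p) (_hp : 0 ≤ p) (_hq : 0 ≤ q) (ha : 0 ≤ a) (hc : 0 ≤ c) :
    t ≤ 2 * p * q * a * c := by
  have h6 : x ≤ 2 * p * q := by linarith
  have h7 : r ≤ 2 * p * q * a := h2.trans (mul_le_mul_of_nonneg_right h6 ha)
  exact h1.trans (mul_le_mul_of_nonneg_right h7 hc)

theorem nrm_sub_one_comm_le {a c : G} (ha : a ∈ IsomH3) (hc : c ∈ IsomH3) :
    nrm (((a * c * a⁻¹ * c⁻¹ : G) : Matrix (Fin 4) (Fin 4) ℝ) - 1) ≤
      2 * nrm ((a : Matrix (Fin 4) (Fin 4) ℝ) - 1) * nrm ((c : Matrix (Fin 4) (Fin 4) ℝ) - 1) *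
        nrm (a : Matrix (Fin 4) (Fin 4) ℝ) * nrm (c : Matrix (Fin 4) (Fin 4) ℝ) := by
  set A : Matrix (Fin 4) (Fin 4) ℝ := (a : Matrix (Fin 4) (Fin 4) ℝ)
  set C : Matrix (Fin 4) (Fin 4) ℝ := (c : Matrix (Fin 4) (Fin 4) ℝ)
  set A' : Matrix (Fin 4) (Fin 4) ℝ := ((a⁻¹ : G) : Matrix (Fin 4) (Fin 4) ℝ)
  set C' : Matrix (Fin 4) (Fin 4) ℝ := ((c⁻¹ : G) : Matrix (Fin 4) (Fin 4) ℝ)
  have hAA : A * A' = 1 := by rw [← Units.val_mul, mul_inv_cancel, Units.val_one]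
  have hCC : C * C' = 1 := by rw [← Units.val_mul, mul_inv_cancel, Units.val_one]
  have e : ((a * c * a⁻¹ * c⁻¹ : G) : Matrix (Fin 4) (Fin 4) ℝ) - 1 =
      ((A - 1) * (C - 1) - (C - 1) * (A - 1)) * A' * C' := by
    have e1 : ((a * c * a⁻¹ * c⁻¹ : G) : Matrix (Fin 4) (Fin 4) ℝ) = A * C * A' * C' := by
      simp only [Units.val_mul]; rfl
    have e2 : (A - 1) * (C - 1) - (C - 1) * (A - 1) = A * C - C * A := by noncomm_ring
    rw [e1, e2, sub_mul, sub_mul, mul_assoc C A A', hAA, mul_one, hCC]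
  rw [e]
  have hA' : nrm A' = nrm A := nrm_inv ha
  have hC' : nrm C' = nrm C := nrm_inv hc
  have h1 := nrm_mul (((A - 1) * (C - 1) - (C - 1) * (A - 1)) * A') C'
  have h2 := nrm_mul ((A - 1) * (C - 1) - (C - 1) * (A - 1)) A'
  have h3 := nrm_sub ((A - 1) * (C - 1)) ((C - 1) * (A - 1))
  have h4 := nrm_mul (A - 1) (C - 1)
  have h5 := nrm_mul (C - 1) (A - 1)
  rw [hC'] at h1
  rw [hA'] at h2
  exact aux3 h1 h2 h3 h4 h5 (nrm_nonneg _) (nrm_nonneg _) (nrm_nonneg _) (nrm_nonneg _)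

theorem nrm_le_of_sub_one {m : Matrix (Fin 4) (Fin 4) ℝ} : nrm m ≤ 4 + nrm (m - 1) := by
  have h := nrm_add (m - 1) 1
  rw [sub_add_cancel, nrm_one] at h
  linarith

theorem aux4 {a n r m : ℝ} (h : n ≤ r + 4) (ha : 0 ≤ a) (hm : 0 ≤ m) (hr : 0 ≤ r) :
    2 * a * n * m * r ≤ 2 * a * (r + 4) * m * r := by
  gcongr

/-- The commutator `g R_e g⁻¹ R_e`. -/
theorem nrm_h_le {g : G} (hg : g ∈ IsomH3) {e : V} (he : 0 < B e e) :
    nrm (((g * R e * g⁻¹ * R e : G) : Matrix (Fin 4) (Fin 4) ℝ) - 1) ≤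
      2 * nrm ((g : Matrix (Fin 4) (Fin 4) ℝ) - 1) * (nrm ((R e : G) : Matrix (Fin 4) (Fin 4) ℝ) + 4)
        * nrm (g : Matrix (Fin 4) (Fin 4) ℝ) * nrm ((R e : G) : Matrix (Fin 4) (Fin 4) ℝ) := by
  have h := nrm_sub_one_comm_le hg (R_mem he)
  rw [R_inv] at h
  refine h.trans ?_
  have h2 := nrm_sub ((R e : G) : Matrix (Fin 4) (Fin 4) ℝ) 1
  rw [nrm_one] at h2
  exact aux4 h2 (nrm_nonneg _) (nrm_nonneg _) (nrm_nonneg _)

theorem B_act_sub_le (g : G) (e : V) :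
    |B (act g e) e - B e e| ≤ nrm ((g : Matrix (Fin 4) (Fin 4) ℝ) - 1) * (∑ i, |e i|) ^ 2 := by
  have h1 : ∀ i, |act g e i - e i| ≤ nrm ((g : Matrix (Fin 4) (Fin 4) ℝ) - 1) * ∑ i, |e i| := by
    intro i
    have e1 : act g e i - e i = ∑ j, ((g : Matrix (Fin 4) (Fin 4) ℝ) - 1) i j * e j := by
      have : act g e - e = ((g : Matrix (Fin 4) (Fin 4) ℝ) - 1) *ᵥ e := by
        rw [Matrix.sub_mulVec, Matrix.one_mulVec]; rfl
      have := congrFun this i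
      simpa [Matrix.mulVec, dotProduct] using this
    rw [e1, Finset.mul_sum]
    refine (Finset.abs_sum_le_sum_abs _ _).trans (Finset.sum_le_sum fun j _ => ?_)
    rw [abs_mul]
    exact mul_le_mul_of_nonneg_right (entry_le_nrm _ i j) (abs_nonneg _)
  have h2 : B (act g e) e - B e e = -((act g e 0 - e 0) * e 0) + (act g e 1 - e 1) * e 1 +
      (act g e 2 - e 2) * e 2 + (act g e 3 - e 3) * e 3 := by
    unfold B; ring
  have h3 : ∀ i, |(act g e i - e i) * e i| ≤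
      (nrm ((g : Matrix (Fin 4) (Fin 4) ℝ) - 1) * ∑ i, |e i|) * |e i| := by
    intro i
    rw [abs_mul]
    exact mul_le_mul_of_nonneg_right (h1 i) (abs_nonneg _)
  rw [h2]
  have h4 : |-((act g e 0 - e 0) * e 0) + (act g e 1 - e 1) * e 1 +
      (act g e 2 - e 2) * e 2 + (act g e 3 - e 3) * e 3| ≤
      |(act g e 0 - e 0) * e 0| + |(act g e 1 - e 1) * e 1| +
      |(act g e 2 - e 2) * e 2| + |(act g e 3 - e 3) * e 3| := by
    refine (abs_add_le _ _).trans (add_le_add ((abs_add_le _ _).trans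
      (add_le_add ((abs_add_le _ _).trans (add_le_add ?_ le_rfl)) le_rfl)) le_rfl)
    rw [abs_neg]
  refine h4.trans ?_
  have h5 : (nrm ((g : Matrix (Fin 4) (Fin 4) ℝ) - 1) * (∑ i, |e i|) ^ 2) =
      (nrm ((g : Matrix (Fin 4) (Fin 4) ℝ) - 1) * ∑ i, |e i|) * |e 0| +
      (nrm ((g : Matrix (Fin 4) (Fin 4) ℝ) - 1) * ∑ i, |e i|) * |e 1| +
      (nrm ((g : Matrix (Fin 4) (Fin 4) ℝ) - 1) * ∑ i, |e i|) * |e 2| +
      (nrm ((g : Matrix (Fin 4) (Fin 4) ℝ) - 1) * ∑ i, |e i|) * |e 3| := by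
    rw [Fin.sum_univ_four]; ring
  rw [h5]
  linarith [h3 0, h3 1, h3 2, h3 3]

theorem aux5 {η C S : ℝ} (h0 : 0 < η) (hC : 0 ≤ C) (hS : 0 ≤ S) (h : η * (1 + C + S) ≤ 1) :
    η ≤ 1 ∧ η * C < 1 ∧ η * S < 1 := by
  have h1 : 0 ≤ η * C := mul_nonneg h0.le hC
  have h2 : 0 ≤ η * S := mul_nonneg h0.le hS
  have h3 : η * (1 + C + S) = η + η * C + η * S := by ring
  refine ⟨by linarith, by linarith, by linarith⟩

theorem aux6 {D : ℝ} (hD : D ≠ 0) : 16 * (1 / (16 * D)) * D = 1 := by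
  field_simp

theorem aux1 {η n m K : ℝ} (hη : 0 ≤ η) (hn : 0 ≤ n) (hnK : n ≤ K) (hm : 0 ≤ m) (hm5 : m ≤ 5) :
    2 * η * (n + 4) * m * n ≤ 2 * η * (K + 4) * 5 * K := by
  have : 0 ≤ K := hn.trans hnK
  gcongr

theorem aux2 {η n m p K L : ℝ} (hη : 0 ≤ η) (hn : 0 ≤ n) (hnK : n ≤ K) (hm : 0 ≤ m) (hm5 : m ≤ 5)
    (hp : 0 ≤ p) (hpL : p ≤ L) :
    2 * η * n * m * p ≤ 2 * η * K * 5 * L := by
  have : 0 ≤ K := hn.trans hnK
  gcongr

/-- **Uniform discreteness.** `c 0, …, c 3` is a basis of `ℝ⁴` of spacelike vectors, `c 4` a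
spacelike vector all of whose coordinates in this basis are nonzero. There is `δ > 0` such that
no discrete subgroup of `IsomH3` containing the five reflections `R (c i)` has an element `≠ 1`
which is entrywise `δ`-close to `1`. -/
theorem uniform_discrete (c : Fin 5 → V) (hc : ∀ i, 0 < B (c i) (c i))
    (hli : LinearIndependent ℝ (fun i : Fin 4 => c i.castSucc))
    (x : Fin 4 → ℝ) (hx : ∀ i, x i ≠ 0) (hc4 : c 4 = ∑ i : Fin 4, x i • c i.castSucc) :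
    ∃ δ > 0, ∀ Γ : Subgroup G, Γ ≤ IsomH3 → Disc Γ → (∀ i, R (c i) ∈ Γ) →
      ∀ g ∈ Γ, (∀ i j, |(g : Matrix (Fin 4) (Fin 4) ℝ) i j -
        (1 : Matrix (Fin 4) (Fin 4) ℝ) i j| < δ) → g = 1 := by
  -- constants
  set K : ℝ := ∑ i, nrm ((R (c i) : G) : Matrix (Fin 4) (Fin 4) ℝ) with hK
  have hK0 : 0 ≤ K := Finset.sum_nonneg fun _ _ => nrm_nonneg _
  have hKi : ∀ i, nrm ((R (c i) : G) : Matrix (Fin 4) (Fin 4) ℝ) ≤ K := fun i =>
    Finset.single_le_sum (f := fun i => nrm ((R (c i) : G) : Matrix (Fin 4) (Fin 4) ℝ))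
      (fun _ _ => nrm_nonneg _) (Finset.mem_univ i)
  set C1 : ℝ := 10 * (K + 4) * K with hC1
  have hC10 : 0 ≤ C1 := mul_nonneg (mul_nonneg (by norm_num) (by linarith)) hK0
  set C2 : ℝ := 10 * C1 * (4 + C1) with hC2
  have hC20 : 0 ≤ C2 := mul_nonneg (mul_nonneg (by norm_num) hC10) (by linarith)
  set S : ℝ := ∑ i, (∑ j, |c i j|) ^ 2 / B (c i) (c i) with hS
  have hS0 : 0 ≤ S := Finset.sum_nonneg fun i _ => div_nonneg (sq_nonneg _) (hc i).le
  have hSi : ∀ i, (∑ j, |c i j|) ^ 2 ≤ S * B (c i) (c i) := by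
    intro i
    rw [← div_le_iff₀ (hc i)]
    exact Finset.single_le_sum (f := fun i => (∑ j, |c i j|) ^ 2 / B (c i) (c i))
      (fun i _ => div_nonneg (sq_nonneg _) (hc i).le) (Finset.mem_univ i)
  set δ : ℝ := 1 / (16 * (1 + C2 + S)) with hδ
  have hpos : 0 < 1 + C2 + S := by linarith
  have hδ0 : 0 < δ := one_div_pos.mpr (mul_pos (by norm_num) hpos)
  have h16 : 16 * δ * (1 + C2 + S) = 1 := aux6 hpos.ne'
  refine ⟨δ, hδ0, fun Γ hΓ hd hcΓ g0 hg0 hg0δ => ?_⟩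
  by_contra hne0
  -- a minimal element
  set F := {γ : G | (γ ∈ Γ ∧ ∀ i j, |(γ : Matrix (Fin 4) (Fin 4) ℝ) i j| ≤ 1 + 16 * δ) ∧
    γ ≠ 1 ∧ nrm ((γ : Matrix (Fin 4) (Fin 4) ℝ) - 1) ≤ 16 * δ} with hF
  have hfin : F.Finite := (finite_of_entries hΓ hd (1 + 16 * δ)).subset fun γ hγ => hγ.1
  have hmemF : ∀ γ ∈ Γ, γ ≠ 1 → nrm ((γ : Matrix (Fin 4) (Fin 4) ℝ) - 1) ≤ 16 * δ → γ ∈ F := by
    intro γ hγ hne hn
    refine ⟨⟨hγ, fun i j => ?_⟩, hne, hn⟩
    have h1 := (entry_le_nrm ((γ : Matrix (Fin 4) (Fin 4) ℝ) - 1) i j).trans hn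
    rw [Matrix.sub_apply] at h1
    have h2 : |(1 : Matrix (Fin 4) (Fin 4) ℝ) i j| ≤ 1 := by
      rw [Matrix.one_apply]; split_ifs <;> simp
    calc |(γ : Matrix (Fin 4) (Fin 4) ℝ) i j| =
        |(1 : Matrix (Fin 4) (Fin 4) ℝ) i j + ((γ : Matrix (Fin 4) (Fin 4) ℝ) i j -
          (1 : Matrix (Fin 4) (Fin 4) ℝ) i j)| := by congr 1; ring
      _ ≤ _ := abs_add_le _ _
      _ ≤ _ := add_le_add h2 h1
  have hg0F : g0 ∈ F := hmemF g0 hg0 hne0 (nrm_lt hg0δ)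
  obtain ⟨g, ⟨⟨hgΓ, -⟩, hg1, hgn⟩, hmin⟩ := Set.exists_min_image F
    (fun γ => nrm ((γ : Matrix (Fin 4) (Fin 4) ℝ) - 1)) hfin ⟨g0, hg0F⟩
  have hg := hΓ hgΓ
  set η := nrm ((g : Matrix (Fin 4) (Fin 4) ℝ) - 1) with hη
  have hη0 : 0 < η := by
    rcases (nrm_nonneg ((g : Matrix (Fin 4) (Fin 4) ℝ) - 1)).lt_or_eq with h | h
    · exact h
    · exfalso
      apply hg1
      have := nrm_eq_zero h.symm
      exact Units.ext (sub_eq_zero.mp this)
  have hη1 : η * (1 + C2 + S) ≤ 1 :=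
    (mul_le_mul_of_nonneg_right hgn hpos.le).trans_eq h16
  obtain ⟨hηle, hηC2, hηS⟩ := aux5 hη0 hC20 hS0 hη1
  have hgn5 : nrm (g : Matrix (Fin 4) (Fin 4) ℝ) ≤ 5 :=
    nrm_le_of_sub_one.trans (by linarith)
  apply hg1
  apply eq_one_of_eigen hg c hli x hx hc4
  intro i
  apply eigen_of_comm hg (hc i)
  · intro h0
    have h1 := B_act_sub_le g (c i)
    rw [h0, zero_sub, abs_neg, abs_of_pos (hc i)] at h1
    have h2 : η * (∑ j, |c i j|) ^ 2 ≤ η * (S * B (c i) (c i)) :=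
      mul_le_mul_of_nonneg_left (hSi i) hη0.le
    have h3 : η * (S * B (c i) (c i)) < B (c i) (c i) := by
      rw [← mul_assoc]
      exact mul_lt_of_lt_one_left (hc i) hηS
    linarith
  · -- the commutator is trivial
    set h := g * R (c i) * g⁻¹ * R (c i) with hh
    have hhΓ : h ∈ Γ := Γ.mul_mem (Γ.mul_mem (Γ.mul_mem hgΓ (hcΓ i)) (Γ.inv_mem hgΓ)) (hcΓ i)
    have hn1 : nrm ((h : Matrix (Fin 4) (Fin 4) ℝ) - 1) ≤ C1 * η := by
      refine (nrm_h_le hg (hc i)).trans ?_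
      have n1 := nrm_nonneg ((R (c i) : G) : Matrix (Fin 4) (Fin 4) ℝ)
      have n2 := nrm_nonneg (g : Matrix (Fin 4) (Fin 4) ℝ)
      refine (aux1 hη0.le n1 (hKi i) n2 hgn5).trans_eq ?_
      rw [hC1]; ring
    have hn2 : nrm (h : Matrix (Fin 4) (Fin 4) ℝ) ≤ 4 + C1 := by
      refine nrm_le_of_sub_one.trans ?_
      have : C1 * η ≤ C1 := mul_le_of_le_one_right hC10 hηle
      linarith
    have hn3 : nrm (((g * h * g⁻¹ * h⁻¹ : G) : Matrix (Fin 4) (Fin 4) ℝ) - 1) ≤ C2 * η * η := by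
      refine (nrm_sub_one_comm_le hg (hΓ hhΓ)).trans ?_
      have n1 := nrm_nonneg (h : Matrix (Fin 4) (Fin 4) ℝ)
      have n2 := nrm_nonneg (g : Matrix (Fin 4) (Fin 4) ℝ)
      have n3 := nrm_nonneg ((h : Matrix (Fin 4) (Fin 4) ℝ) - 1)
      refine (aux2 hη0.le n3 hn1 n2 hgn5 n1 hn2).trans_eq ?_
      rw [hC2]; ring
    have hlt : nrm (((g * h * g⁻¹ * h⁻¹ : G) : Matrix (Fin 4) (Fin 4) ℝ) - 1) < η := by
      refine lt_of_le_of_lt hn3 ?_
      rw [mul_comm C2 η]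
      exact mul_lt_of_lt_one_left hη0 hηC2
    have hone : g * h * g⁻¹ * h⁻¹ = 1 := by
      by_contra hne
      have hmem : g * h * g⁻¹ * h⁻¹ ∈ F := by
        refine hmemF _ ?_ hne (hlt.le.trans hgn)
        exact Γ.mul_mem (Γ.mul_mem (Γ.mul_mem hgΓ hhΓ) (Γ.inv_mem hgΓ)) (Γ.inv_mem hhΓ)
      have := hmin _ hmem
      linarith
    have h2 : g * h * g⁻¹ = h := mul_inv_eq_one.mp hone
    exact mul_inv_eq_iff_eq_mul.mp h2

/-- A reflection group containing five such reflections is contained in a maximal one. -/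
theorem exists_maximal (c : Fin 5 → V) (hc : ∀ i, 0 < B (c i) (c i))
    (hli : LinearIndependent ℝ (fun i : Fin 4 => c i.castSucc))
    (x : Fin 4 → ℝ) (hx : ∀ i, x i ≠ 0) (hc4 : c 4 = ∑ i : Fin 4, x i • c i.castSucc)
    (Γ : Subgroup G) (hΓ : IsReflectionGroup Γ) (hcΓ : ∀ i, R (c i) ∈ Γ) :
    ∃ M : Subgroup G, Γ ≤ M ∧ IsMaximalReflectionGroup M := by
  obtain ⟨δ, hδ, hu⟩ := uniform_discrete c hc hli x hx hc4
  set s : Set (Subgroup G) := {Δ | IsReflectionGroup Δ ∧ Γ ≤ Δ} with hs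
  have hz : ∀ C ⊆ s, IsChain (· ≤ ·) C → ∀ y ∈ C, ∃ ub ∈ s, ∀ z ∈ C, z ≤ ub := by
    intro C hC hchain y hy
    have hne : C.Nonempty := ⟨y, hy⟩
    have hdir : DirectedOn (· ≤ ·) C := hchain.directedOn
    have hmem : ∀ g, g ∈ sSup C ↔ ∃ Δ ∈ C, g ∈ Δ := fun g =>
      Subgroup.mem_sSup_of_directedOn hne hdir
    refine ⟨sSup C, ⟨⟨?_, ?_, ?_, ?_⟩, ?_⟩, fun z hz => le_sSup hz⟩
    · intro g hg
      obtain ⟨Δ, hΔ, hg⟩ := (hmem g).mp hg
      exact (hC hΔ).1.isom hg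
    · apply discreteTopology_of_disc
      refine ⟨δ, hδ, fun γ hγ hγδ => ?_⟩
      obtain ⟨Δ, hΔ, hg⟩ := (hmem γ).mp hγ
      exact hu Δ (hC hΔ).1.isom (disc_of_discreteTopology (hC hΔ).1.isom (hC hΔ).1.discrete)
        (fun i => (hC hΔ).2 (hcΓ i)) γ hg hγδ
    · obtain ⟨D, h1, h2, h3, h4⟩ := hΓ.covol
      refine ⟨D, h1, h2, h3, fun x hx => ?_⟩
      obtain ⟨γ, hγ, h⟩ := h4 x hx
      exact ⟨γ, (hmem γ).mpr ⟨y, hy, (hC hy).2 hγ⟩, h⟩
    · apply le_antisymm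
      · rw [Subgroup.closure_le]; exact fun g hg => hg.1
      · intro g hg
        obtain ⟨Δ, hΔ, hg⟩ := (hmem g).mp hg
        rw [← (hC hΔ).1.gen] at hg
        refine Subgroup.closure_mono ?_ hg
        exact fun h hh => ⟨(hmem h).mpr ⟨Δ, hΔ, hh.1⟩, hh.2⟩
    · exact (hC hy).2.trans (le_sSup hy)
  obtain ⟨M, hΓM, hM⟩ := zorn_le_nonempty₀ s hz Γ ⟨hΓ, le_rfl⟩
  refine ⟨M, hΓM, hM.prop.1, fun Δ hΔ hle => ?_⟩
  exact le_antisymm (hM.le_of_ge ⟨hΔ, hΓM.trans hle⟩ hle) hle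

end QA61
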