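import Pool.Agent.QA61.Pigeon
import Pool.Agent.QA61.UnifDisc
import Pool.Agent.QA61.Rational

/-!
# Assembly
-/

namespace QA61

open Matrix

/-! ### Rationality of `Gam n` -/

theorem ratVec_L (q : Fin 4 → ℚ) : RatVec P (L fun i => (q i : ℝ)) := ⟨q, rfl⟩

theorem ratVec_T {x : V} (h : RatVec P x) : RatVec P (act T x) := by
  obtain ⟨q, rfl⟩ := h
  refine ⟨![2 * q 0 + q 3, -q 0, q 0 + q 2, 2 * q 0 + q 1], ?_⟩
  show act T (L _) = L _
  rw [act_T_L]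
  congr 1
  ext i; fin_cases i <;> simp

theorem ratVec_Tpow {x : V} (h : RatVec P x) (k : ℕ) : RatVec P (act (T ^ k) x) := by
  induction k with
  | zero => simpa using h
  | succ k ih => rw [pow_succ', act_mul]; exact ratVec_T ih

theorem ratVec_neg {x : V} (h : RatVec P x) : RatVec P (-x) := by
  obtain ⟨q, rfl⟩ := h
  refine ⟨fun i => -q i, ?_⟩
  rw [← act_neg]
  congr 1
  ext i; simp

theorem ratVec_b (k : ℕ) : RatVec P (b k) := by
  refine ratVec_Tpow ⟨![0, 1, 0, 0], ?_⟩ k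
  show L _ = L _
  congr 1
  ext i; fin_cases i <;> simp

theorem ratVec_w (k : ℕ) : RatVec P (w k) := by
  refine ratVec_Tpow ⟨![5, 5, 4, -2], ?_⟩ k
  show L _ = L _
  congr 1
  ext i; fin_cases i <;> simp

theorem ratVec_u (k : ℕ) : RatVec P (u k) := by
  refine ratVec_Tpow ⟨![-6, 7, 3, 5], ?_⟩ k
  show L _ = L _
  congr 1
  ext i; fin_cases i <;> simp

theorem ratVec_a3 : RatVec P a3 := by
  refine ⟨![0, 0, 1, 0], ?_⟩
  show L _ = L _
  congr 1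
  ext i; fin_cases i <;> simp

theorem ratVec_face (n : ℕ) (i : Fin 3 ⊕ Fin (n + 3) ⊕ Fin (n + 1)) : RatVec P (face n i) := by
  rcases i with i | i | i
  · fin_cases i
    · exact ratVec_a3
    · exact ratVec_u 0
    · exact ratVec_neg (ratVec_u _)
  · exact ratVec_b i
  · exact ratVec_w i

/-- The rational version of `Q`. -/
def Qrat (x y : Fin 4 → ℚ) : ℚ := 2 * x 0 * y 0 + 2 * x 1 * y 1 + 6 * x 2 * y 2 + 2 * x 3 * y 3
  - 3 * (x 0 * y 2 + x 2 * y 0) - (x 0 * y 3 + x 3 * y 0) - 3 * (x 1 * y 2 + x 2 * y 1)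
  - (x 1 * y 3 + x 3 * y 1) - 3 * (x 2 * y 3 + x 3 * y 2)

theorem Q_cast (x y : Fin 4 → ℚ) :
    Q (fun i => (x i : ℝ)) (fun i => (y i : ℝ)) = (Qrat x y : ℝ) := by
  simp [Q, Qrat]

theorem ratIn_R {e : V} (h : RatVec P e) : RatIn P ((R e : G) : Matrix (Fin 4) (Fin 4) ℝ) := by
  obtain ⟨q, rfl⟩ := h
  refine ⟨Matrix.of fun i j => (Pi.single j (1 : ℚ) : Fin 4 → ℚ) i -
    2 * Qrat (Pi.single j 1) q / Qrat q q * q i, ?_⟩
  ext i j
  have e1 : (((P⁻¹ : G) : Matrix (Fin 4) (Fin 4) ℝ) *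
      ((R (act P fun i => (q i : ℝ)) : G) : Matrix (Fin 4) (Fin 4) ℝ) *
      (P : Matrix (Fin 4) (Fin 4) ℝ)) i j =
      act (P⁻¹ * R (act P fun i => (q i : ℝ)) * P) (Pi.single j 1) i := by
    rw [act_single]; rfl
  rw [e1, act_mul, act_mul, act_R, act_sub, act_smul, act_inv_act, act_inv_act]
  have e2 : B (act P (Pi.single j 1)) (act P fun i => (q i : ℝ)) =
      (Qrat (Pi.single j 1) q : ℝ) := by
    have := B_L (Pi.single j 1) (fun i => (q i : ℝ))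
    rw [← Q_cast]
    refine this.trans ?_
    congr 1
    ext i
    by_cases hij : i = j
    · subst hij; simp
    · simp [hij]
  have e3 : B (act P fun i => (q i : ℝ)) (act P fun i => (q i : ℝ)) = (Qrat q q : ℝ) := by
    rw [← Q_cast]; exact B_L _ _
  rw [e2, e3]
  simp only [Matrix.map_apply, Matrix.of_apply, Pi.sub_apply, Pi.smul_apply, smul_eq_mul]
  push_cast
  congr 1
  by_cases hij : i = j
  · subst hij; simp
  · simp [hij]

theorem ratIn_one : RatIn P (1 : Matrix (Fin 4) (Fin 4) ℝ) := by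
  refine ⟨1, ?_⟩
  rw [mul_one, ← Units.val_mul, inv_mul_cancel, Units.val_one]
  ext i j
  by_cases h : i = j
  · subst h; simp
  · simp [h]

theorem map_cast_mul (M N : Matrix (Fin 4) (Fin 4) ℚ) :
    (M * N).map (fun q : ℚ => (q : ℝ)) = M.map (fun q : ℚ => (q : ℝ)) *
      N.map (fun q : ℚ => (q : ℝ)) := by
  ext i j
  simp [Matrix.mul_apply]

theorem ratIn_mul {X Y : Matrix (Fin 4) (Fin 4) ℝ} (hX : RatIn P X) (hY : RatIn P Y) :
    RatIn P (X * Y) := by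
  obtain ⟨M, hM⟩ := hX
  obtain ⟨N, hN⟩ := hY
  refine ⟨M * N, ?_⟩
  rw [map_cast_mul, ← hM, ← hN]
  have h : (P : Matrix (Fin 4) (Fin 4) ℝ) * ((P⁻¹ : G) : Matrix (Fin 4) (Fin 4) ℝ) = 1 := by
    rw [← Units.val_mul, mul_inv_cancel, Units.val_one]
  calc ((P⁻¹ : G) : Matrix (Fin 4) (Fin 4) ℝ) * (X * Y) * (P : Matrix (Fin 4) (Fin 4) ℝ)
      = ((P⁻¹ : G) : Matrix (Fin 4) (Fin 4) ℝ) * X * 1 * Y *
        (P : Matrix (Fin 4) (Fin 4) ℝ) := by simp only [mul_one, Matrix.mul_assoc]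
    _ = _ := by rw [← h]; simp only [Matrix.mul_assoc]

theorem ratIn_inv {g : G} (h : RatIn P (g : Matrix (Fin 4) (Fin 4) ℝ)) :
    RatIn P ((g⁻¹ : G) : Matrix (Fin 4) (Fin 4) ℝ) := by
  obtain ⟨M, hM⟩ := h
  have h1 : ((P⁻¹ * g * P : G) : Matrix (Fin 4) (Fin 4) ℝ) = M.map (fun q : ℚ => (q : ℝ)) := hM
  have hdet : M.det ≠ 0 := by
    intro h0
    have h2 : (M.map (fun q : ℚ => (q : ℝ))).det = 0 := by
      have : (M.map (fun q : ℚ => (q : ℝ))).det = ((M.det : ℚ) : ℝ) := by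
        exact ((algebraMap ℚ ℝ).map_det M).symm
      rw [this, h0]; simp
    rw [← h1] at h2
    have h3 : IsUnit ((P⁻¹ * g * P : G) : Matrix (Fin 4) (Fin 4) ℝ).det :=
      (Matrix.isUnit_iff_isUnit_det _).mp (Units.isUnit _)
    rw [h2] at h3
    exact not_isUnit_zero h3
  refine ⟨M⁻¹, ?_⟩
  have h4 : M * M⁻¹ = 1 := Matrix.mul_nonsing_inv _ (isUnit_iff_ne_zero.mpr hdet)
  have h5 : M.map (fun q : ℚ => (q : ℝ)) * (M⁻¹).map (fun q : ℚ => (q : ℝ)) = 1 := by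
    rw [← map_cast_mul, h4]
    ext i j
    by_cases h : i = j
    · subst h; simp
    · simp [h]
  have h6 : ((P⁻¹ : G) : Matrix (Fin 4) (Fin 4) ℝ) * ((g⁻¹ : G) : Matrix (Fin 4) (Fin 4) ℝ) *
      (P : Matrix (Fin 4) (Fin 4) ℝ) = (((P⁻¹ * g * P)⁻¹ : G) : Matrix (Fin 4) (Fin 4) ℝ) := by
    rw [← Units.val_mul, ← Units.val_mul]; congr 1; group
  rw [h6]
  calc (((P⁻¹ * g * P)⁻¹ : G) : Matrix (Fin 4) (Fin 4) ℝ)
      = (((P⁻¹ * g * P)⁻¹ : G) : Matrix (Fin 4) (Fin 4) ℝ) *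
        (M.map (fun q : ℚ => (q : ℝ)) * (M⁻¹).map (fun q : ℚ => (q : ℝ))) := by
        rw [h5, mul_one]
    _ = _ := by rw [← h1, ← mul_assoc, ← Units.val_mul, inv_mul_cancel, Units.val_one, one_mul]

theorem ratIn_closure {S : Set G} (hS : ∀ g ∈ S, RatIn P (g : Matrix (Fin 4) (Fin 4) ℝ)) :
    ∀ g ∈ Subgroup.closure S, RatIn P (g : Matrix (Fin 4) (Fin 4) ℝ) := by
  intro g hg
  induction hg using Subgroup.closure_induction with
  | mem x hx => exact hS x hx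
  | one => exact ratIn_one
  | mul x y _ _ hx hy => rw [Units.val_mul]; exact ratIn_mul hx hy
  | inv x _ hx => exact ratIn_inv hx

theorem Gam_rat (n : ℕ) : ∀ γ ∈ Gam n, RatIn P (γ : Matrix (Fin 4) (Fin 4) ℝ) := by
  apply ratIn_closure
  rintro _ ⟨i, rfl⟩
  exact ratIn_R (ratVec_face n i)

/-! ### The Gram matrix -/

/-- The Gram matrix of `a₁, a₂, a₃, a₄`. -/
def A : Matrix (Fin 4) (Fin 4) ℚ := !![2, 0, -3, -1; 0, 2, -3, -1; -3, -3, 6, -3; -1, -1, -3, 2]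

theorem gram : (P : Matrix (Fin 4) (Fin 4) ℝ)ᵀ * J * (P : Matrix (Fin 4) (Fin 4) ℝ) =
    A.map (fun q : ℚ => (q : ℝ)) := by
  apply mat_ext
  intro y
  have h : ∀ x : V, x ⬝ᵥ (((P : Matrix (Fin 4) (Fin 4) ℝ)ᵀ * J *
      (P : Matrix (Fin 4) (Fin 4) ℝ)) *ᵥ y) = x ⬝ᵥ (A.map (fun q : ℚ => (q : ℝ)) *ᵥ y) := by
    intro x
    have h1 : x ⬝ᵥ (((P : Matrix (Fin 4) (Fin 4) ℝ)ᵀ * J *
      (P : Matrix (Fin 4) (Fin 4) ℝ)) *ᵥ y) = B (L x) (L y) := by
      rw [B_eq_J, ← Matrix.mulVec_mulVec, ← Matrix.mulVec_mulVec,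
        Matrix.dotProduct_mulVec, Matrix.vecMul_transpose]
      rfl
    rw [h1, B_L]
    simp [Q, A, dotProduct, Matrix.mulVec, Fin.sum_univ_four]
    ring
  ext i
  have := h (Pi.single i 1)
  simpa using this

theorem gram' : ((P⁻¹ : G) : Matrix (Fin 4) (Fin 4) ℝ)ᵀ * A.map (fun q : ℚ => (q : ℝ)) *
    ((P⁻¹ : G) : Matrix (Fin 4) (Fin 4) ℝ) = J := by
  rw [← gram]
  have h2 : (P : Matrix (Fin 4) (Fin 4) ℝ) * ((P⁻¹ : G) : Matrix (Fin 4) (Fin 4) ℝ) = 1 := by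
    rw [← Units.val_mul, mul_inv_cancel, Units.val_one]
  have h3 : ((P⁻¹ : G) : Matrix (Fin 4) (Fin 4) ℝ)ᵀ * (P : Matrix (Fin 4) (Fin 4) ℝ)ᵀ = 1 := by
    rw [← Matrix.transpose_mul, h2, Matrix.transpose_one]
  calc _ = (((P⁻¹ : G) : Matrix (Fin 4) (Fin 4) ℝ)ᵀ * (P : Matrix (Fin 4) (Fin 4) ℝ)ᵀ) * J *
        ((P : Matrix (Fin 4) (Fin 4) ℝ) * ((P⁻¹ : G) : Matrix (Fin 4) (Fin 4) ℝ)) := by
        simp only [Matrix.mul_assoc]
    _ = J := by rw [h2, h3, one_mul, mul_one]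

/-- The five roots in general position. -/
noncomputable def c5 : Fin 5 → V := ![b 2, b 0, a3, b 1, u 0]

theorem c5_pos (i : Fin 5) : 0 < B (c5 i) (c5 i) := by
  fin_cases i
  · show 0 < B (b 2) (b 2); rw [bb]; norm_num
  · show 0 < B (b 0) (b 0); rw [bb]; norm_num
  · show 0 < B a3 a3; rw [a3a3]; norm_num
  · show 0 < B (b 1) (b 1); rw [bb]; norm_num
  · show 0 < B (u 0) (u 0); rw [uu]; norm_num

theorem c5_li : LinearIndependent ℝ (fun i : Fin 4 => c5 i.castSucc) := by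
  rw [Fintype.linearIndependent_iff]
  intro g hg
  have h1 : L g = 0 := by
    rw [L_expand]
    rw [Fin.sum_univ_four] at hg
    exact hg
  have h2 : g = 0 := by
    have := congrArg (act P⁻¹) h1
    rw [L, act_inv_act, act_zero] at this
    exact this
  intro i
  rw [h2]; rfl

theorem c5_last : c5 4 = ∑ i : Fin 4, (![-6, 7, 3, 5] : Fin 4 → ℝ) i • c5 i.castSucc := by
  have h := L_expand ![-6, 7, 3, 5]
  rw [← u0] at h
  rw [Fin.sum_univ_four]
  exact h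

theorem c5_mem (n : ℕ) (i : Fin 5) : R (c5 i) ∈ Gam n := by
  fin_cases i
  · exact R_face_mem n (.inr (.inl ⟨2, by omega⟩))
  · exact R_face_mem n (.inr (.inl ⟨0, by omega⟩))
  · exact R_face_mem n (.inl 0)
  · exact R_face_mem n (.inr (.inl ⟨1, by omega⟩))
  · exact R_face_mem n (.inl 1)

theorem exists_max (n : ℕ) : ∃ M : Subgroup G, Gam n ≤ M ∧ IsMaximalReflectionGroup M := by
  refine exists_maximal c5 c5_pos c5_li ![-6, 7, 3, 5] ?_ c5_last (Gam n) (Gam_refl n) (c5_mem n)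
  intro i
  fin_cases i <;> simp

/-- A reflection group containing `Gam n` is rational in the basis `P`. -/
theorem rat_of_ge {n : ℕ} {M : Subgroup G} (hM : IsReflectionGroup M) (hle : Gam n ≤ M) :
    ∀ γ ∈ M, RatIn P (γ : Matrix (Fin 4) (Fin 4) ℝ) := by
  have hd : Disc M := disc_of_discreteTopology hM.isom hM.discrete
  rw [← hM.gen]
  apply ratIn_closure
  rintro g ⟨hg, hgr⟩
  refine rational_of_reflection P ⟨A, gram⟩ (Gam n) M hle hM.isom hd (Gam_cobdd n) (Gam_rat n)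
    (u 0) (w 0) (b 2) (b 1) (ratVec_u 0) (ratVec_w 0) (ratVec_b 2) (ratVec_b 1)
    (uu 0) (ww 0) (bb 2) (bb 1) ?_ ups_vals.2.2.1 ups_vals.2.1 rho_vals.2.2.1 rho_vals.2.1 ?_
    (R_face_mem n (.inl 1)) (R_face_mem n (.inr (.inr ⟨0, by omega⟩)))
    (R_face_mem n (.inr (.inl ⟨2, by omega⟩))) (R_face_mem n (.inr (.inl ⟨1, by omega⟩))) hg hgr
  · rw [u0, w0, B_L]; simp [Q]; norm_num
  · rw [b2, b1, B_L]; simp [Q]

/-- Rational groups are quasi-arithmetic, with `K = ℚ`. -/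
theorem quasi_of_rat {M : Subgroup G}
    (h : ∀ γ ∈ M, RatIn P (γ : Matrix (Fin 4) (Fin 4) ℝ)) : IsQuasiArithmetic M := by
  refine ⟨⊥, inferInstance, A.map (algebraMap ℚ (⊥ : IntermediateField ℚ ℝ)), P⁻¹, ?_, ?_, ?_,
    ?_, ?_⟩
  · intro σ x
    obtain ⟨q, hq⟩ := IntermediateField.mem_bot.mp x.2
    have hx : x = algebraMap ℚ (⊥ : IntermediateField ℚ ℝ) q := Subtype.ext hq.symm
    rw [hx]
    have : σ (algebraMap ℚ (⊥ : IntermediateField ℚ ℝ) q) = (q : ℂ) := by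
      simp
    rw [this]
    exact Complex.ratCast_im q
  · ext i j
    fin_cases i <;> fin_cases j <;> simp [A]
  · have h1 : (A.map (algebraMap ℚ (⊥ : IntermediateField ℚ ℝ))).map
        (algebraMap (⊥ : IntermediateField ℚ ℝ) ℝ) = A.map (fun q : ℚ => (q : ℝ)) := by
      ext i j
      simp
    rw [h1]
    exact gram'
  · intro σ hσ
    exfalso
    apply hσ
    ext x
    obtain ⟨q, hq⟩ := IntermediateField.mem_bot.mp x.2
    have hx : x = algebraMap ℚ (⊥ : IntermediateField ℚ ℝ) q := Subtype.ext hq.symm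
    rw [hx]
    simp
  · intro γ hγ
    obtain ⟨N, hN⟩ := h γ hγ
    refine ⟨N.map (algebraMap ℚ (⊥ : IntermediateField ℚ ℝ)), ?_⟩
    rw [inv_inv]
    rw [Units.val_mul, Units.val_mul, hN]
    ext i j
    simp

theorem cocompact_of_cobdd {Γ : Subgroup G} (hΓ : Γ ≤ IsomH3) (h : Cobdd Γ) :
    IsCocompact Γ := by
  obtain ⟨r, hr⟩ := h
  refine ⟨{x | B x x = -1 ∧ 1 ≤ x 0 ∧ x 0 ≤ r}, fun x hx => ⟨hx.1, by linarith [hx.2.1]⟩, ?_,
    fun x hx => ?_⟩
  · have hcl : IsClosed {x : V | B x x = -1 ∧ 1 ≤ x 0 ∧ x 0 ≤ r} := by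
      have h1 : Continuous fun x : V => B x x := by unfold B; fun_prop
      have h0 : Continuous fun x : V => x 0 := by fun_prop
      exact (isClosed_eq h1 continuous_const).inter
        ((isClosed_le continuous_const h0).inter (isClosed_le h0 continuous_const))
    refine Metric.isCompact_of_isClosed_isBounded hcl ?_
    refine (Metric.isBounded_closedBall (x := (0 : V)) (r := |r|)).subset ?_
    rintro x ⟨h1, h2, h3⟩
    rw [Metric.mem_closedBall, dist_pi_le_iff (abs_nonneg r)]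
    intro i
    rw [Real.dist_eq]
    apply sq_le_sq.mp
    unfold B at h1
    fin_cases i <;> simp <;> nlinarith [sq_nonneg (x 1), sq_nonneg (x 2), sq_nonneg (x 3)]
  · obtain ⟨γ, hγ, h⟩ := hr x hx
    have hx' := (hΓ hγ).2 x hx
    refine ⟨γ, hγ, hx'.1, ?_, h⟩
    have h1 := hx'.1
    have h2 := hx'.2
    unfold B at h1
    nlinarith [sq_nonneg (act γ x 1), sq_nonneg (act γ x 2), sq_nonneg (act γ x 3)]

/-- **Main theorem.** There are infinitely many pairwise non-conjugate maximal quasi-arithmetic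
reflection groups in `Isom(ℍ³)`; they are cocompact and all contained in one `O(f, ℚ)`. -/
theorem main : ∃ M : ℕ → Subgroup G,
    (∀ n, IsMaximalReflectionGroup (M n) ∧ IsQuasiArithmetic (M n) ∧ IsCocompact (M n)) ∧
    (∀ m n, m ≠ n → ¬ AreConjugate (M m) (M n)) ∧
    ∃ (f : Matrix (Fin 4) (Fin 4) ℚ) (P : G),
      (P : Matrix (Fin 4) (Fin 4) ℝ)ᵀ * f.map (fun q : ℚ => (q : ℝ)) *
        (P : Matrix (Fin 4) (Fin 4) ℝ) = J ∧
      ∀ n, ∀ γ ∈ M n, ∃ N : Matrix (Fin 4) (Fin 4) ℚ,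
        ((P * γ * P⁻¹ : G) : Matrix (Fin 4) (Fin 4) ℝ) = N.map (fun q : ℚ => (q : ℝ)) := by
  choose M hle hmax using exists_max
  -- each `M n` contains conjugates of only finitely many `Gam k`
  have hpig : ∀ n, ∃ N : ℕ, ∀ k ≥ N, ∀ g ∈ IsomH3, ¬ (∀ γ ∈ Gam k, g * γ * g⁻¹ ∈ M n) := by
    intro n
    exact pigeon (hmax n).1.isom
      (disc_of_discreteTopology (hmax n).1.isom (hmax n).1.discrete)
      ((Gam_cobdd n).mono (hle n))
  choose N hN using hpig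
  have hconj : ∀ n k, N n ≤ k → ¬ AreConjugate (M k) (M n) := by
    rintro n k hk ⟨g, hg, h⟩
    exact hN n k hk g hg fun γ hγ => (h γ).mp (hle k hγ)
  have hsymm : ∀ {Γ Δ : Subgroup G}, AreConjugate Γ Δ → AreConjugate Δ Γ := by
    rintro Γ Δ ⟨g, hg, h⟩
    refine ⟨g⁻¹, IsomH3.inv_mem hg, fun γ => ?_⟩
    rw [h]
    have : g * (g⁻¹ * γ * g⁻¹⁻¹) * g⁻¹ = γ := by group
    rw [this]
  obtain ⟨f, -, hf⟩ := exists_seq_of_forall_finset_exists (fun _ : ℕ => True)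
    (fun x y => ¬ AreConjugate (M y) (M x)) (by
      intro s _
      refine ⟨s.sup N, trivial, fun x hx => hconj x _ (Finset.le_sup hx)⟩)
  have hrat : ∀ n, ∀ γ ∈ M n, RatIn P (γ : Matrix (Fin 4) (Fin 4) ℝ) := fun n =>
    rat_of_ge (hmax n).1 (hle n)
  refine ⟨fun n => M (f n), fun n => ⟨hmax _, quasi_of_rat (hrat _), cocompact_of_cobdd
    (hmax _).1.isom ((Gam_cobdd _).mono (hle _))⟩, ?_, A, P⁻¹, gram', ?_⟩
  · intro m n hmn
    rcases lt_or_gt_of_ne hmn with h | h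
    · exact fun hc => hf m n h (hsymm hc)
    · exact hf n m h
  · intro n γ hγ
    obtain ⟨X, hX⟩ := hrat _ γ hγ
    refine ⟨X, ?_⟩
    rw [inv_inv, Units.val_mul, Units.val_mul, hX]

end QA61
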