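import Pool.Agent.QA61.Basic2

/-!
# The lattice, the gluing isometry `T` and the vectors `b k`
-/

namespace QA61

open Matrix

theorem s2 : √(2 : ℝ) ^ 2 = 2 := Real.sq_sqrt (by norm_num)
theorem s39 : √(39 : ℝ) ^ 2 = 39 := Real.sq_sqrt (by norm_num)
theorem s2ne : √(2 : ℝ) ≠ 0 := by positivity
theorem s39ne : √(39 : ℝ) ≠ 0 := by positivity

/-- The basis `a₁, a₂, a₃, a₄` (columns). -/
noncomputable def P : G where
  val := !![0, 0, √39, 0; √2, 0, -(3 * √2 / 2), -(√2 / 2); 0, √2, -(3 * √2 / 2), -(√2 / 2);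
    0, 0, -6, 1]
  inv := !![9 / (2 * √39), 1 / √2, 0, 1 / 2; 9 / (2 * √39), 0, 1 / √2, 1 / 2;
    1 / √39, 0, 0, 0; 6 / √39, 0, 0, 1]
  val_inv := by
    have h2 := s2ne
    have h3 := s39ne
    ext i j
    fin_cases i <;> fin_cases j <;> simp [Matrix.mul_apply, Fin.sum_univ_four] <;>
      field_simp <;> ring
  inv_val := by
    have h2 := s2ne
    have h3 := s39ne
    ext i j
    fin_cases i <;> fin_cases j <;> simp [Matrix.mul_apply, Fin.sum_univ_four] <;>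
      field_simp <;> ring

/-- The vector with coordinates `x` in the basis `P`. -/
noncomputable def L (x : V) : V := act P x

/-- The form in the basis `P`. -/
def Q (x y : V) : ℝ := 2 * x 0 * y 0 + 2 * x 1 * y 1 + 6 * x 2 * y 2 + 2 * x 3 * y 3
  - 3 * (x 0 * y 2 + x 2 * y 0) - (x 0 * y 3 + x 3 * y 0) - 3 * (x 1 * y 2 + x 2 * y 1)
  - (x 1 * y 3 + x 3 * y 1) - 3 * (x 2 * y 3 + x 3 * y 2)

theorem B_L (x y : V) : B (L x) (L y) = Q x y := by
  have h2 := s2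
  have h3 := s39
  simp only [L, act, P, B, Q, Matrix.mulVec, dotProduct, Fin.sum_univ_four]
  simp
  linear_combination (-x 2 * y 2) * h3 + ((x 0 - 3 / 2 * x 2 - 1 / 2 * x 3) *
    (y 0 - 3 / 2 * y 2 - 1 / 2 * y 3) + (x 1 - 3 / 2 * x 2 - 1 / 2 * x 3) *
    (y 1 - 3 / 2 * y 2 - 1 / 2 * y 3)) * h2

/-- The gluing isometry in the basis `P`. -/
def Tm : G where
  val := !![2, 0, 0, 1; -1, 0, 0, 0; 1, 0, 1, 0; 2, 1, 0, 0]
  inv := !![0, -1, 0, 0; 0, 2, 0, 1; 0, 1, 1, 0; 1, 2, 0, 0]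
  val_inv := by
    ext i j
    fin_cases i <;> fin_cases j <;> simp [Matrix.mul_apply, Fin.sum_univ_four]
  inv_val := by
    ext i j
    fin_cases i <;> fin_cases j <;> simp [Matrix.mul_apply, Fin.sum_univ_four]

/-- The gluing isometry. -/
noncomputable def T : G := P * Tm * P⁻¹

theorem act_Tm (x : V) : act Tm x = ![2 * x 0 + x 3, -x 0, x 0 + x 2, 2 * x 0 + x 1] := by
  ext i
  simp only [act, Tm, Matrix.mulVec, dotProduct, Fin.sum_univ_four]
  fin_cases i <;> simp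

theorem act_T_L (x : V) : act T (L x) = L ![2 * x 0 + x 3, -x 0, x 0 + x 2, 2 * x 0 + x 1] := by
  rw [T, L, act_mul, act_mul, act_inv_act, act_Tm, L]

theorem exists_L (x : V) : ∃ y, x = L y := ⟨act P⁻¹ x, by rw [L, act_act_inv]⟩

theorem L_add (x y : V) : L (x + y) = L x + L y := act_add _ _ _
theorem L_sub (x y : V) : L (x - y) = L x - L y := act_sub _ _ _
theorem L_smul (a : ℝ) (x : V) : L (a • x) = a • L x := act_smul _ _ _

theorem B_T (x y : V) : B (act T x) (act T y) = B x y := by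
  obtain ⟨x, rfl⟩ := exists_L x
  obtain ⟨y, rfl⟩ := exists_L y
  rw [act_T_L, act_T_L, B_L, B_L]
  simp [Q]
  ring

/-- The interior point `a₁ + a₂ + a₃ + a₄`. -/
noncomputable def x0 : V := L ![1, 1, 1, 1]

theorem x0_neg : B x0 x0 = -10 := by rw [x0, B_L]; simp [Q]; norm_num

theorem x0_pos : 0 < x0 0 := by
  simp only [x0, L, act, P, Matrix.mulVec, dotProduct, Fin.sum_univ_four]
  simp

theorem T_mem : T ∈ IsomH3 := by
  refine mem_IsomH3_of B_T (p := x0) ?_ x0_pos ?_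
  · rw [x0_neg]; norm_num
  · rw [x0, act_T_L, B_L]; simp [Q]; norm_num

theorem Tpow_mem (k : ℕ) : T ^ k ∈ IsomH3 := IsomH3.pow_mem T_mem k

theorem B_Tpow (k : ℕ) (x y : V) : B (act (T ^ k) x) (act (T ^ k) y) = B x y :=
  (Tpow_mem k).1 x y

noncomputable def a3 : V := L ![0, 0, 1, 0]
noncomputable def u1 : V := L ![-6, 7, 3, 5]
noncomputable def u4 : V := L ![5, 5, 4, -2]

/-- The vectors `b 0 = a₂, b 1 = a₄, b 2 = a₁, …`. -/
noncomputable def b (k : ℕ) : V := act (T ^ k) (L ![0, 1, 0, 0])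
noncomputable def w (k : ℕ) : V := act (T ^ k) u4
noncomputable def u (k : ℕ) : V := act (T ^ k) u1

theorem act_Tpow_add (i j : ℕ) (x : V) : act (T ^ (i + j)) x = act (T ^ i) (act (T ^ j) x) := by
  rw [pow_add, act_mul]

theorem act_T_b (i j : ℕ) : act (T ^ i) (b j) = b (i + j) := by rw [b, b, act_Tpow_add]
theorem act_T_w (i j : ℕ) : act (T ^ i) (w j) = w (i + j) := by rw [w, w, act_Tpow_add]
theorem act_T_u (i j : ℕ) : act (T ^ i) (u j) = u (i + j) := by rw [u, u, act_Tpow_add]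

theorem act_T_a3 (i : ℕ) : act (T ^ i) a3 = a3 := by
  induction i with
  | zero => simp
  | succ i ih =>
    rw [act_Tpow_add, pow_one, a3, act_T_L]
    simp
    exact ih

theorem b0 : b 0 = L ![0, 1, 0, 0] := by simp [b]
theorem b1 : b 1 = L ![0, 0, 0, 1] := by simp [b, act_T_L]
theorem b2 : b 2 = L ![1, 0, 0, 0] := by
  have h : b 2 = act (T ^ 1) (b 1) := (act_T_b 1 1).symm
  rw [h, b1, pow_one, act_T_L]; simp
theorem b3 : b 3 = L ![2, -1, 1, 2] := by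
  have h : b 3 = act (T ^ 1) (b 2) := (act_T_b 1 2).symm
  rw [h, b2, pow_one, act_T_L]; simp
theorem w0 : w 0 = L ![5, 5, 4, -2] := by simp [w, u4]
theorem u0 : u 0 = L ![-6, 7, 3, 5] := by simp [u, u1]

theorem b_rec (k : ℕ) : b (k + 3) = (2 : ℝ) • b (k + 2) + (2 : ℝ) • b (k + 1) - b k + a3 := by
  have h : b 3 = (2 : ℝ) • b 2 + (2 : ℝ) • b 1 - b 0 + a3 := by
    rw [b3, b2, b1, b0, a3, ← L_smul, ← L_smul, ← L_add, ← L_sub, ← L_add]
    congr 1
    ext i; fin_cases i <;> simp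
  rw [← act_T_b k 3, h, act_add, act_sub, act_add, act_smul, act_smul, act_T_b, act_T_b, act_T_b,
    act_T_a3]
  rfl

theorem w_eq (k : ℕ) : w k = (5 : ℝ) • b (k + 2) - (2 : ℝ) • b (k + 1) + (5 : ℝ) • b k
    + (4 : ℝ) • a3 := by
  have h : w 0 = (5 : ℝ) • b 2 - (2 : ℝ) • b 1 + (5 : ℝ) • b 0 + (4 : ℝ) • a3 := by
    rw [w0, b2, b1, b0, a3, ← L_smul, ← L_smul, ← L_smul, ← L_smul, ← L_sub, ← L_add, ← L_add]
    congr 1
    ext i; fin_cases i <;> simp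
  rw [← Nat.add_zero k, ← act_T_w k 0, h, act_add, act_add, act_sub, act_smul, act_smul,
    act_smul, act_smul, act_T_b, act_T_b, act_T_b, act_T_a3]

theorem u_eq (k : ℕ) : u k = -(6 : ℝ) • b (k + 2) + (5 : ℝ) • b (k + 1) + (7 : ℝ) • b k
    + (3 : ℝ) • a3 := by
  have h : u 0 = -(6 : ℝ) • b 2 + (5 : ℝ) • b 1 + (7 : ℝ) • b 0 + (3 : ℝ) • a3 := by
    rw [u0, b2, b1, b0, a3, ← L_smul, ← L_smul, ← L_smul, ← L_smul, ← L_add, ← L_add, ← L_add]
    congr 1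
    ext i; fin_cases i <;> simp
  rw [← Nat.add_zero k, ← act_T_u k 0, h, act_add, act_add, act_add, act_smul, act_smul,
    act_smul, act_smul, act_T_b, act_T_b, act_T_b, act_T_a3]

/-! ### The Gram sequences -/

/-- The recurrence for the products of `b k` with a fixed vector. -/
theorem seq_rec (x : V) (k : ℕ) :
    B x (b (k + 3)) = 2 * B x (b (k + 2)) + 2 * B x (b (k + 1)) - B x (b k) + B x a3 := by
  rw [b_rec, B_add_right, B_sub_right, B_add_right, B_smul_right, B_smul_right]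

theorem seq_anti (x : V) (hx : B x a3 ≤ 0) (k0 : ℕ) (h0 : B x (b k0) ≤ 0)
    (h1 : B x (b (k0 + 1)) ≤ B x (b k0)) (h2 : B x (b (k0 + 2)) ≤ B x (b (k0 + 1))) (k : ℕ) :
    B x (b (k0 + k)) ≤ 0 ∧ B x (b (k0 + k + 1)) ≤ B x (b (k0 + k)) ∧
      B x (b (k0 + k + 2)) ≤ B x (b (k0 + k + 1)) := by
  induction k with
  | zero => exact ⟨h0, h1, h2⟩
  | succ k ih =>
    obtain ⟨i0, i1, i2⟩ := ih
    have h := seq_rec x (k0 + k)
    refine ⟨?_, ?_, ?_⟩
    · rw [show k0 + (k + 1) = k0 + k + 1 by ring]; linarith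
    · rw [show k0 + (k + 1) + 1 = k0 + k + 2 by ring, show k0 + (k + 1) = k0 + k + 1 by ring]
      linarith
    · rw [show k0 + (k + 1) + 2 = k0 + k + 3 by ring, show k0 + (k + 1) + 1 = k0 + k + 2 by ring]
      linarith

/-- `β k = B(b 0, b k)`. -/
theorem beta_vals : B (b 0) (b 0) = 2 ∧ B (b 0) (b 1) = -1 ∧ B (b 0) (b 2) = 0 ∧
    B (b 0) (b 3) = -7 ∧ B (b 0) (b 4) = -16 ∧ B (b 0) a3 = -3 := by
  have h0 : B (b 0) (b 0) = 2 := by rw [b0, B_L]; simp [Q]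
  have h1 : B (b 0) (b 1) = -1 := by rw [b0, b1, B_L]; simp [Q]
  have h2 : B (b 0) (b 2) = 0 := by rw [b0, b2, B_L]; simp [Q]
  have h3 : B (b 0) (b 3) = -7 := by rw [b0, b3, B_L]; simp [Q]; norm_num
  have ha : B (b 0) a3 = -3 := by rw [b0, a3, B_L]; simp [Q]
  have h4 := seq_rec (b 0) 1
  norm_num at h4
  refine ⟨h0, h1, h2, h3, ?_, ha⟩
  rw [h4, h3, h2, h1, ha]; norm_num

theorem rho_vals : B (w 0) (b 0) = 0 ∧ B (w 0) (b 1) = -26 ∧ B (w 0) (b 2) = 0 ∧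
    B (w 0) (b 3) = -52 ∧ B (w 0) (b 4) = -78 ∧ B (w 0) a3 = 0 ∧ B (w 0) (w 0) = 52 := by
  have h0 : B (w 0) (b 0) = 0 := by rw [w0, b0, B_L]; simp [Q]; norm_num
  have h1 : B (w 0) (b 1) = -26 := by rw [w0, b1, B_L]; simp [Q]; norm_num
  have h2 : B (w 0) (b 2) = 0 := by rw [w0, b2, B_L]; simp [Q]; norm_num
  have h3 : B (w 0) (b 3) = -52 := by rw [w0, b3, B_L]; simp [Q]; norm_num
  have ha : B (w 0) a3 = 0 := by rw [w0, a3, B_L]; simp [Q]; norm_num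
  have hw : B (w 0) (w 0) = 52 := by rw [w0, B_L]; simp [Q]; norm_num
  have h4 := seq_rec (w 0) 1
  norm_num at h4
  refine ⟨h0, h1, h2, h3, ?_, ha, hw⟩
  rw [h4, h3, h2, h1, ha]; norm_num

theorem ups_vals : B (u 0) (b 0) = 0 ∧ B (u 0) (b 1) = 0 ∧ B (u 0) (b 2) = -26 ∧
    B (u 0) (b 3) = -52 ∧ B (u 0) a3 = 0 ∧ B (u 0) (u 0) = 156 := by
  have h0 : B (u 0) (b 0) = 0 := by rw [u0, b0, B_L]; simp [Q]; norm_num
  have h1 : B (u 0) (b 1) = 0 := by rw [u0, b1, B_L]; simp [Q]; norm_num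
  have h2 : B (u 0) (b 2) = -26 := by rw [u0, b2, B_L]; simp [Q]; norm_num
  have h3 : B (u 0) (b 3) = -52 := by rw [u0, b3, B_L]; simp [Q]; norm_num
  have ha : B (u 0) a3 = 0 := by rw [u0, a3, B_L]; simp [Q]; norm_num
  have hw : B (u 0) (u 0) = 156 := by rw [u0, B_L]; simp [Q]; norm_num
  exact ⟨h0, h1, h2, h3, ha, hw⟩

theorem x0_vals : B x0 (b 0) = -2 ∧ B x0 (b 1) = -3 ∧ B x0 (b 2) = -2 ∧
    B x0 (b 3) = -11 ∧ B x0 (b 4) = -26 ∧ B x0 a3 = -3 := by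
  have h0 : B x0 (b 0) = -2 := by rw [x0, b0, B_L]; simp [Q]; norm_num
  have h1 : B x0 (b 1) = -3 := by rw [x0, b1, B_L]; simp [Q]; norm_num
  have h2 : B x0 (b 2) = -2 := by rw [x0, b2, B_L]; simp [Q]; norm_num
  have h3 : B x0 (b 3) = -11 := by rw [x0, b3, B_L]; simp [Q]; norm_num
  have ha : B x0 a3 = -3 := by rw [x0, a3, B_L]; simp [Q]; norm_num
  have h4 := seq_rec x0 1
  norm_num at h4
  refine ⟨h0, h1, h2, h3, ?_, ha⟩
  rw [h4, h3, h2, h1, ha]; norm_num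

theorem beta_anti (k : ℕ) : B (b 0) (b (k + 2)) ≤ 0 ∧ B (b 0) (b (k + 3)) ≤ B (b 0) (b (k + 2)) ∧
    B (b 0) (b (k + 4)) ≤ B (b 0) (b (k + 3)) := by
  obtain ⟨h0, h1, h2, h3, h4, ha⟩ := beta_vals
  have := seq_anti (b 0) (by rw [ha]; norm_num) 2 (by rw [h2]) (by rw [h2, h3]; norm_num)
    (by rw [h3, h4]; norm_num) k
  rw [show 2 + k = k + 2 by ring] at this
  exact this

theorem beta_le (k : ℕ) : B (b 0) (b (k + 3)) ≤ -7 := by
  induction k with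
  | zero => rw [beta_vals.2.2.2.1]
  | succ k ih =>
    have := (beta_anti k).2.2
    rw [show k + 1 + 3 = k + 4 by ring]; linarith

theorem rho_anti (k : ℕ) : B (w 0) (b (k + 2)) ≤ 0 ∧ B (w 0) (b (k + 3)) ≤ B (w 0) (b (k + 2)) ∧
    B (w 0) (b (k + 4)) ≤ B (w 0) (b (k + 3)) := by
  obtain ⟨h0, h1, h2, h3, h4, ha, hw⟩ := rho_vals
  have := seq_anti (w 0) (by rw [ha]) 2 (by rw [h2]) (by rw [h2, h3]; norm_num)
    (by rw [h3, h4]; norm_num) k
  rw [show 2 + k = k + 2 by ring] at this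
  exact this

theorem rho_le (k : ℕ) : B (w 0) (b (k + 3)) ≤ -52 := by
  induction k with
  | zero => rw [rho_vals.2.2.2.1]
  | succ k ih =>
    have := (rho_anti k).2.2
    rw [show k + 1 + 3 = k + 4 by ring]; linarith

theorem ups_anti (k : ℕ) : B (u 0) (b k) ≤ 0 ∧ B (u 0) (b (k + 1)) ≤ B (u 0) (b k) ∧
    B (u 0) (b (k + 2)) ≤ B (u 0) (b (k + 1)) := by
  obtain ⟨h0, h1, h2, h3, ha, hw⟩ := ups_vals
  have := seq_anti (u 0) (by rw [ha]) 0 (by rw [h0]) (by rw [h0, h1])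
    (by rw [h1, h2]; norm_num) k
  rw [show 0 + k = k by ring] at this
  exact this

theorem ups_le (k : ℕ) : B (u 0) (b (k + 2)) ≤ -26 := by
  induction k with
  | zero => rw [ups_vals.2.2.1]
  | succ k ih =>
    have := (ups_anti (k + 1)).2.2
    rw [show k + 1 + 2 = k + 1 + 1 + 1 by ring]
    rw [show k + 1 + 2 = k + 1 + 1 + 1 by ring, show k + 1 + 1 = k + 2 by ring] at this
    linarith

theorem x0b_anti (k : ℕ) : B x0 (b (k + 2)) ≤ 0 ∧ B x0 (b (k + 3)) ≤ B x0 (b (k + 2)) ∧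
    B x0 (b (k + 4)) ≤ B x0 (b (k + 3)) := by
  obtain ⟨h0, h1, h2, h3, h4, ha⟩ := x0_vals
  have := seq_anti x0 (by rw [ha]; norm_num) 2 (by rw [h2]; norm_num) (by rw [h2, h3]; norm_num)
    (by rw [h3, h4]; norm_num) k
  rw [show 2 + k = k + 2 by ring] at this
  exact this

theorem x0b_le (k : ℕ) : B x0 (b k) ≤ -2 := by
  match k with
  | 0 => rw [x0_vals.1]
  | 1 => rw [x0_vals.2.1]; norm_num
  | k + 2 =>
    induction k with
    | zero => rw [x0_vals.2.2.1]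
    | succ k ih =>
      have := (x0b_anti k).2.1
      rw [show k + 1 + 2 = k + 3 by ring]; linarith

end QA61
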