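import Pool.Agent.QA61.Cover

/-!
# A discrete cobounded group contains conjugates of only finitely many of the groups `Gam n`
-/

namespace QA61

open Matrix

/-- The root `R(u 1) (b 0)`. -/
noncomputable def y0 : V := L ![7 / 3, -1, 1, 5 / 3]

theorem u1_eq : u 1 = L ![-7, 6, -3, -5] := by
  have h : u 1 = act (T ^ 1) (u 0) := (act_T_u 1 0).symm
  rw [h, u0, pow_one, act_T_L]
  simp
  norm_num

theorem y0_eq : act (R (u 1)) (b 0) = y0 := by
  rw [act_R, u1_eq, b0, B_L, B_L, y0, ← L_smul, ← L_sub]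
  congr 1
  ext i
  fin_cases i <;> simp [Q] <;> norm_num

theorem y0y0 : B y0 y0 = 2 := by rw [y0, B_L]; simp [Q]; norm_num
theorem y0b3 : B y0 (b 3) = 5 / 3 := by rw [y0, b3, B_L]; simp [Q]; norm_num

/-- The element of infinite order. -/
noncomputable def p0 : G := R y0 * R (b 3)

theorem act_R_y0 (x : V) : act (R y0) x = x - B x y0 • y0 := by
  rw [act_R, y0y0]; congr 2; ring
theorem act_R_b3 (x : V) : act (R (b 3)) x = x - B x (b 3) • b 3 := by
  rw [act_R, bb]; congr 2; ring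

theorem act_p0_b3 : act p0 (b 3) = (5 / 3 : ℝ) • y0 - b 3 := by
  rw [p0, act_mul, act_R_b3, bb, act_R_y0, B_sub_left, B_smul_left, B_comm (b 3), y0b3]
  module

theorem act_p0_y0 : act p0 y0 = (16 / 9 : ℝ) • y0 - (5 / 3 : ℝ) • b 3 := by
  rw [p0, act_mul, act_R_b3, y0b3, act_R_y0, B_sub_left, B_smul_left, B_comm (b 3), y0b3, y0y0]
  module

theorem act_p0_p0 : act p0 (act p0 (b 3)) = (7 / 9 : ℝ) • act p0 (b 3) - b 3 := by
  have h : act p0 (act p0 (b 3)) = (5 / 3 : ℝ) • act p0 y0 - act p0 (b 3) := by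
    conv_lhs => rw [act_p0_b3, act_sub, act_smul]
  rw [h, act_p0_y0, act_p0_b3]
  module

/-- The integer sequence `9^k * 2 cos (2 k θ)`. -/
def Nseq : ℕ → ℤ
  | 0 => 2
  | 1 => 7
  | (k + 2) => 7 * Nseq (k + 1) - 81 * Nseq k

theorem Nseq_mod (k : ℕ) : Nseq (k + 1) % 3 = 1 := by
  induction k with
  | zero => rfl
  | succ k ih =>
    show (7 * Nseq (k + 1) - 81 * Nseq k) % 3 = 1
    omega

theorem seq_c (k : ℕ) : B (act (p0 ^ k) (b 3)) (b 3) * 9 ^ k = Nseq k ∧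
    B (act (p0 ^ (k + 1)) (b 3)) (b 3) * 9 ^ (k + 1) = Nseq (k + 1) := by
  induction k with
  | zero =>
    constructor
    · simp [bb, Nseq]
    · simp only [zero_add, pow_one]
      rw [act_p0_b3, B_sub_left, B_smul_left, y0b3, bb]
      norm_num [Nseq]
  | succ k ih =>
    refine ⟨ih.2, ?_⟩
    have h : act (p0 ^ (k + 2)) (b 3) =
        (7 / 9 : ℝ) • act (p0 ^ (k + 1)) (b 3) - act (p0 ^ k) (b 3) := by
      have e1 : act (p0 ^ (k + 2)) (b 3) = act (p0 ^ k) (act p0 (act p0 (b 3))) := by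
        rw [← act_mul, ← act_mul]; congr 1; group
      have e2 : act (p0 ^ (k + 1)) (b 3) = act (p0 ^ k) (act p0 (b 3)) := by
        rw [← act_mul, ← pow_succ]
      rw [e1, act_p0_p0, act_sub, act_smul, e2]
    show B (act (p0 ^ (k + 2)) (b 3)) (b 3) * 9 ^ (k + 2) = (7 * Nseq (k + 1) - 81 * Nseq k : ℤ)
    rw [h, B_sub_left, B_smul_left]
    push_cast
    rw [← ih.1, ← ih.2]
    ring

theorem p0_pow_ne (k : ℕ) (hk : 0 < k) : p0 ^ k ≠ 1 := by
  intro h
  obtain ⟨k, rfl⟩ : ∃ j, k = j + 1 := ⟨k - 1, by omega⟩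
  have h1 := (seq_c k).2
  rw [h, act_one, bb] at h1
  have h2 : (2 * 9 ^ (k + 1) : ℤ) = Nseq (k + 1) := by exact_mod_cast h1
  have h3 := Nseq_mod k
  rw [← h2, pow_succ] at h3
  omega

/-- A timelike vector fixed by `p0`. -/
noncomputable def z0 : V := L ![9, -3, 4, 8]

theorem z0_neg : B z0 z0 < 0 := by rw [z0, B_L]; simp [Q]; norm_num

theorem p0_z0 : act p0 z0 = z0 := by
  have h1 : B z0 (b 3) = 0 := by rw [z0, b3, B_L]; simp [Q]; norm_num
  have h2 : B z0 y0 = 0 := by rw [z0, y0, B_L]; simp [Q]; norm_num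
  rw [p0, act_mul, act_R_b3, h1, zero_smul, sub_zero, act_R_y0, h2, zero_smul, sub_zero]

theorem L_expand (y : V) : L y = y 0 • b 2 + y 1 • b 0 + y 2 • a3 + y 3 • b 1 := by
  rw [b2, b0, a3, b1, ← L_smul, ← L_smul, ← L_smul, ← L_smul, ← L_add, ← L_add, ← L_add]
  congr 1
  ext i; fin_cases i <;> simp

/-- Bound for the entries of a reflection. -/
theorem R_entry_le {f : V} (hf : 0 < B f f) (i j : Fin 4) :
    |((R f : G) : Matrix (Fin 4) (Fin 4) ℝ) i j| ≤ 1 + 2 * f 0 ^ 2 / B f f := by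
  refine (abs_entry_le_zero_zero (R_mem hf) i j).trans (le_of_eq ?_)
  show reflMat f 0 0 = _
  simp [reflMat]
  ring

theorem R_conj_entry_le {k : G} (hk : k ∈ IsomH3) {r : ℝ}
    (hr : (k : Matrix (Fin 4) (Fin 4) ℝ) 0 0 ≤ r) {e : V} (he : 0 < B e e) (i j : Fin 4) :
    |((R (act k e) : G) : Matrix (Fin 4) (Fin 4) ℝ) i j| ≤
      1 + 2 * (r * ∑ l, |e l|) ^ 2 / B e e := by
  have hB : B (act k e) (act k e) = B e e := hk.1 e e
  refine (R_entry_le (by rw [hB]; exact he) i j).trans ?_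
  rw [hB]
  have h1 : |act k e 0| ≤ r * ∑ l, |e l| := by
    have h2 : act k e 0 = ∑ l, (k : Matrix (Fin 4) (Fin 4) ℝ) 0 l * e l := rfl
    rw [h2, Finset.mul_sum]
    refine (Finset.abs_sum_le_sum_abs _ _).trans (Finset.sum_le_sum fun l _ => ?_)
    rw [abs_mul]
    exact mul_le_mul_of_nonneg_right ((abs_entry_le_zero_zero hk 0 l).trans hr) (abs_nonneg _)
  have h2 : act k e 0 ^ 2 ≤ (r * ∑ l, |e l|) ^ 2 := by
    rw [← sq_abs]
    exact pow_le_pow_left₀ (abs_nonneg _) h1 2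
  gcongr

/-- The four vectors `b 0, b 1, b 2, a3`. -/
noncomputable def q4 : Fin 4 → V := ![b 0, b 1, b 2, a3]

theorem q4_pos (l : Fin 4) : 0 < B (q4 l) (q4 l) := by
  fin_cases l
  · show 0 < B (b 0) (b 0); rw [bb]; norm_num
  · show 0 < B (b 1) (b 1); rw [bb]; norm_num
  · show 0 < B (b 2) (b 2); rw [bb]; norm_num
  · show 0 < B a3 a3; rw [a3a3]; norm_num

/-- Two isometries which conjugate the four reflections in the same way are equal. -/
theorem eq_of_R_eq {k k' : G} (hk : k ∈ IsomH3) (hk' : k' ∈ IsomH3)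
    (h : ∀ l, R (act k (q4 l)) = R (act k' (q4 l))) : k = k' := by
  have hpm : ∀ l, act k' (q4 l) = act k (q4 l) ∨ act k' (q4 l) = - act k (q4 l) := by
    intro l
    refine R_eq_R (e := act k (q4 l)) (f := act k' (q4 l)) ?_ ?_ (h l)
    · rw [hk.1]; exact q4_pos l
    · rw [hk.1, hk'.1]
  have hs : ∀ l, ∃ s : ℝ, act k' (q4 l) = s • act k (q4 l) ∧ (s = 1 ∨ s = -1) := by
    intro l
    rcases hpm l with h | h
    · exact ⟨1, by rw [h, one_smul], Or.inl rfl⟩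
    · exact ⟨-1, by rw [h]; simp, Or.inr rfl⟩
  choose s hs hs1 using hs
  have hsl : ∀ j : ℕ, ∀ l : Fin 4, q4 l = b j → s l * s 3 = 1 := by
    intro j l hl
    have h1 : B (act k' (q4 l)) (act k' (q4 3)) = B (q4 l) (q4 3) := hk'.1 _ _
    rw [hs l, hs 3, B_smul_left, B_smul_right, hk.1] at h1
    have h2 : B (q4 l) (q4 3) = -3 := by rw [hl]; exact ba j
    rw [h2] at h1
    linarith
  have e0 : s 0 * s 3 = 1 := hsl 0 0 rfl
  have e1 : s 1 * s 3 = 1 := hsl 1 1 rfl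
  have e2 : s 2 * s 3 = 1 := hsl 2 2 rfl
  have hall : ∀ x, act k' x = s 3 • act k x := by
    intro x
    obtain ⟨y, rfl⟩ := exists_L x
    have h0 := hs 0
    have h1 := hs 1
    have h2 := hs 2
    have h3 := hs 3
    simp only [q4, Matrix.cons_val_zero, Matrix.cons_val_one, Matrix.cons_val] at h0 h1 h2 h3
    have hs0 : s 0 = s 3 := by rcases hs1 3 with h | h <;> rw [h] at e0 ⊢ <;> linarith
    have hs1' : s 1 = s 3 := by rcases hs1 3 with h | h <;> rw [h] at e1 ⊢ <;> linarith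
    have hs2 : s 2 = s 3 := by rcases hs1 3 with h | h <;> rw [h] at e2 ⊢ <;> linarith
    rw [hs0] at h0
    rw [hs1'] at h1
    rw [hs2] at h2
    rw [L_expand]
    simp only [act_add, act_smul]
    rw [h0, h1, h2, h3]
    module
  rcases hs1 3 with h3 | h3
  · apply act_ext
    intro x
    rw [hall, h3, one_smul]
  · exfalso
    have h1 := (hk.2 _ e0_mem).2
    have h2 := (hk'.2 _ e0_mem).2
    rw [hall, h3] at h2
    simp at h2
    linarith

theorem mem_of_conj {Δ : Subgroup G} {g : G} (hg : g ∈ IsomH3) {n : ℕ}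
    (h : ∀ γ ∈ Gam n, g * γ * g⁻¹ ∈ Δ) (i : Fin 3 ⊕ Fin (n + 3) ⊕ Fin (n + 1)) :
    R (act g (face n i)) ∈ Δ := by
  rw [← conj_R hg.1]
  exact h _ (R_face_mem n i)

/-- **Pigeonhole step.** A discrete cobounded group contains conjugates of only finitely many of
the groups `Gam n`. -/
theorem pigeon {Δ : Subgroup G} (hΔ : Δ ≤ IsomH3) (hd : Disc Δ) (hc : Cobdd Δ) :
    ∃ N : ℕ, ∀ n ≥ N, ∀ g ∈ IsomH3, ¬ (∀ γ ∈ Gam n, g * γ * g⁻¹ ∈ Δ) := by
  obtain ⟨r, hr⟩ := hc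
  set c : V → ℝ := fun e => 1 + 2 * (r * ∑ l, |e l|) ^ 2 / B e e with hcdef
  have hcpos : ∀ l, 0 ≤ c (q4 l) := by
    intro l
    have := q4_pos l
    simp only [hcdef]
    positivity
  set F := {γ : G | γ ∈ Δ ∧ ∀ i j, |(γ : Matrix (Fin 4) (Fin 4) ℝ) i j| ≤ ∑ l, c (q4 l)} with hF
  have hfin : F.Finite := finite_of_entries hΔ hd _
  have hFt := hfin.fintype
  refine ⟨Nat.card (Fin 4 → F), ?_⟩
  intro n hn g hg hcon
  have hface : ∀ j, j < n + 3 → R (act g (b j)) ∈ Δ := fun j hj =>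
    mem_of_conj hg hcon (.inr (.inl ⟨j, hj⟩))
  have hfa : R (act g a3) ∈ Δ := mem_of_conj hg hcon (.inl 0)
  have hfu : R (act g (u 0)) ∈ Δ := mem_of_conj hg hcon (.inl 1)
  -- the elements `h i` and `k i`
  have hch : ∀ i : ℕ, ∃ h ∈ Δ, act h (act (g * T ^ i) ![1, 0, 0, 0]) 0 ≤ r := fun i =>
    hr _ ((IsomH3.mul_mem hg (Tpow_mem i)).2 _ e0_mem)
  choose h hhΔ hhr using hch
  set k : ℕ → G := fun i => h i * (g * T ^ i) with hk
  have hkI : ∀ i, k i ∈ IsomH3 := fun i =>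
    IsomH3.mul_mem (hΔ (hhΔ i)) (IsomH3.mul_mem hg (Tpow_mem i))
  have hk0 : ∀ i, (k i : Matrix (Fin 4) (Fin 4) ℝ) 0 0 ≤ r := by
    intro i
    have e : (![1, 0, 0, 0] : V) = Pi.single 0 1 := by
      ext i; fin_cases i <;> simp
    have h1 := hhr i
    rw [← act_mul, e, act_single] at h1
    exact h1
  have hkR : ∀ i, i < n + 1 → ∀ l, R (act (k i) (q4 l)) ∈ Δ := by
    intro i hi l
    have e : R (act (k i) (q4 l)) = h i * R (act g (act (T ^ i) (q4 l))) * (h i)⁻¹ := by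
      rw [conj_R (hΔ (hhΔ i)).1, hk, act_mul, act_mul]
    rw [e]
    refine Δ.mul_mem (Δ.mul_mem (hhΔ i) ?_) (Δ.inv_mem (hhΔ i))
    fin_cases l
    · show R (act g (act (T ^ i) (b 0))) ∈ Δ
      rw [act_T_b]; exact hface _ (by omega)
    · show R (act g (act (T ^ i) (b 1))) ∈ Δ
      rw [act_T_b]; exact hface _ (by omega)
    · show R (act g (act (T ^ i) (b 2))) ∈ Δ
      rw [act_T_b]; exact hface _ (by omega)
    · show R (act g (act (T ^ i) a3)) ∈ Δ
      rw [act_T_a3]; exact hfa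
  have hmemF : ∀ i, i < n + 1 → ∀ l, R (act (k i) (q4 l)) ∈ F := by
    intro i hi l
    refine ⟨hkR i hi l, fun a a' => (R_conj_entry_le (hkI i) (hk0 i) (q4_pos l) a a').trans ?_⟩
    exact Finset.single_le_sum (f := fun l => c (q4 l)) (fun i _ => hcpos i) (Finset.mem_univ l)
  obtain ⟨i, j, hij, hφ⟩ := Fintype.exists_ne_map_eq_of_card_lt
    (fun (i : Fin (n + 1)) (l : Fin 4) => (⟨R (act (k i) (q4 l)), hmemF i i.2 l⟩ : F))
    (by rw [Fintype.card_fin, ← Nat.card_eq_fintype_card]; exact Nat.lt_succ_of_le hn)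
  have hφ' : ∀ l, R (act (k i) (q4 l)) = R (act (k j) (q4 l)) := fun l =>
    congrArg Subtype.val (congrFun hφ l)
  clear hφ
  wlog hlt : i < j generalizing i j
  · exact this j i hij.symm (fun l => (hφ' l).symm)
      (lt_of_le_of_ne (not_lt.mp hlt) (fun h => hij h.symm))
  have hkk : k i = k j := eq_of_R_eq (hkI i) (hkI j) hφ'
  obtain ⟨m, hm⟩ := Nat.exists_eq_add_of_lt (show (i : ℕ) < (j : ℕ) from hlt)
  have hj := j.2
  -- `g T^(m+1) g⁻¹ ∈ Δ`
  have hT : g * T ^ (m + 1) * g⁻¹ ∈ Δ := by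
    have e : g * T ^ (m + 1) * g⁻¹ = (h j)⁻¹ * h i := by
      have h1 : h i * (g * T ^ (i : ℕ)) = h j * (g * T ^ (j : ℕ)) := hkk
      have hTj : T ^ (j : ℕ) = T ^ (m + 1) * T ^ (i : ℕ) := by
        rw [← pow_add]; congr 1; omega
      rw [hTj, ← mul_assoc, ← mul_assoc, ← mul_assoc] at h1
      have h2 : h i * g = h j * g * T ^ (m + 1) := mul_right_cancel h1
      have h3 : (h j)⁻¹ * h i = (h j)⁻¹ * (h i * g) * g⁻¹ := by group
      rw [h3, h2]; group
    rw [e]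
    exact Δ.mul_mem (Δ.inv_mem (hhΔ j)) (hhΔ i)
  have hTI := Tpow_mem (m + 1)
  -- the reflections in `g u_{m+1}`, `g b_m`, `g b_{m+3}`
  have hu : R (act g (u (m + 1))) ∈ Δ := by
    have e : R (act g (u (m + 1))) = (g * T ^ (m + 1) * g⁻¹) * R (act g (u 0)) *
        (g * T ^ (m + 1) * g⁻¹)⁻¹ := by
      rw [conj_R (IsomH3.mul_mem (IsomH3.mul_mem hg hTI) (IsomH3.inv_mem hg)).1, act_mul,
        act_inv_act, act_mul, act_T_u]
    rw [e]
    exact Δ.mul_mem (Δ.mul_mem hT hfu) (Δ.inv_mem hT)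
  have hb1 : R (act g (b m)) ∈ Δ := hface _ (by omega)
  have hb2 : R (act g (b (m + 3))) ∈ Δ := hface _ (by omega)
  -- the element of infinite order
  set s := g * T ^ m with hs
  have hsI : s ∈ IsomH3 := IsomH3.mul_mem hg (Tpow_mem m)
  have hp : s * p0 * s⁻¹ ∈ Δ := by
    have e1 : s * p0 * s⁻¹ = (s * R y0 * s⁻¹) * (s * R (b 3) * s⁻¹) := by
      rw [p0]; group
    have e2 : s * R y0 * s⁻¹ = R (act g (u (m + 1))) * R (act g (b m)) *
        (R (act g (u (m + 1))))⁻¹ := by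
      have hR : ∀ x y, B (act (R (act g (u (m + 1)))) x) (act (R (act g (u (m + 1)))) y) = B x y :=
        B_R _
      rw [conj_R hsI.1, conj_R hR, ← conj_R hg.1 (u (m + 1)), ← y0_eq]
      congr 1
      show act (g * T ^ m) (act (R (u 1)) (b 0)) = act (g * R (u (m + 1)) * g⁻¹) (act g (b m))
      rw [act_mul g (T ^ m), act_mul (g * R (u (m + 1))) g⁻¹, act_inv_act,
        act_mul g (R (u (m + 1)))]
      congr 1
      have hbm : b m = act (T ^ m) (b 0) := by rw [act_T_b, Nat.add_zero]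
      rw [← act_T_u m 1, ← conj_R (Tpow_mem m).1 (u 1), hbm, act_mul, act_inv_act, act_mul]
    have e3 : s * R (b 3) * s⁻¹ = R (act g (b (m + 3))) := by
      rw [conj_R hsI.1, hs, act_mul, act_T_b]
    rw [e1, e2, e3]
    exact Δ.mul_mem (Δ.mul_mem (Δ.mul_mem hu hb1) (Δ.inv_mem hu)) hb2
  obtain ⟨K, hK, hpK⟩ := finite_order hΔ hd hp (x := act s z0) (by rw [hsI.1]; exact z0_neg)
    (by rw [act_mul, act_mul, act_inv_act, p0_z0])
  rw [conj_pow] at hpK
  apply p0_pow_ne K hK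
  have : p0 ^ K = s⁻¹ * (s * p0 ^ K * s⁻¹) * s := by group
  rw [this, hpK]; group

end QA61
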